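import Pool.Agent.Lib.MP_4a7415_coI.Defs

/-! # Step 3: a good copy of `W` by averaging (row D) -/

namespace Pool.Agent.MP4a7415

open Finset

/-- Averaging: three (or more) means are met at the same time up to a constant. -/
theorem avg_all {α ι : Type*} [Fintype ι] (P : Finset α) (hP : P.Nonempty) (c : ι → α → ℝ)
    (b M : ι → ℝ) (hc : ∀ i, ∀ W ∈ P, 0 ≤ c i W) (hb : ∀ i, 0 ≤ b i) (hM : ∀ i, 0 ≤ M i)
    (h : ∀ i, ∑ W ∈ P, c i W ≤ M i * b i * P.card) :
    ∃ W ∈ P, ∀ i, c i W ≤ (∑ i, M i + 1) * b i := by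
  classical
  by_contra hcon
  push Not at hcon
  set C : ℝ := ∑ i, M i + 1 with hC
  have hM0 : 0 ≤ ∑ i, M i := sum_nonneg fun i _ => hM i
  have hC0 : 0 < C := by linarith
  have h1 : ∀ W ∈ P, 1 < ∑ i, c i W / (C * b i) := by
    intro W hW
    obtain ⟨i, hi⟩ := hcon W hW
    have hbi : 0 < b i := by
      refine lt_of_le_of_ne (hb i) fun h0 => ?_
      have h2 := h i
      rw [← h0, mul_zero, zero_mul] at h2
      have h3 : c i W ≤ ∑ W ∈ P, c i W := single_le_sum (fun W hW => hc i W hW) hW
      rw [← h0, mul_zero] at hi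
      linarith
    have h2 : 1 < c i W / (C * b i) := by
      rw [lt_div_iff₀ (mul_pos hC0 hbi), one_mul]
      exact hi
    refine h2.trans_le (single_le_sum (f := fun i => c i W / (C * b i)) (fun j _ => ?_)
      (mem_univ i))
    exact div_nonneg (hc j W hW) (mul_nonneg hC0.le (hb j))
  have h2 : (P.card : ℝ) < ∑ W ∈ P, ∑ i, c i W / (C * b i) := by
    have := sum_lt_sum_of_nonempty hP h1
    simpa using this
  rw [sum_comm] at h2
  have h3 : ∀ i, ∑ W ∈ P, c i W / (C * b i) ≤ M i * P.card / C := by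
    intro i
    rw [← sum_div]
    rcases eq_or_lt_of_le (hb i) with h0 | h0
    · rw [← h0, mul_zero, div_zero]
      exact div_nonneg (mul_nonneg (hM i) (Nat.cast_nonneg _)) hC0.le
    · rw [div_le_div_iff₀ (mul_pos hC0 h0) hC0]
      nlinarith [h i]
  have h4 := h2.trans_le (sum_le_sum fun i _ => h3 i)
  rw [← sum_div, ← sum_mul, lt_div_iff₀ hC0] at h4
  have h5 : (0 : ℝ) < P.card := by exact_mod_cast hP.card_pos
  nlinarith

/-- The number of `w`-sets that contain a given set. -/
theorem sup_le {n w : ℕ} (hw : w ≤ n) (A : Finset (Fin n)) :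
    (((powersetCard w (univ : Finset (Fin n))).filter fun W => A ⊆ W).card : ℝ) * n ^ A.card ≤
      w ^ A.card * (n.choose w : ℝ) := by
  classical
  by_cases hA : A.card ≤ w
  · rw [card_sup (subset_univ _) hA, card_univ, Fintype.card_fin]
    have key : ∀ a : ℕ, a ≤ w → ((n - a).choose (w - a)) * n ^ a ≤ w ^ a * n.choose w := by
      intro a
      induction a with
      | zero => intro _; simp
      | succ a ih =>
        intro ha
        have h1 := ih (by omega)
        obtain ⟨u, hu⟩ : ∃ u, n - a = u + 1 := ⟨n - a - 1, by omega⟩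
        obtain ⟨v, hv⟩ : ∃ v, w - a = v + 1 := ⟨w - a - 1, by omega⟩
        have h2 := Nat.add_one_mul_choose_eq u v
        rw [← hu, ← hv] at h2
        have e1 : n - (a + 1) = u := by omega
        have e2 : w - (a + 1) = v := by omega
        rw [e1, e2]
        have h3 : (w - a) * n ≤ w * (n - a) := by
          zify [show a ≤ w by omega, show a ≤ n by omega]
          have : (w : ℤ) ≤ n := by exact_mod_cast hw
          nlinarith [Int.natCast_nonneg a]
        have h4 : 0 < n - a := by omega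
        refine Nat.le_of_mul_le_mul_left ?_ h4
        calc (n - a) * (u.choose v * n ^ (a + 1))
            = ((n - a) * u.choose v) * n ^ a * n := by ring
          _ = ((n - a).choose (w - a) * (w - a)) * n ^ a * n := by rw [h2]
          _ = ((n - a).choose (w - a) * n ^ a) * ((w - a) * n) := by ring
          _ ≤ (w ^ a * n.choose w) * (w * (n - a)) := Nat.mul_le_mul h1 h3
          _ = (n - a) * (w ^ (a + 1) * n.choose w) := by ring
    exact_mod_cast key A.card hA
  · have : (powersetCard w (univ : Finset (Fin n))).filter (fun W => A ⊆ W) = ∅ := by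
      refine filter_eq_empty_iff.2 fun W hW h => hA ?_
      rw [← (mem_powersetCard.1 hW).2]
      exact card_le_card h
    rw [this, card_empty, Nat.cast_zero, zero_mul]
    positivity

/-- The number of `r`-sets that contain a given set. -/
theorem supR_le {n r : ℕ} (J : Finset (Fin n)) :
    (((powersetCard r (univ : Finset (Fin n))).filter fun R => J ⊆ R).card : ℝ) ≤
      n ^ (r - J.card) := by
  classical
  by_cases hJ : J.card ≤ r
  · rw [card_sup (subset_univ _) hJ, card_univ, Fintype.card_fin]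
    have h1 : (n - J.card).choose (r - J.card) ≤ n ^ (r - J.card) :=
      (Nat.choose_le_pow _ _).trans (Nat.pow_le_pow_left (Nat.sub_le _ _) _)
    exact_mod_cast h1
  · have : (powersetCard r (univ : Finset (Fin n))).filter (fun R => J ⊆ R) = ∅ := by
      refine filter_eq_empty_iff.2 fun R hR h => hJ ?_
      rw [← (mem_powersetCard.1 hR).2]
      exact card_le_card h
    rw [this, card_empty, Nat.cast_zero]
    positivity

/-- Exchange of the sums. -/
theorem sum_cnt {α κ : Type*} (P : Finset α) (I : Finset κ) (N : α → ℝ) (Q : κ → α → Prop)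
    [∀ x W, Decidable (Q x W)] (c : κ → ℝ)
    (h : ∀ W ∈ P, N W ≤ ∑ x ∈ I, if Q x W then c x else 0) :
    ∑ W ∈ P, N W ≤ ∑ x ∈ I, ((P.filter fun W => Q x W).card : ℝ) * c x := by
  refine (sum_le_sum h).trans (le_of_eq ?_)
  rw [sum_comm]
  refine sum_congr rfl fun x _ => ?_
  rw [← sum_filter, sum_const, nsmul_eq_mul]

variable {n : ℕ}

open Classical in
theorem count1 {q r w : ℕ} (hqr : r < q) (hw1 : 1 ≤ w) (hw : w ≤ n) (hn : 0 < n)
    {E' : Finset (Finset (Fin n))} (hE : E' ⊆ Blk n q) :
    ∑ W ∈ powersetCard w (univ : Finset (Fin n)),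
      (((Blk n r).filter fun R => Disjoint R W ∧ ∃ e ∈ E', e ⊆ R ∪ W).card : ℝ) ≤
      (2 ^ q * w ^ q : ℝ) * (E'.card / (n : ℝ) ^ (q - r)) *
        (powersetCard w (univ : Finset (Fin n))).card := by
  have hn' : (0 : ℝ) < n := by exact_mod_cast hn
  have hw' : (1 : ℝ) ≤ w := by exact_mod_cast hw1
  refine (sum_cnt (powersetCard w (univ : Finset (Fin n))) (E'.sigma fun e => e.powerset) _
    (fun x W => x.1 \ x.2 ⊆ W)
    (fun x => (((Blk n r).filter fun R => x.2 ⊆ R).card : ℝ)) fun W _ => ?_).trans ?_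
  · have h1 : (Blk n r).filter (fun R => Disjoint R W ∧ ∃ e ∈ E', e ⊆ R ∪ W) ⊆
        (E'.sigma fun e => e.powerset).biUnion fun x =>
          if x.1 \ x.2 ⊆ W then (Blk n r).filter fun R => x.2 ⊆ R else ∅ := by
      intro R hR
      obtain ⟨hR0, hR1, e, he, he'⟩ := mem_filter.1 hR
      rw [mem_biUnion]
      refine ⟨⟨e, e ∩ R⟩, mem_sigma.2 ⟨he, mem_powerset.2 inter_subset_left⟩, ?_⟩
      have h2 : e \ (e ∩ R) ⊆ W := by
        intro x hx
        rw [mem_sdiff, mem_inter, not_and] at hx
        exact (mem_union.1 (he' hx.1)).resolve_left (hx.2 hx.1)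
      simp only [h2, if_true]
      exact mem_filter.2 ⟨hR0, inter_subset_right⟩
    have h2 := (card_le_card h1).trans card_biUnion_le
    refine le_trans (Nat.cast_le (α := ℝ).2 h2) (le_of_eq ?_)
    push_cast
    refine sum_congr rfl fun x _ => ?_
    split_ifs <;> simp
  · have hx : ∀ x ∈ E'.sigma fun e => e.powerset,
        (((powersetCard w (univ : Finset (Fin n))).filter fun W => x.1 \ x.2 ⊆ W).card : ℝ) *
          (((Blk n r).filter fun R => x.2 ⊆ R).card : ℝ) ≤
        w ^ q * (1 / (n : ℝ) ^ (q - r)) * (n.choose w : ℝ) := by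
      rintro ⟨e, J⟩ hx
      obtain ⟨he, hJ⟩ := mem_sigma.1 hx
      have hJe : J ⊆ e := mem_powerset.1 hJ
      have hec : e.card = q := (mem_powersetCard.1 (hE he)).2
      by_cases hJr : J.card ≤ r
      · have h1 := sup_le hw (e \ J)
        have h2 := supR_le (r := r) J
        rw [card_sdiff_of_subset hJe, hec] at h1
        have h3 : (n : ℝ) ^ (q - J.card) = n ^ (q - r) * n ^ (r - J.card) := by
          rw [← pow_add]
          congr 1
          omega
        have h4 : (w : ℝ) ^ (q - J.card) ≤ w ^ q := pow_le_pow_right₀ hw' (Nat.sub_le _ _)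
        rw [mul_one_div, div_mul_eq_mul_div, le_div_iff₀ (pow_pos hn' _)]
        calc (((powersetCard w (univ : Finset (Fin n))).filter fun W => e \ J ⊆ W).card : ℝ) *
              (((Blk n r).filter fun R => J ⊆ R).card : ℝ) * (n : ℝ) ^ (q - r)
            ≤ (((powersetCard w (univ : Finset (Fin n))).filter fun W => e \ J ⊆ W).card : ℝ) *
              n ^ (r - J.card) * (n : ℝ) ^ (q - r) := by
              refine mul_le_mul_of_nonneg_right (mul_le_mul_of_nonneg_left h2
                (Nat.cast_nonneg _)) (pow_pos hn' _).le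
          _ = (((powersetCard w (univ : Finset (Fin n))).filter fun W => e \ J ⊆ W).card : ℝ) *
              n ^ (q - J.card) := by rw [h3]; ring
          _ ≤ w ^ (q - J.card) * (n.choose w : ℝ) := h1
          _ ≤ w ^ q * (n.choose w : ℝ) := mul_le_mul_of_nonneg_right h4 (Nat.cast_nonneg _)
      · have h0 : (Blk n r).filter (fun R => J ⊆ R) = ∅ := by
          refine filter_eq_empty_iff.2 fun R hR h => hJr ?_
          rw [← (mem_powersetCard.1 hR).2]
          exact card_le_card h
        simp only [h0, card_empty, Nat.cast_zero, mul_zero]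
        positivity
    refine (sum_le_card_nsmul _ _ _ hx).trans (le_of_eq ?_)
    have hc : ((E'.sigma fun e => e.powerset).card : ℝ) = E'.card * 2 ^ q := by
      rw [card_sigma]
      have : ∀ e ∈ E', (e.powerset).card = 2 ^ q := fun e he => by
        rw [card_powerset, (mem_powersetCard.1 (hE he)).2]
      rw [sum_congr rfl this, sum_const, smul_eq_mul]
      push_cast
      rfl
    rw [nsmul_eq_mul, hc, card_powersetCard, card_univ, Fintype.card_fin]
    ring

open Classical in
theorem count2 {r w : ℕ} (hw : w ≤ n) (hn : 0 < n)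
    {S : Finset (Finset (Fin n))} (hS : S ⊆ Blk n r) :
    ∑ W ∈ powersetCard w (univ : Finset (Fin n)),
      ((S.filter fun R => ¬ Disjoint R W).card : ℝ) ≤
      (r * w : ℝ) * (S.card / (n : ℝ)) * (powersetCard w (univ : Finset (Fin n))).card := by
  have hn' : (0 : ℝ) < n := by exact_mod_cast hn
  refine (sum_cnt (powersetCard w (univ : Finset (Fin n))) (S.sigma fun R => R) _
    (fun x W => {x.2} ⊆ W) (fun _ => (1 : ℝ)) fun W _ => ?_).trans ?_
  · have h1 : S.filter (fun R => ¬ Disjoint R W) ⊆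
        (S.sigma fun R => R).biUnion fun x => if {x.2} ⊆ W then {x.1} else ∅ := by
      intro R hR
      obtain ⟨hR0, hR1⟩ := mem_filter.1 hR
      obtain ⟨x, hx, hx'⟩ := not_disjoint_iff.1 hR1
      rw [mem_biUnion]
      refine ⟨⟨R, x⟩, mem_sigma.2 ⟨hR0, hx⟩, ?_⟩
      simp only [singleton_subset_iff.2 hx', if_true, mem_singleton]
    have h2 := (card_le_card h1).trans card_biUnion_le
    refine le_trans (Nat.cast_le (α := ℝ).2 h2) (le_of_eq ?_)
    push_cast
    refine sum_congr rfl fun x _ => ?_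
    split_ifs <;> simp
  · have hx : ∀ x ∈ S.sigma fun R => R,
        (((powersetCard w (univ : Finset (Fin n))).filter fun W => {x.2} ⊆ W).card : ℝ) * 1 ≤
        w * (1 / (n : ℝ)) * (n.choose w : ℝ) := by
      intro x _
      have h1 := sup_le hw {x.2}
      rw [card_singleton, pow_one, pow_one] at h1
      rw [mul_one, mul_one_div, div_mul_eq_mul_div, le_div_iff₀ hn']
      exact h1
    refine (sum_le_card_nsmul _ _ _ hx).trans (le_of_eq ?_)
    have hc : ((S.sigma fun R => R).card : ℝ) = S.card * r := by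
      rw [card_sigma]
      have : ∀ R ∈ S, R.card = r := fun R hR => (mem_powersetCard.1 (hS hR)).2
      rw [sum_congr rfl this, sum_const, smul_eq_mul]
      push_cast
      rfl
    rw [nsmul_eq_mul, hc, card_powersetCard, card_univ, Fintype.card_fin]
    ring

open Classical in
theorem count3 {r w : ℕ} (hw1 : 1 ≤ w) (hw : w ≤ n) (hn : 0 < n)
    {Z : Finset (Finset (Fin n))} (hZ : Z ⊆ Blk n r) :
    ∑ W ∈ powersetCard w (univ : Finset (Fin n)),
      (((Blk n r).filter fun R => ¬ Disjoint R W ∧ ∃ R' ∈ Z, R' ⊆ R ∪ W).card : ℝ) ≤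
      (2 ^ r * w ^ (r + 1) : ℝ) * (Z.card / (n : ℝ)) *
        (powersetCard w (univ : Finset (Fin n))).card := by
  have hn' : (0 : ℝ) < n := by exact_mod_cast hn
  have hw' : (1 : ℝ) ≤ w := by exact_mod_cast hw1
  refine (sum_cnt (powersetCard w (univ : Finset (Fin n)))
    (Z.sigma fun R' => R'.powerset.filter fun J => J ≠ R') _ (fun x W => x.1 \ x.2 ⊆ W)
    (fun x => (w : ℝ) * n ^ (r - 1 - x.2.card)) fun W hW => ?_).trans ?_
  · have hWc : W.card = w := (mem_powersetCard.1 hW).2
    have h1 : (Blk n r).filter (fun R => ¬ Disjoint R W ∧ ∃ R' ∈ Z, R' ⊆ R ∪ W) ⊆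
        (Z.sigma fun R' => R'.powerset.filter fun J => J ≠ R').biUnion fun x =>
          if x.1 \ x.2 ⊆ W then (W \ x.2).biUnion fun y =>
            (Blk n r).filter fun R => insert y x.2 ⊆ R else ∅ := by
      intro R hR
      obtain ⟨hR0, hR1, R', hR', hsub⟩ := mem_filter.1 hR
      obtain ⟨y, hy, hyW⟩ := not_disjoint_iff.1 hR1
      have hJR : R' \ W ⊆ R := by
        intro x hx
        rw [mem_sdiff] at hx
        exact (mem_union.1 (hsub hx.1)).resolve_right hx.2
      have hne : R' \ W ≠ R' := by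
        intro h
        rw [h] at hJR
        have h2 : R' = R := eq_of_subset_of_card_le hJR (by
          rw [(mem_powersetCard.1 (hZ hR')).2, (mem_powersetCard.1 hR0).2])
        rw [h2] at h
        rw [← h] at hy
        exact (mem_sdiff.1 hy).2 hyW
      rw [mem_biUnion]
      refine ⟨⟨R', R' \ W⟩, mem_sigma.2 ⟨hR', mem_filter.2 ⟨mem_powerset.2 sdiff_subset, hne⟩⟩, ?_⟩
      have h2 : R' \ (R' \ W) ⊆ W := by
        intro x hx
        rw [mem_sdiff, mem_sdiff, not_and, not_not] at hx
        exact hx.2 hx.1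
      simp only [h2, if_true]
      rw [mem_biUnion]
      exact ⟨y, mem_sdiff.2 ⟨hyW, fun h => (mem_sdiff.1 h).2 hyW⟩,
        mem_filter.2 ⟨hR0, insert_subset hy hJR⟩⟩
    have h2 := (card_le_card h1).trans card_biUnion_le
    refine le_trans (Nat.cast_le (α := ℝ).2 h2) ?_
    push_cast
    refine sum_le_sum fun x hx => ?_
    split_ifs with h3
    · have h4 : ∀ y ∈ W \ x.2, (((Blk n r).filter fun R => insert y x.2 ⊆ R).card : ℝ) ≤
          (n : ℝ) ^ (r - 1 - x.2.card) := by
        intro y hy
        have h5 := supR_le (r := r) (insert y x.2)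
        rw [card_insert_of_notMem (mem_sdiff.1 hy).2] at h5
        have e : r - (x.2.card + 1) = r - 1 - x.2.card := by omega
        rwa [e] at h5
      have h6 : (((W \ x.2).biUnion fun y =>
          (Blk n r).filter fun R => insert y x.2 ⊆ R).card : ℝ) ≤
          ∑ y ∈ W \ x.2, (((Blk n r).filter fun R => insert y x.2 ⊆ R).card : ℝ) := by
        exact_mod_cast card_biUnion_le
      refine h6.trans ((sum_le_card_nsmul _ _ _ h4).trans ?_)
      rw [nsmul_eq_mul]
      refine mul_le_mul_of_nonneg_right ?_ (pow_pos hn' _).le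
      have h7 : (W \ x.2).card ≤ w := by
        rw [← hWc]
        exact card_le_card sdiff_subset
      exact_mod_cast h7
    · simp
  · have hx : ∀ x ∈ Z.sigma fun R' => R'.powerset.filter fun J => J ≠ R',
        (((powersetCard w (univ : Finset (Fin n))).filter fun W => x.1 \ x.2 ⊆ W).card : ℝ) *
          ((w : ℝ) * n ^ (r - 1 - x.2.card)) ≤
        w ^ (r + 1) * (1 / (n : ℝ)) * (n.choose w : ℝ) := by
      rintro ⟨R', J⟩ hx
      obtain ⟨hR', hJ⟩ := mem_sigma.1 hx
      obtain ⟨hJ1, hJ2⟩ := mem_filter.1 hJ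
      have hJR : J ⊆ R' := mem_powerset.1 hJ1
      have hRc : R'.card = r := (mem_powersetCard.1 (hZ hR')).2
      have hJc : J.card < r := by
        rw [← hRc]
        exact card_lt_card (lt_of_le_of_ne hJR hJ2)
      have h1 := sup_le hw (R' \ J)
      rw [card_sdiff_of_subset hJR, hRc] at h1
      have h3 : (n : ℝ) ^ (r - J.card) = n ^ (r - 1 - J.card) * n := by
        rw [← pow_succ]
        congr 1
        omega
      have h4 : (w : ℝ) ^ (r - J.card) ≤ w ^ r := pow_le_pow_right₀ hw' (Nat.sub_le _ _)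
      rw [mul_one_div, div_mul_eq_mul_div, le_div_iff₀ hn']
      calc (((powersetCard w (univ : Finset (Fin n))).filter fun W => R' \ J ⊆ W).card : ℝ) *
            ((w : ℝ) * n ^ (r - 1 - J.card)) * n
          = ((((powersetCard w (univ : Finset (Fin n))).filter fun W => R' \ J ⊆ W).card : ℝ) *
            n ^ (r - J.card)) * w := by rw [h3]; ring
        _ ≤ (w ^ (r - J.card) * (n.choose w : ℝ)) * w :=
            mul_le_mul_of_nonneg_right h1 (by linarith)
        _ ≤ (w ^ r * (n.choose w : ℝ)) * w :=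
            mul_le_mul_of_nonneg_right (mul_le_mul_of_nonneg_right h4 (Nat.cast_nonneg _))
              (by linarith)
        _ = w ^ (r + 1) * (n.choose w : ℝ) := by ring
    have hnn : 0 ≤ (w : ℝ) ^ (r + 1) * (1 / (n : ℝ)) * (n.choose w : ℝ) := by positivity
    refine (sum_le_card_nsmul _ _ _ hx).trans ?_
    have hc : ((Z.sigma fun R' => R'.powerset.filter fun J => J ≠ R').card : ℝ) ≤
        Z.card * 2 ^ r := by
      rw [card_sigma]
      have : ∀ R' ∈ Z, (R'.powerset.filter fun J => J ≠ R').card ≤ 2 ^ r := fun R' hR' => by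
        refine (card_filter_le _ _).trans (le_of_eq ?_)
        rw [card_powerset, (mem_powersetCard.1 (hZ hR')).2]
      have h5 := sum_le_card_nsmul _ _ _ this
      rw [smul_eq_mul] at h5
      exact_mod_cast h5
    rw [nsmul_eq_mul, card_powersetCard, card_univ, Fintype.card_fin]
    refine (mul_le_mul_of_nonneg_right hc hnn).trans (le_of_eq ?_)
    ring

/-- Some `w`-set `W` meets all three averages up to a constant. -/
theorem choose_W (q r w : ℕ) (hr : 1 ≤ r) (hqr : r < q) (hw : 1 ≤ w) : ∃ C1 : ℝ, 0 < C1 ∧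
    ∀ n : ℕ, w ≤ n → q ≤ n → ∀ E' S Z : Finset (Finset (Fin n)), E' ⊆ Blk n q → S ⊆ Blk n r →
      Z ⊆ Blk n r → ∃ W : Finset (Fin n), W.card = w ∧
      (((Blk n r).filter fun R => Disjoint R W ∧ ∃ e ∈ E', e ⊆ R ∪ W).card : ℝ) ≤
        C1 * (E'.card / (n : ℝ) ^ (q - r)) ∧
      ((S.filter fun R => ¬ Disjoint R W).card : ℝ) ≤ C1 * (S.card / n) ∧
      (((Blk n r).filter fun R => ¬ Disjoint R W ∧ ∃ R' ∈ Z, R' ⊆ R ∪ W).card : ℝ) ≤
        C1 * (Z.card / n) := by
  classical
  refine ⟨∑ i : Fin 3, (![2 ^ q * (w : ℝ) ^ q, r * w, 2 ^ r * w ^ (r + 1)] : Fin 3 → ℝ) i + 1,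
    ?_, ?_⟩
  · rw [Fin.sum_univ_three]
    simp only [Matrix.cons_val_zero, Matrix.cons_val_one, Matrix.cons_val]
    positivity
  · intro n hwn hqn E' S Z hE hS hZ
    have hn : 0 < n := by omega
    have hP : (powersetCard w (univ : Finset (Fin n))).Nonempty :=
      powersetCard_nonempty.2 (by rw [card_univ, Fintype.card_fin]; exact hwn)
    obtain ⟨W, hW, h⟩ := avg_all (powersetCard w (univ : Finset (Fin n))) hP
      (![fun W => (((Blk n r).filter fun R => Disjoint R W ∧ ∃ e ∈ E', e ⊆ R ∪ W).card : ℝ),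
        fun W => ((S.filter fun R => ¬ Disjoint R W).card : ℝ),
        fun W => (((Blk n r).filter fun R => ¬ Disjoint R W ∧
          ∃ R' ∈ Z, R' ⊆ R ∪ W).card : ℝ)] : Fin 3 → Finset (Fin n) → ℝ)
      (![E'.card / (n : ℝ) ^ (q - r), S.card / (n : ℝ), Z.card / (n : ℝ)] : Fin 3 → ℝ)
      (![2 ^ q * (w : ℝ) ^ q, r * w, 2 ^ r * w ^ (r + 1)] : Fin 3 → ℝ)
      (by
        intro i W _
        fin_cases i <;> exact Nat.cast_nonneg _)
      (by
        intro i
        fin_cases i <;> simp <;> positivity)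
      (by
        intro i
        fin_cases i <;> simp <;> positivity)
      (by
        intro i
        fin_cases i
        · exact count1 hqr hw hwn hn hE
        · exact count2 hwn hn hS
        · exact count3 hw hwn hn hZ)
    exact ⟨W, (mem_powersetCard.1 hW).2, h 0, h 1, h 2⟩

end Pool.Agent.MP4a7415
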