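import Mathlib

/-! # Step 5: the unit cube (row M) -/

namespace Pool.Agent.MP4a7415

open Finset MeasureTheory
open scoped Pointwise

/-- The Lebesgue measure of the unit cube. -/
noncomputable def cubeM (κ : Type*) [Fintype κ] : Measure (κ → ℝ) :=
  volume.restrict (Set.pi Set.univ fun _ => Set.Ico (0 : ℝ) 1)

theorem cubeM_univ (κ : Type*) [Fintype κ] : cubeM κ Set.univ = 1 := by
  rw [cubeM, Measure.restrict_apply_univ, volume_pi, Measure.pi_pi]
  simp

theorem cube_one (n : ℤ) :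
    ∫ x in Set.Ico (0 : ℝ) 1, Complex.exp (2 * Real.pi * Complex.I * ((n : ℂ) * (x : ℂ))) =
      if n = 0 then 1 else 0 := by
  rw [integral_Ico_eq_integral_Ioc, ← intervalIntegral.integral_of_le zero_le_one]
  by_cases hn : n = 0
  · rw [if_pos hn, hn]
    simp
  · rw [if_neg hn]
    have hc : (2 * Real.pi * Complex.I * (n : ℂ)) ≠ 0 := by
      have h1 : (n : ℂ) ≠ 0 := Int.cast_ne_zero.2 hn
      exact mul_ne_zero Complex.two_pi_I_ne_zero h1
    have h2 : ∀ x : ℝ, Complex.exp (2 * Real.pi * Complex.I * ((n : ℂ) * (x : ℂ))) =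
        Complex.exp ((2 * Real.pi * Complex.I * (n : ℂ)) * (x : ℂ)) := by
      intro x
      rw [mul_assoc (2 * Real.pi * Complex.I)]
    simp_rw [h2]
    rw [integral_exp_mul_complex hc]
    have h3 : Complex.exp ((2 * Real.pi * Complex.I * (n : ℂ)) * ((1 : ℝ) : ℂ)) = 1 := by
      rw [Complex.ofReal_one, mul_one, mul_comm]
      exact Complex.exp_int_mul_two_pi_mul_I n
    rw [h3]
    simp

/-- Orthogonality of characters. -/
theorem cube_orth {κ : Type*} [Fintype κ] (a : κ → ℤ) :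
    ∫ y, Complex.exp (2 * Real.pi * Complex.I * ((∑ R, (a R : ℝ) * y R : ℝ) : ℂ)) ∂cubeM κ =
      if a = 0 then 1 else 0 := by
  have h1 : ∀ y : κ → ℝ,
      Complex.exp (2 * Real.pi * Complex.I * ((∑ R, (a R : ℝ) * y R : ℝ) : ℂ)) =
        ∏ R, Complex.exp (2 * Real.pi * Complex.I * ((a R : ℂ) * (y R : ℂ))) := by
    intro y
    rw [← Complex.exp_sum, ← Finset.mul_sum]
    push_cast
    rfl
  simp_rw [h1]
  rw [cubeM, volume_pi, Measure.restrict_pi_pi,
    integral_fintype_prod_eq_prod (𝕜 := ℂ)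
      (fun R (x : ℝ) => Complex.exp (2 * Real.pi * Complex.I * ((a R : ℂ) * (x : ℂ))))]
  simp_rw [cube_one]
  by_cases ha : a = 0
  · rw [if_pos ha, ha]
    simp
  · rw [if_neg ha]
    obtain ⟨R, hR⟩ := Function.ne_iff.1 ha
    exact Finset.prod_eq_zero (Finset.mem_univ R) (if_neg hR)

/-- Translation invariance for periodic functions. -/
theorem cube_shift {κ : Type*} [Fintype κ] (g : (κ → ℝ) → ENNReal) (hg : Measurable g)
    (hper : ∀ (a : κ → ℤ) (y : κ → ℝ), g (fun R => y R + a R) = g y) (y1 : κ → ℝ) :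
    ∫⁻ y, g (fun R => y R - y1 R) ∂cubeM κ = ∫⁻ y, g y ∂cubeM κ := by
  classical
  set Q : Set (κ → ℝ) := Set.pi Set.univ fun _ => Set.Ico (0 : ℝ) 1 with hQ
  have hfd : IsAddFundamentalDomain (Submodule.span ℤ (Set.range (Pi.basisFun ℝ κ))) Q
      (volume : Measure (κ → ℝ)) := by
    rw [hQ, ← ZSpan.fundamentalDomain_pi_basisFun]
    exact ZSpan.isAddFundamentalDomain _ _
  have hfd2 : IsAddFundamentalDomain (Submodule.span ℤ (Set.range (Pi.basisFun ℝ κ)))
      ((-y1) +ᵥ Q) (volume : Measure (κ → ℝ)) := hfd.vadd_of_comm (-y1)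
  have hT : MeasurePreserving (fun y : κ → ℝ => -y1 + y) volume volume :=
    measurePreserving_add_left volume (-y1)
  have hTe : MeasurableEmbedding (fun y : κ → ℝ => -y1 + y) :=
    (MeasurableEquiv.addLeft (-y1)).measurableEmbedding
  have h1 : ∀ y : κ → ℝ, g (fun R => y R - y1 R) = g (-y1 + y) := by
    intro y
    congr 1
    funext R
    simp only [Pi.add_apply, Pi.neg_apply]
    ring
  simp_rw [h1]
  change ∫⁻ y in Q, g (-y1 + y) = ∫⁻ y in Q, g y
  rw [hT.setLIntegral_comp_emb hTe]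
  have h2 : (fun y : κ → ℝ => -y1 + y) '' Q = (-y1) +ᵥ Q := rfl
  rw [h2]
  have hinv : VAddInvariantMeasure (Submodule.span ℤ (Set.range (Pi.basisFun ℝ κ)))
      (κ → ℝ) volume :=
    (inferInstance : VAddInvariantMeasure
      (Submodule.span ℤ (Set.range (Pi.basisFun ℝ κ))).toAddSubgroup (κ → ℝ) volume)
  refine hfd2.setLIntegral_eq hfd g ?_
  rintro ⟨v, hv⟩ x
  obtain ⟨a, ha⟩ : ∃ a : κ → ℤ, v = fun R => (a R : ℝ) := by
    have h3 := (Pi.basisFun ℝ κ).mem_span_iff_repr_mem ℤ v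
    have h4 := h3.1 hv
    choose a ha using h4
    refine ⟨a, ?_⟩
    funext R
    have := ha R
    simpa using this.symm
  change g (v + x) = g x
  rw [← hper a x]
  congr 1
  funext R
  rw [ha, Pi.add_apply, add_comm]

end Pool.Agent.MP4a7415
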