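import Mathlib

/-! # The distance to the nearest integer -/

namespace Pool.Agent.MP4a7415

open Finset

/-- Distance to the nearest integer. -/
noncomputable def dZ (x : ℝ) : ℝ := |x - round x|

theorem dZ_nonneg (x : ℝ) : 0 ≤ dZ x := abs_nonneg _

theorem dZ_le_half (x : ℝ) : dZ x ≤ 1 / 2 := abs_sub_round x

theorem dZ_le (x : ℝ) (k : ℤ) : dZ x ≤ |x - k| := round_le x k

theorem dZ_le_abs (x : ℝ) : dZ x ≤ |x| := by
  have := dZ_le x 0
  simpa using this

theorem dZ_eq_zero {x : ℝ} (h : ∃ k : ℤ, x = k) : dZ x = 0 := by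
  obtain ⟨k, rfl⟩ := h
  exact le_antisymm ((dZ_le _ k).trans (by simp)) (dZ_nonneg _)

theorem exists_int_of_dZ_eq_zero {x : ℝ} (h : dZ x = 0) : ∃ k : ℤ, x = k :=
  ⟨round x, by rw [dZ, abs_eq_zero] at h; linarith⟩

theorem dZ_add_le (x y : ℝ) : dZ (x + y) ≤ dZ x + dZ y := by
  refine (dZ_le (x + y) (round x + round y)).trans ?_
  push_cast
  have : x + y - ((round x : ℝ) + (round y : ℝ)) = (x - round x) + (y - round y) := by ring
  rw [this]
  exact abs_add_le _ _

theorem dZ_le_add_abs (x y : ℝ) : dZ x ≤ dZ y + |x - y| := by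
  have := dZ_add_le y (x - y)
  rw [add_sub_cancel] at this
  exact this.trans (add_le_add le_rfl (dZ_le_abs _))

theorem dZ_int_mul (k : ℤ) (x : ℝ) : dZ (k * x) ≤ |(k : ℝ)| * dZ x := by
  refine (dZ_le (k * x) (k * round x)).trans ?_
  push_cast
  rw [← mul_sub, abs_mul, dZ]

theorem dZ_sum_le {ι : Type*} (s : Finset ι) (f : ι → ℝ) : dZ (∑ i ∈ s, f i) ≤ ∑ i ∈ s, dZ (f i) := by
  classical
  induction s using Finset.induction_on with
  | empty => simp [dZ]
  | insert a s ha ih =>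
    rw [sum_insert ha, sum_insert ha]
    exact (dZ_add_le _ _).trans (by linarith)

end Pool.Agent.MP4a7415
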