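import Pool.Agent.Lib.MP_4a7415_coI.Ident

/-! # Step 2: the decoder (row C) -/

namespace Pool.Agent.MP4a7415

open Finset

private theorem dec_int_sum {ι : Type*} (s : Finset ι) (f : ι → ℝ)
    (h : ∀ i ∈ s, ∃ k : ℤ, f i = k) : ∃ k : ℤ, ∑ i ∈ s, f i = k := by
  classical
  induction s using Finset.induction_on with
  | empty => exact ⟨0, by simp⟩
  | insert a s ha ih =>
    obtain ⟨k, hk⟩ := ih fun i hi => h i (mem_insert_of_mem hi)
    obtain ⟨l, hl⟩ := h a (mem_insert_self a s)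
    exact ⟨l + k, by rw [sum_insert ha, hk, hl]; push_cast; ring⟩

/-- The rounded transform. -/
noncomputable def etaS {n : ℕ} (q r : ℕ) (W : Finset (Fin n)) (c : Finset (Fin n) → ℤ)
    (y : Finset (Fin n) → ℝ) (T : Finset (Fin n)) : ℝ :=
  (round ((bb q r T.card : ℝ) * mob (hh r W c y) T) : ℝ) / (bb q r T.card : ℝ)

theorem bb_mul_etaS {n q r : ℕ} (hqr : r ≤ q) (W : Finset (Fin n)) (c : Finset (Fin n) → ℤ)
    (y : Finset (Fin n) → ℝ) (T : Finset (Fin n)) :
    (bb q r T.card : ℝ) * etaS q r W c y T =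
      (round ((bb q r T.card : ℝ) * mob (hh r W c y) T) : ℝ) := by
  have h0 : (bb q r T.card : ℝ) ≠ 0 := by exact_mod_cast (bb_pos (i := T.card) hqr).ne'
  unfold etaS
  rw [mul_div_cancel₀ _ h0]

/-- The decoded vector. -/
noncomputable def dec {n : ℕ} (q r : ℕ) (W : Finset (Fin n)) (c : Finset (Fin n) → ℤ)
    (y : Finset (Fin n) → ℝ) (R : Finset (Fin n)) : ℝ :=
  ∑ T ∈ (R \ W).powerset, etaS q r W c y T

theorem dec_Lst {n q r : ℕ} (hqr : r ≤ q) (W : Finset (Fin n)) (c : Finset (Fin n) → ℤ)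
    (y : Finset (Fin n) → ℝ) : Lst n q r (dec q r W c y) := by
  classical
  intro e he
  have hq : e.card = q := (mem_powersetCard.1 he).2
  have h1 : ev r (dec q r W c y) e = ∑ T ∈ (e \ W).powerset,
      ∑ R ∈ (powersetCard r e).filter (fun R => T ⊆ R), etaS q r W c y T := by
    unfold ev dec
    refine sum_comm' fun R T => ?_
    rw [mem_powersetCard, mem_powerset, mem_filter, mem_powersetCard, mem_powerset]
    constructor
    · rintro ⟨⟨h3, h4⟩, h5⟩
      exact ⟨⟨⟨h3, h4⟩, h5.trans sdiff_subset⟩, h5.trans (sdiff_subset_sdiff h3 le_rfl)⟩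
    · rintro ⟨⟨⟨h3, h4⟩, h5⟩, h6⟩
      exact ⟨⟨h3, h4⟩, subset_sdiff.2 ⟨h5, (subset_sdiff.1 h6).2⟩⟩
  rw [h1]
  refine dec_int_sum _ _ fun T hT => ?_
  rw [mem_powerset] at hT
  have hTe : T ⊆ e := hT.trans sdiff_subset
  rw [sum_const, nsmul_eq_mul]
  by_cases hr : T.card ≤ r
  · rw [card_sup hTe hr, hq]
    exact ⟨_, bb_mul_etaS hqr W c y T⟩
  · refine ⟨0, ?_⟩
    have h2 : (powersetCard r e).filter (fun R => T ⊆ R) = ∅ := by
      refine filter_eq_empty_iff.2 fun R hR h => hr ?_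
      rw [← (mem_powersetCard.1 hR).2]
      exact card_le_card h
    rw [h2]
    simp

theorem Qc_mul_dec {n q r : ℕ} (hqr : r ≤ q) (W : Finset (Fin n)) (c : Finset (Fin n) → ℤ)
    (y : Finset (Fin n) → ℝ) {R : Finset (Fin n)} (hR : R.card = r) :
    ∃ k : ℤ, (Qc q r : ℝ) * dec q r W c y R = k := by
  unfold dec
  rw [mul_sum]
  refine dec_int_sum _ _ fun T hT => ?_
  rw [mem_powerset] at hT
  have hr : T.card ≤ r := hR ▸ card_le_card (hT.trans sdiff_subset)
  obtain ⟨m, hm⟩ : bb q r T.card ∣ Qc q r :=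
    dvd_prod_of_mem _ (mem_range.2 (Nat.lt_succ_of_le hr))
  refine ⟨m * round ((bb q r T.card : ℝ) * mob (hh r W c y) T), ?_⟩
  rw [hm]
  push_cast
  rw [← bb_mul_etaS hqr W c y T]
  ring

theorem abs_sub_etaS {n q r : ℕ} (hqr : r ≤ q) (W : Finset (Fin n)) (c : Finset (Fin n) → ℤ)
    (y : Finset (Fin n) → ℝ) (T : Finset (Fin n)) :
    |mob (hh r W c y) T - etaS q r W c y T| ≤
      dZ ((bb q r T.card : ℝ) * mob (hh r W c y) T) := by
  have h1 : (1 : ℝ) ≤ (bb q r T.card : ℝ) := by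
    exact_mod_cast (bb_pos (i := T.card) hqr)
  have h2 : (bb q r T.card : ℝ) * |mob (hh r W c y) T - etaS q r W c y T| =
      dZ ((bb q r T.card : ℝ) * mob (hh r W c y) T) := by
    unfold dZ
    rw [← bb_mul_etaS hqr W c y T, ← mul_sub, abs_mul,
      abs_of_nonneg (by linarith : (0 : ℝ) ≤ (bb q r T.card : ℝ))]
  rw [← h2]
  exact le_mul_of_one_le_left (abs_nonneg _) h1

theorem dZ_mob_HH {n q r A : ℕ} {W : Finset (Fin n)} {c : Finset (Fin n) → ℤ}
    (hA : ∀ S, |c S| ≤ A) (y : Finset (Fin n) → ℝ) {R T : Finset (Fin n)} (hRq : R.card ≤ q)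
    (hT : T ⊆ R) (hd : Disjoint R W) {β : ℝ} (h0 : 0 ≤ β)
    (hβ : ∀ e ∈ Blk n q, e ⊆ R ∪ W → dZ (ev r y e) ≤ β) :
    dZ (mob (HH q r W c y) T) ≤ 2 ^ R.card * (2 ^ W.card * (A * β)) := by
  classical
  unfold mob
  refine (dZ_sum_le _ _).trans ?_
  have h1 : ∀ J ∈ T.powerset, dZ ((-1 : ℝ) ^ (T.card - J.card) * HH q r W c y J) ≤
      2 ^ W.card * (A * β) := by
    intro J hJ
    rw [mem_powerset] at hJ
    have hJR : J ⊆ R := hJ.trans hT
    have h2 : dZ (HH q r W c y J) ≤ 2 ^ W.card * (A * β) := by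
      unfold HH
      refine (dZ_sum_le _ _).trans ?_
      have h3 : ∀ S ∈ powersetCard (q - J.card) W, dZ ((c S : ℝ) * ev r y (J ∪ S)) ≤ A * β := by
        intro S hS
        obtain ⟨hS1, hS2⟩ := mem_powersetCard.1 hS
        refine (dZ_int_mul _ _).trans ?_
        have h4 : |((c S : ℤ) : ℝ)| ≤ A := by exact_mod_cast hA S
        have hdJ : Disjoint J S :=
          disjoint_of_subset_left hJR (disjoint_of_subset_right hS1 hd)
        have h5 : J ∪ S ∈ Blk n q := by
          refine mem_powersetCard.2 ⟨subset_univ _, ?_⟩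
          rw [card_union_of_disjoint hdJ, hS2]
          have := card_le_card hJR
          omega
        have h6 : dZ (ev r y (J ∪ S)) ≤ β := hβ _ h5 (union_subset_union hJR hS1)
        exact mul_le_mul h4 h6 (dZ_nonneg _) (Nat.cast_nonneg _)
      refine (sum_le_sum h3).trans ?_
      rw [sum_const, nsmul_eq_mul]
      refine mul_le_mul_of_nonneg_right ?_ (by positivity)
      have h7 : (powersetCard (q - J.card) W).card ≤ 2 ^ W.card := by
        rw [← card_powerset]
        exact card_le_card fun S hS => mem_powerset.2 (mem_powersetCard.1 hS).1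
      exact_mod_cast h7
    have h8 : ((-1 : ℝ) ^ (T.card - J.card) * HH q r W c y J) =
        (((-1 : ℤ) ^ (T.card - J.card) : ℤ) : ℝ) * HH q r W c y J := by push_cast; rfl
    rw [h8]
    refine (dZ_int_mul _ _).trans ?_
    have h9 : |((((-1 : ℤ) ^ (T.card - J.card) : ℤ)) : ℝ)| = 1 := by
      push_cast
      rw [abs_pow, abs_neg, abs_one, one_pow]
    rw [h9, one_mul]
    exact h2
  refine (sum_le_sum h1).trans ?_
  rw [sum_const, nsmul_eq_mul, card_powerset]
  push_cast
  refine mul_le_mul_of_nonneg_right ?_ (by positivity)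
  exact pow_le_pow_right₀ (by norm_num) (card_le_card hT)

/-- The decoder: `y0` is integral on all blocks and close to `y` wherever the block sums of `y`
near `R` are close to integers. -/
theorem decode (q r A w : ℕ) (hqr : r ≤ q) : ∃ Bd : ℝ, 1 ≤ Bd ∧ ∀ (n : ℕ) (W : Finset (Fin n))
    (c : Finset (Fin n) → ℤ), W.card = w → FP n q W c → (∀ S, |c S| ≤ A) →
    ∀ y : Finset (Fin n) → ℝ, ∃ y0 : Finset (Fin n) → ℝ, Lst n q r y0 ∧
      (∀ R ∈ Blk n r, ∃ k : ℤ, (Qc q r : ℝ) * y0 R = k) ∧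
      (∀ R ∈ Blk n r, Disjoint R W → ∀ β : ℝ,
        (∀ e ∈ Blk n q, e ⊆ R ∪ W → dZ (ev r y e) ≤ β) → |y R - y0 R| ≤ Bd * β) ∧
      (∀ R ∈ Blk n r, y0 R ≠ 0 → ∃ R' ∈ Blk n r, R' ⊆ R ∪ W ∧ y R' ≠ 0) := by
  classical
  refine ⟨2 ^ r * (2 ^ r * (2 ^ w * A)) + 1, by
    have : (0 : ℝ) ≤ 2 ^ r * (2 ^ r * (2 ^ w * A)) := by positivity
    linarith, ?_⟩
  intro n W c hWw hW hA y
  refine ⟨dec q r W c y, dec_Lst hqr W c y,
    fun R hR => Qc_mul_dec hqr W c y (mem_powersetCard.1 hR).2, ?_, ?_⟩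
  · intro R hR hd β hβ
    have hRr : R.card = r := (mem_powersetCard.1 hR).2
    -- `β` is nonnegative, since `W` contains a block
    have h0 : 0 ≤ β := by
      have h1 := hW.sum ∅ (empty_subset _) q (by simp) le_rfl
      rw [card_empty, Nat.choose_zero_right, hW.one] at h1
      have h2 : ((powersetCard q W).filter (fun S' => ∅ ⊆ S')).Nonempty := by
        rw [nonempty_iff_ne_empty]
        intro h3
        rw [h3, sum_empty] at h1
        norm_num at h1
      obtain ⟨e, he⟩ := h2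
      obtain ⟨he1, he2⟩ := mem_powersetCard.1 (mem_filter.1 he).1
      exact (dZ_nonneg _).trans (hβ e (mem_powersetCard.2 ⟨subset_univ _, he2⟩)
        (he1.trans subset_union_right))
    have h1 : R \ W = R := sdiff_eq_self_of_disjoint hd
    have h2 : y R - dec q r W c y R =
        ∑ T ∈ R.powerset, (mob (hh r W c y) T - etaS q r W c y T) := by
      unfold dec
      rw [h1, sum_sub_distrib, sum_mob_hh hW.one y hRr]
    rw [h2]
    refine (abs_sum_le_sum_abs _ _).trans ?_
    have h3 : ∀ T ∈ R.powerset, |mob (hh r W c y) T - etaS q r W c y T| ≤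
        2 ^ r * (2 ^ w * (A * β)) := by
      intro T hT
      rw [mem_powerset] at hT
      have hTr : T.card ≤ r := hRr ▸ card_le_card hT
      refine (abs_sub_etaS hqr W c y T).trans ?_
      rw [← mob_HH hqr hW y hTr (disjoint_of_subset_left hT hd), ← hRr, ← hWw]
      subst hRr
      exact dZ_mob_HH hA y hqr hT hd h0 hβ
    refine (sum_le_sum h3).trans ?_
    rw [sum_const, nsmul_eq_mul, card_powerset, hRr]
    push_cast
    nlinarith
  · intro R hR hne
    by_contra hc
    push Not at hc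
    have hRr : R.card = r := (mem_powersetCard.1 hR).2
    refine hne ?_
    unfold dec
    refine sum_eq_zero fun T hT => ?_
    rw [mem_powerset] at hT
    have h1 : mob (hh r W c y) T = 0 := by
      unfold mob
      refine sum_eq_zero fun J hJ => ?_
      rw [mem_powerset] at hJ
      have hJR : J ⊆ R \ W := hJ.trans hT
      have h2 : hh r W c y J = 0 := by
        unfold hh
        refine sum_eq_zero fun S hS => ?_
        obtain ⟨hS1, hS2⟩ := mem_powersetCard.1 hS
        have hdJ : Disjoint J S :=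
          disjoint_of_subset_right hS1 (subset_sdiff.1 hJR).2
        have h5 : J ∪ S ∈ Blk n r := by
          refine mem_powersetCard.2 ⟨subset_univ _, ?_⟩
          rw [card_union_of_disjoint hdJ, hS2]
          have := card_le_card (hJR.trans sdiff_subset)
          omega
        rw [hc _ h5 (union_subset_union (hJR.trans sdiff_subset) hS1), mul_zero]
      rw [h2, mul_zero]
    unfold etaS
    rw [h1]
    simp

end Pool.Agent.MP4a7415
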