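import Pool.Agent.Lib.MP_4a7415_co.Dual
import Pool.Agent.Lib.MP_4a7415_coI.DZ

/-! # Integral solutions: basic definitions -/

namespace Pool.Agent.MP4a7415

open Finset

/-- The vectors with integral sums over all blocks. -/
def Lst (n q r : ℕ) (y : Finset (Fin n) → ℝ) : Prop :=
  ∀ e ∈ Blk n q, ∃ k : ℤ, ev r y e = k

/-- Vectors that are shortest modulo `Lst`. -/
def Min (n q r : ℕ) (y : Finset (Fin n) → ℝ) : Prop :=
  (∀ R ∈ Blk n r, |y R| ≤ 1 / 2) ∧ ∀ y0 : Finset (Fin n) → ℝ, Lst n q r y0 →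
    ∑ R ∈ Blk n r, y R ^ 2 ≤ ∑ R ∈ Blk n r, (y R - y0 R) ^ 2

/-- The coordinates of absolute value at least `t`. -/
noncomputable def lev (n r : ℕ) (y : Finset (Fin n) → ℝ) (t : ℝ) : Finset (Finset (Fin n)) :=
  (Blk n r).filter fun R => t ≤ |y R|

/-- Cut off below `t`. -/
noncomputable def cutb (n r : ℕ) (y : Finset (Fin n) → ℝ) (t : ℝ) (R : Finset (Fin n)) : ℝ := by
  classical
  exact if R ∈ lev n r y t then y R else 0

/-- The blocks whose sum is far from the integers. -/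
noncomputable def dheavy (n q r : ℕ) (z : Finset (Fin n) → ℝ) (τ : ℝ) : Finset (Finset (Fin n)) :=
  (Blk n q).filter fun e => τ ≤ dZ (ev r z e)

/-- An integral formal point of degree `q` supported on `W`. -/
structure FP (n q : ℕ) (W : Finset (Fin n)) (c : Finset (Fin n) → ℤ) : Prop where
  one : c ∅ = 1
  sum : ∀ S ⊆ W, ∀ m, S.card ≤ m → m ≤ q →
    ∑ S' ∈ (powersetCard m W).filter (fun S' => S ⊆ S'), c S' = (m.choose S.card : ℤ) * c S

/-- The denominator attached to a set with `i` elements. -/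
def bb (q r i : ℕ) : ℕ := (q - i).choose (r - i)

/-- The common denominator. -/
def Qc (q r : ℕ) : ℕ := ∏ i ∈ range (r + 1), bb q r i

theorem bb_pos {q r i : ℕ} (hqr : r ≤ q) : 0 < bb q r i := Nat.choose_pos (by omega)

theorem Qc_pos {q r : ℕ} (hqr : r ≤ q) : 0 < Qc q r := prod_pos fun _ _ => bb_pos hqr

/-- The partial decoding `h`. -/
noncomputable def hh {n : ℕ} (r : ℕ) (W : Finset (Fin n)) (c : Finset (Fin n) → ℤ)
    (y : Finset (Fin n) → ℝ) (T : Finset (Fin n)) : ℝ :=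
  ∑ S ∈ powersetCard (r - T.card) W, (c S : ℝ) * y (T ∪ S)

/-- The block decoding `H`. -/
noncomputable def HH {n : ℕ} (q r : ℕ) (W : Finset (Fin n)) (c : Finset (Fin n) → ℤ)
    (y : Finset (Fin n) → ℝ) (T : Finset (Fin n)) : ℝ :=
  ∑ S ∈ powersetCard (q - T.card) W, (c S : ℝ) * ev r y (T ∪ S)

/-- The Moebius transform. -/
noncomputable def mob {n : ℕ} (h : Finset (Fin n) → ℝ) (T : Finset (Fin n)) : ℝ :=
  ∑ T' ∈ T.powerset, (-1 : ℝ) ^ (T.card - T'.card) * h T'

end Pool.Agent.MP4a7415
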