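import Pool.Agent.Lib.MP_4a7415_coI.Defs

/-! # Bounded denominators and shortest vectors (row F) -/

namespace Pool.Agent.MP4a7415

open Finset

/-- The value at `R` from the sums over the sets `W ∪ J`. -/
theorem eq_sum_ev {α : Type*} [DecidableEq α] (r : ℕ) (y : Finset α → ℝ) {R W : Finset α}
    (hd : Disjoint R W) (hR : R.card = r) :
    y R = ∑ J ∈ R.powerset, (-1 : ℝ) ^ (R.card - J.card) * ev r y (W ∪ J) := by
  have h := mobius (fun T => if T.card = r then y T else 0) R W hd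
  have h1 : ∑ T ∈ (W ∪ R).powerset, (if R ⊆ T then (if T.card = r then y T else 0) else 0) =
      y R := by
    rw [sum_eq_single R]
    · rw [if_pos subset_rfl, if_pos hR]
    · intro T _ hT
      by_cases h1 : R ⊆ T
      · rw [if_pos h1]
        by_cases h2 : T.card = r
        · exact absurd (eq_of_subset_of_card_le h1 (by omega)).symm hT
        · rw [if_neg h2]
      · rw [if_neg h1]
    · intro h1
      exact absurd (mem_powerset.2 subset_union_right) h1
  rw [h1] at h
  rw [← h]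
  refine sum_congr rfl fun J _ => ?_
  rw [ev_eq]

theorem int_sum {ι : Type*} (s : Finset ι) (f : ι → ℝ) (h : ∀ i ∈ s, ∃ k : ℤ, f i = k) :
    ∃ k : ℤ, ∑ i ∈ s, f i = k := by
  classical
  induction s using Finset.induction_on with
  | empty => exact ⟨0, by simp⟩
  | insert a s ha ih =>
    obtain ⟨k1, h1⟩ := h a (mem_insert_self a s)
    obtain ⟨k2, h2⟩ := ih fun i hi => h i (mem_insert_of_mem hi)
    exact ⟨k1 + k2, by rw [sum_insert ha, h1, h2]; push_cast; rfl⟩

/-- Vectors that are integral on all blocks have bounded denominators. -/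
theorem Lst_denom {q r : ℕ} (hqr : r ≤ q) : ∃ Q : ℕ, 0 < Q ∧ ∀ n, q + r ≤ n →
    ∀ y : Finset (Fin n) → ℝ, Lst n q r y → ∀ R ∈ Blk n r, ∃ k : ℤ, (Q : ℝ) * y R = k := by
  refine ⟨∏ j ∈ range (r + 1), (q + j - r).choose (q - r),
    prod_pos fun j _ => Nat.choose_pos (by omega), fun n hn y hy R hR => ?_⟩
  have hR' : R.card = r := (mem_powersetCard.1 hR).2
  obtain ⟨W, hW1, hW2⟩ : ∃ W ⊆ Rᶜ, W.card = q := by
    apply exists_subset_card_eq
    rw [card_compl, Fintype.card_fin, hR']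
    omega
  have hd : Disjoint R W := by
    rw [disjoint_left]
    intro x hx hxW
    exact (mem_compl.1 (hW1 hxW)) hx
  rw [eq_sum_ev r y hd hR', mul_sum]
  refine int_sum _ _ fun J hJ => ?_
  rw [mem_powerset] at hJ
  have hdJ : Disjoint W J := (disjoint_of_subset_left hJ hd).symm
  have hcJ : J.card ≤ r := hR' ▸ card_le_card hJ
  have hc1 : (W ∪ J).card = q + J.card := by rw [card_union_of_disjoint hdJ, hW2]
  have h1 := sum_ev hqr y (W ∪ J)
  rw [hc1] at h1
  obtain ⟨k1, hk1⟩ := int_sum (powersetCard q (W ∪ J)) (fun e => ev r y e) fun e he =>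
    hy e (mem_powersetCard.2 ⟨subset_univ _, (mem_powersetCard.1 he).2⟩)
  rw [hk1] at h1
  obtain ⟨c, hc⟩ : (q + J.card - r).choose (q - r) ∣
      ∏ j ∈ range (r + 1), (q + j - r).choose (q - r) :=
    dvd_prod_of_mem (fun j => (q + j - r).choose (q - r)) (mem_range.2 (by omega))
  refine ⟨(-1) ^ (R.card - J.card) * (c * k1), ?_⟩
  rw [hc]
  push_cast
  rw [h1]
  ring

theorem Lst_of_int {n q r : ℕ} (y : Finset (Fin n) → ℝ) (h : ∀ R ∈ Blk n r, ∃ k : ℤ, y R = k) :
    Lst n q r y := fun _ _ =>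
  int_sum _ _ fun R hR => h R (mem_powersetCard.2 ⟨subset_univ _, (mem_powersetCard.1 hR).2⟩)

theorem Lst_add {n q r : ℕ} {y z w : Finset (Fin n) → ℝ} (hy : Lst n q r y) (hz : Lst n q r z)
    (hw : ∀ R ∈ Blk n r, w R = y R + z R) : Lst n q r w := by
  intro e he
  obtain ⟨k1, h1⟩ := hy e he
  obtain ⟨k2, h2⟩ := hz e he
  refine ⟨k1 + k2, ?_⟩
  push_cast
  rw [← h1, ← h2]
  unfold ev
  rw [← sum_add_distrib]
  exact sum_congr rfl fun R hR =>
    hw R (mem_powersetCard.2 ⟨subset_univ _, (mem_powersetCard.1 hR).2⟩)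

/-- Every coset contains a shortest vector. -/
theorem exists_Min {n q r : ℕ} (hqr : r ≤ q) (hn : q + r ≤ n) (y : Finset (Fin n) → ℝ) :
    ∃ y0 : Finset (Fin n) → ℝ, Lst n q r y0 ∧ Min n q r (fun R => y R - y0 R) := by
  classical
  obtain ⟨Q, hQ, hden⟩ := Lst_denom hqr
  have hQ' : (0 : ℝ) < Q := by exact_mod_cast hQ
  let C : Set (Finset (Fin n) → ℝ) := {y0 | Lst n q r y0 ∧ (∀ R ∉ Blk n r, y0 R = 0) ∧
    ∀ R ∈ Blk n r, |y R - y0 R| ≤ 1 / 2}
  have hfin : C.Finite := by
    let V : Finset (Fin n) → Set ℝ := fun R =>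
      insert 0 ((fun k : ℤ => (k : ℝ) / Q) '' Set.Icc ⌊(Q : ℝ) * (y R - 1)⌋ ⌈(Q : ℝ) * (y R + 1)⌉)
    have hV : (Set.pi Set.univ V).Finite :=
      Set.Finite.pi fun R => ((Set.finite_Icc _ _).image _).insert 0
    refine hV.subset fun y0 hy0 R _ => ?_
    obtain ⟨h1, h2, h3⟩ := hy0
    by_cases hR : R ∈ Blk n r
    · obtain ⟨k, hk⟩ := hden n hn y0 h1 R hR
      have h4 := abs_le.1 (h3 R hR)
      refine Or.inr ⟨k, ⟨?_, ?_⟩, ?_⟩
      · have : (⌊(Q : ℝ) * (y R - 1)⌋ : ℝ) ≤ k := by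
          refine (Int.floor_le _).trans ?_
          rw [← hk]
          exact mul_le_mul_of_nonneg_left (by linarith) hQ'.le
        exact_mod_cast this
      · have : (k : ℝ) ≤ ⌈(Q : ℝ) * (y R + 1)⌉ := by
          refine le_trans ?_ (Int.le_ceil _)
          rw [← hk]
          exact mul_le_mul_of_nonneg_left (by linarith) hQ'.le
        exact_mod_cast this
      · show (k : ℝ) / Q = y0 R
        rw [← hk]
        field_simp
    · exact Or.inl (h2 R hR)
  have hne : C.Nonempty := by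
    refine ⟨fun R => if R ∈ Blk n r then (round (y R) : ℝ) else 0, ?_, ?_, ?_⟩
    · exact Lst_of_int _ fun R hR => ⟨round (y R), by simp only [if_pos hR]⟩
    · intro R hR
      simp only [if_neg hR]
    · intro R hR
      simp only [if_pos hR]
      exact abs_sub_round _
  obtain ⟨y0, hy0, hmin⟩ := Set.exists_min_image C
    (fun y0 => ∑ R ∈ Blk n r, (y R - y0 R) ^ 2) hfin hne
  refine ⟨y0, hy0.1, fun R hR => hy0.2.2 R hR, fun y1 hy1 => ?_⟩
  let z : Finset (Fin n) → ℝ := fun R => y R - y0 R - y1 R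
  let y2 : Finset (Fin n) → ℝ := fun R =>
    if R ∈ Blk n r then y0 R + (y1 R + (round (z R) : ℝ)) else 0
  have h2 : y2 ∈ C := by
    refine ⟨?_, ?_, ?_⟩
    · refine Lst_add (z := fun R => y1 R + (round (z R) : ℝ)) hy0.1
        (Lst_add (z := fun R => (round (z R) : ℝ)) hy1 ?_ fun R _ => rfl) fun R hR => ?_
      · exact Lst_of_int _ fun R _ => ⟨round (z R), rfl⟩
      · simp only [y2, if_pos hR]
    · intro R hR
      simp only [y2, if_neg hR]
    · intro R hR
      simp only [y2, if_pos hR]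
      have e : y R - (y0 R + (y1 R + (round (z R) : ℝ))) = z R - round (z R) := by
        simp only [z]
        ring
      rw [e]
      exact abs_sub_round _
  refine (hmin y2 h2).trans (sum_le_sum fun R hR => ?_)
  simp only [y2, if_pos hR]
  have e : y R - (y0 R + (y1 R + (round (z R) : ℝ))) = z R - round (z R) := by
    simp only [z]
    ring
  rw [e]
  have h3 := round_le (z R) 0
  rw [Int.cast_zero, sub_zero] at h3
  exact sq_le_sq.2 h3

end Pool.Agent.MP4a7415
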