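import Pool.Agent.Lib.MP_4a7415_co.One

/-! # The first two good events -/

namespace Pool.Agent.MP4a7415

open Finset Filter

theorem good12_prob {q r : ℕ} (hr : 1 ≤ r) (hqr : r < q) {δ : ℝ} (hδ0 : 0 < δ) (hδ1 : δ ≤ 2) :
    ∃ C : ℝ, 0 < C ∧ ∀ᶠ n : ℕ in atTop, ∀ p : ℝ, p ≤ 1 →
      C * (Real.log n / (n : ℝ) ^ (q - r)) ≤ p →
      PrE (Blk n q) p {G | ¬ (Good1 n q r (2 * cL q r) p G ∧ Good2 n q r p δ G)} ≤ 3 / n := by
  have hc0 : (0 : ℝ) < c0 q r := by exact_mod_cast c0_pos hqr.le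
  have hB : (0 : ℝ) < cB q r := by exact_mod_cast cB_pos q r
  -- the constants
  obtain ⟨K, hK⟩ : ∃ K : ℕ, K = 2 * cL q r := ⟨_, rfl⟩
  obtain ⟨C1, hC1⟩ : ∃ C1 : ℝ, C1 = 16 * c0 q r * (3 * q * K + q + 1) + 4 * (r + 1) / δ ^ 2 :=
    ⟨_, rfl⟩
  have hC10 : 0 < C1 := by
    rw [hC1]
    positivity
  refine ⟨C1 * (2 ^ (q - r) * (q - r).factorial), by positivity, ?_⟩
  filter_upwards [eventually_ge_atTop (2 * q)] with n hn p h1 hp
  have hn2 : 2 ≤ n := by omega
  have hn0 : (0 : ℝ) < n := by exact_mod_cast (by omega : 0 < n)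
  have hn1 : (1 : ℝ) ≤ n := by exact_mod_cast (by omega : 1 ≤ n)
  have hl0 : 0 < Real.log n := Real.log_pos (by exact_mod_cast hn2)
  have hp0 : 0 < p := lt_of_lt_of_le (by positivity) hp
  obtain ⟨D, hD⟩ : ∃ D, D = p * ((n - r).choose (q - r) : ℝ) := ⟨_, rfl⟩
  -- the mean degree
  have hDC : C1 * Real.log n ≤ D := by
    have h2 := Nat.pow_le_choose (α := ℝ) (q - r) (n - r)
    have h3 : ((n : ℝ) / 2) ^ (q - r) ≤ (((n - r + 1 - (q - r) : ℕ) : ℝ)) ^ (q - r) := by
      refine pow_le_pow_left₀ (by positivity) ?_ _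
      have : n ≤ 2 * (n - r + 1 - (q - r)) := by omega
      have : (n : ℝ) ≤ 2 * ((n - r + 1 - (q - r) : ℕ) : ℝ) := by exact_mod_cast this
      linarith
    have hf : (0 : ℝ) < (q - r).factorial := by exact_mod_cast Nat.factorial_pos _
    have h4 : ((n : ℝ) / 2) ^ (q - r) / (q - r).factorial ≤ (n - r).choose (q - r) :=
      (div_le_div_of_nonneg_right h3 hf.le).trans h2
    rw [hD]
    have h5 := mul_le_mul hp h4 (by positivity) hp0.le
    refine le_trans (le_of_eq ?_) h5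
    rw [div_pow]
    field_simp
  have hlow : (16 * c0 q r * (3 * q * K + q + 1)) * Real.log n ≤ D ∧
      (4 * (r + 1) / δ ^ 2) * Real.log n ≤ D := by
    rw [hC1, add_mul] at hDC
    have e1 : 0 ≤ (16 * c0 q r * (3 * q * K + q + 1)) * Real.log n := by positivity
    have e2 : 0 ≤ (4 * (r + 1) / δ ^ 2) * Real.log n := by positivity
    constructor <;> linarith
  -- first event
  have hch : (n.choose r : ℝ) ≤ (n : ℝ) ^ r := by
    exact_mod_cast Nat.choose_le_pow n r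
  have g1 : PrE (Blk n q) p {G | ¬ Good1 n q r K p G} ≤ 1 / n := by
    have hρ1 : 1 / (n : ℝ) ^ (q + 1) ≤ 1 := by
      rw [div_le_one (by positivity)]
      exact one_le_pow₀ hn1
    refine (good1_prob hqr.le hp0.le h1 (ρ := 1 / (n : ℝ) ^ (q + 1)) ?_ hρ1).trans ?_
    · rw [← hD]
      have e1 : ((n.choose r + 1 : ℕ) : ℝ) ≤ (n : ℝ) ^ q := by
        exact_mod_cast choose_succ_le (by omega) hqr.le hn2
      have e2 : ((n.choose q + 1 : ℕ) : ℝ) ≤ (n : ℝ) ^ q := by
        exact_mod_cast choose_succ_le (by omega) le_rfl hn2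
      have e3 : (((n.choose r + 1 : ℕ) : ℝ) * ((n.choose q + 1 : ℕ) : ℝ) ^ 2) ^ K ≤
          ((n : ℝ) ^ q * ((n : ℝ) ^ q) ^ 2) ^ K := by
        refine pow_le_pow_left₀ (by positivity) ?_ _
        exact mul_le_mul e1 (pow_le_pow_left₀ (by positivity) e2 2) (by positivity)
          (by positivity)
      have e4 : ((n : ℝ) ^ q * ((n : ℝ) ^ q) ^ 2) ^ K = Real.exp ((3 * q * K : ℕ) * Real.log n) := by
        rw [← Real.log_pow, Real.exp_log (by positivity)]
        ring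
      rw [e4] at e3
      refine (mul_le_mul_of_nonneg_right e3 (Real.exp_pos _).le).trans ?_
      rw [← Real.exp_add, ← exp_neg_mul_log (by omega) (q + 1), Real.exp_le_exp]
      have e5 : (3 * q * K + q + 1) * Real.log n ≤ D / (16 * c0 q r) := by
        rw [le_div_iff₀ (by positivity)]
        linarith [hlow.1]
      push_cast
      linarith
    · have e6 : (n.choose r : ℝ) * (1 / (n : ℝ) ^ (q + 1)) ≤
          (n : ℝ) ^ r * (1 / (n : ℝ) ^ (q + 1)) :=
        mul_le_mul_of_nonneg_right hch (by positivity)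
      refine e6.trans ?_
      have e7 : (n : ℝ) ^ (r + 1) ≤ (n : ℝ) ^ (q + 1) := pow_le_pow_right₀ hn1 (by omega)
      rw [mul_one_div, div_le_div_iff₀ (by positivity) hn0, one_mul, ← pow_succ]
      exact e7
  -- second event
  have g2 : PrE (Blk n q) p {G | ¬ Good2 n q r p δ G} ≤ 2 / n := by
    refine (good2_prob hqr.le hp0.le h1 hδ0.le hδ1).trans ?_
    rw [← hD]
    have e1 : Real.exp (-(δ ^ 2 / 4 * D)) ≤ 1 / (n : ℝ) ^ (r + 1) := by
      rw [← exp_neg_mul_log (by omega) (r + 1), Real.exp_le_exp, neg_le_neg_iff]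
      have e2 := mul_le_mul_of_nonneg_left hlow.2 (show 0 ≤ δ ^ 2 / 4 by positivity)
      refine le_trans (le_of_eq ?_) e2
      push_cast
      field_simp
    have e3 : (n.choose r : ℝ) * (2 * Real.exp (-(δ ^ 2 / 4 * D))) ≤
        (n : ℝ) ^ r * (2 * (1 / (n : ℝ) ^ (r + 1))) :=
      mul_le_mul hch (by linarith) (by positivity) (by positivity)
    refine e3.trans (le_of_eq ?_)
    rw [pow_succ]
    field_simp
  refine (PrE_mono hp0.le h1 (B := {G | ¬ Good1 n q r K p G} ∪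
      {G | ¬ Good2 n q r p δ G}) ?_).trans ((PrE_union hp0.le h1 _ _).trans ?_)
  · intro G _ hG
    by_contra hc
    rw [Set.mem_union, not_or] at hc
    refine hG ⟨?_, not_not.1 hc.2⟩
    rw [← hK]
    exact not_not.1 hc.1
  · have : (3 : ℝ) / n = 1 / n + 2 / n := by ring
    linarith

end Pool.Agent.MP4a7415
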