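import Pool.Agent.Lib.MP_4a7415_coI.Defs

/-! # Step 2: the decoding identities (row B) -/

namespace Pool.Agent.MP4a7415

open Finset

/-! ### Moebius inversion -/

theorem mob_congr {n : ℕ} {h h' : Finset (Fin n) → ℝ} {T : Finset (Fin n)}
    (H : ∀ J ⊆ T, h J = h' J) : mob h T = mob h' T := by
  unfold mob
  exact sum_congr rfl fun J hJ => by rw [H J (mem_powerset.1 hJ)]

theorem mob_insert {n : ℕ} (h : Finset (Fin n) → ℝ) {a : Fin n} {T : Finset (Fin n)}
    (ha : a ∉ T) : mob h (insert a T) = mob (fun J => h (insert a J)) T - mob h T := by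
  unfold mob
  rw [sum_powerset_insert ha, sub_eq_add_neg, add_comm, ← sum_neg_distrib]
  congr 1
  · refine sum_congr rfl fun J hJ => ?_
    have hJ' : J ⊆ T := mem_powerset.1 hJ
    rw [card_insert_of_notMem ha, card_insert_of_notMem fun h => ha (hJ' h),
      Nat.add_sub_add_right]
  · refine sum_congr rfl fun J hJ => ?_
    have hc : J.card ≤ T.card := card_le_card (mem_powerset.1 hJ)
    rw [card_insert_of_notMem ha, Nat.succ_sub hc, pow_succ]
    ring

theorem sum_mob {n : ℕ} (R : Finset (Fin n)) : ∀ h : Finset (Fin n) → ℝ,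
    ∑ T ∈ R.powerset, mob h T = h R := by
  induction R using Finset.induction_on with
  | empty =>
    intro h
    simp [mob]
  | insert a R ha ih =>
    intro h
    rw [sum_powerset_insert ha, ← sum_add_distrib, ← ih (fun J => h (insert a J))]
    refine sum_congr rfl fun T hT => ?_
    rw [mob_insert h fun h' => ha (mem_powerset.1 hT h')]
    ring

theorem mob_sum {n : ℕ} (T : Finset (Fin n)) : ∀ g : Finset (Fin n) → ℝ,
    mob (fun J => ∑ K ∈ J.powerset, g K) T = g T := by
  induction T using Finset.induction_on with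
  | empty =>
    intro g
    simp [mob]
  | insert a T ha ih =>
    intro g
    rw [mob_insert _ ha, ih g]
    have h1 : mob (fun J => ∑ K ∈ (insert a J).powerset, g K) T =
        mob (fun J => ∑ K ∈ J.powerset, (g K + g (insert a K))) T := by
      refine mob_congr fun J hJ => ?_
      rw [sum_powerset_insert fun h => ha (hJ h), sum_add_distrib]
    rw [h1, ih fun K => g K + g (insert a K)]
    ring

/-- Moebius inversion: `y R` is the sum of the transforms of `h` over the subsets of `R`. -/
theorem sum_mob_hh {n r : ℕ} {W : Finset (Fin n)} {c : Finset (Fin n) → ℤ} (hc : c ∅ = 1)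
    (y : Finset (Fin n) → ℝ) {R : Finset (Fin n)} (hR : R.card = r) :
    ∑ T ∈ R.powerset, mob (hh r W c y) T = y R := by
  rw [sum_mob]
  unfold hh
  rw [hR, Nat.sub_self, powersetCard_zero, sum_singleton, hc]
  simp

/-! ### The block decoding -/

theorem ev_insert {n : ℕ} {a : Fin n} {S : Finset (Fin n)} (ha : a ∉ S) (r : ℕ)
    (y : Finset (Fin n) → ℝ) :
    ev (r + 1) y (insert a S) = ev (r + 1) y S + ev r (fun R => y (insert a R)) S := by
  unfold ev
  rw [powersetCard_succ_insert ha, sum_union, sum_image]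
  · intro A hA B hB hAB
    have hA' : a ∉ A := fun h => ha ((mem_powersetCard.1 hA).1 h)
    have hB' : a ∉ B := fun h => ha ((mem_powersetCard.1 hB).1 h)
    rw [← erase_insert hA', ← erase_insert hB', hAB]
  · rw [disjoint_left]
    intro A hA hA'
    obtain ⟨B, _, rfl⟩ := mem_image.1 hA'
    exact ha ((mem_powersetCard.1 hA).1 (mem_insert_self a B))

theorem ev_union {n : ℕ} (A : Finset (Fin n)) : ∀ (r : ℕ) (y : Finset (Fin n) → ℝ)
    (B : Finset (Fin n)), Disjoint A B → A.card ≤ r →
      ev r y (A ∪ B) = ∑ R ∈ A.powerset, ∑ S ∈ powersetCard (r - R.card) B, y (R ∪ S) := by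
  induction A using Finset.induction_on with
  | empty =>
    intro r y B _ _
    simp [ev]
  | insert a A ha ih =>
    intro r y B hd hr
    rw [card_insert_of_notMem ha] at hr
    obtain ⟨r, rfl⟩ : ∃ s, r = s + 1 := ⟨r - 1, by omega⟩
    have hd' := disjoint_insert_left.1 hd
    have hab : a ∉ A ∪ B := by
      rw [mem_union]
      exact fun h => h.elim ha hd'.1
    rw [insert_union, ev_insert hab, ih (r + 1) y B hd'.2 (by omega),
      ih r _ B hd'.2 (by omega), sum_powerset_insert ha]
    congr 1
    refine sum_congr rfl fun R hR => ?_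
    rw [card_insert_of_notMem fun h => ha (mem_powerset.1 hR h), Nat.add_sub_add_right]
    refine sum_congr rfl fun S _ => ?_
    rw [insert_union]

theorem choose_sum {n : ℕ} (R : Finset (Fin n)) : ∀ (g : Finset (Fin n) → ℝ) (m k : ℕ),
    R.card ≤ k → ∑ A ∈ R.powerset, (m.choose (k - A.card) : ℝ) * ∑ K ∈ A.powerset, g K =
      ∑ K ∈ R.powerset, ((m + R.card - K.card).choose (k - K.card) : ℝ) * g K := by
  induction R using Finset.induction_on with
  | empty =>
    intro g m k _
    simp
  | insert a R ha ih =>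
    intro g m k hk
    rw [card_insert_of_notMem ha] at hk
    rw [sum_powerset_insert ha, sum_powerset_insert ha]
    have h1 := ih g (m + 1) k (by omega)
    have h2 := ih (fun K => g (insert a K)) m (k - 1) (by omega)
    have e1 : ∑ K ∈ R.powerset, ((m + (insert a R).card - K.card).choose (k - K.card) : ℝ) * g K =
        ∑ K ∈ R.powerset, ((m + 1 + R.card - K.card).choose (k - K.card) : ℝ) * g K := by
      refine sum_congr rfl fun K _ => ?_
      rw [card_insert_of_notMem ha, show m + (R.card + 1) = m + 1 + R.card by omega]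
    have e2 : ∑ K ∈ R.powerset, ((m + (insert a R).card - (insert a K).card).choose
        (k - (insert a K).card) : ℝ) * g (insert a K) =
        ∑ K ∈ R.powerset, ((m + R.card - K.card).choose (k - 1 - K.card) : ℝ) *
          g (insert a K) := by
      refine sum_congr rfl fun K hK => ?_
      rw [card_insert_of_notMem ha, card_insert_of_notMem fun h => ha (mem_powerset.1 hK h),
        show m + (R.card + 1) - (K.card + 1) = m + R.card - K.card by omega,
        show k - (K.card + 1) = k - 1 - K.card by omega]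
    rw [e1, e2, ← h1, ← h2, ← sum_add_distrib, ← sum_add_distrib]
    refine sum_congr rfl fun A hA => ?_
    have hc : A.card ≤ R.card := card_le_card (mem_powerset.1 hA)
    have haA : a ∉ A := fun h => ha (mem_powerset.1 hA h)
    rw [sum_powerset_insert haA, card_insert_of_notMem haA]
    obtain ⟨s, hs⟩ : ∃ s, k - A.card = s + 1 := ⟨k - A.card - 1, by omega⟩
    rw [hs, show k - (A.card + 1) = s by omega, show k - 1 - A.card = s by omega,
      Nat.choose_succ_succ]
    push_cast
    ring

theorem HH_eq {n q r : ℕ} {W : Finset (Fin n)} {c : Finset (Fin n) → ℤ}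
    (hW : FP n q W c) (y : Finset (Fin n) → ℝ) {T : Finset (Fin n)} (hT : T.card ≤ r)
    (hd : Disjoint T W) :
    HH q r W c y T =
      ∑ R ∈ T.powerset, ((q - T.card).choose (r - R.card) : ℝ) * hh r W c y R := by
  classical
  unfold HH
  have h1 : ∀ S ∈ powersetCard (q - T.card) W, (c S : ℝ) * ev r y (T ∪ S) =
      ∑ R ∈ T.powerset, ∑ S' ∈ powersetCard (r - R.card) S, (c S : ℝ) * y (R ∪ S') := by
    intro S hS
    rw [ev_union T r y S (disjoint_of_subset_right (mem_powersetCard.1 hS).1 hd) hT, mul_sum]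
    exact sum_congr rfl fun R _ => mul_sum _ _ _
  rw [sum_congr rfl h1, sum_comm]
  refine sum_congr rfl fun R _ => ?_
  have h2 : ∑ S ∈ powersetCard (q - T.card) W, ∑ S' ∈ powersetCard (r - R.card) S,
      (c S : ℝ) * y (R ∪ S') =
      ∑ S' ∈ powersetCard (r - R.card) W,
        ∑ S ∈ (powersetCard (q - T.card) W).filter (fun S => S' ⊆ S),
          (c S : ℝ) * y (R ∪ S') := by
    refine sum_comm' fun S S' => ?_
    rw [mem_powersetCard, mem_powersetCard, mem_filter, mem_powersetCard, mem_powersetCard]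
    constructor
    · rintro ⟨⟨h3, h4⟩, h5, h6⟩
      exact ⟨⟨⟨h3, h4⟩, h5⟩, h5.trans h3, h6⟩
    · rintro ⟨⟨⟨h3, h4⟩, h5⟩, _, h6⟩
      exact ⟨⟨h3, h4⟩, h5, h6⟩
  rw [h2]
  unfold hh
  rw [mul_sum]
  refine sum_congr rfl fun S' hS' => ?_
  obtain ⟨hS1, hS2⟩ := mem_powersetCard.1 hS'
  rw [← sum_mul]
  have h3 : ∑ S ∈ (powersetCard (q - T.card) W).filter (fun S => S' ⊆ S), (c S : ℝ) =
      ((q - T.card).choose S'.card : ℝ) * c S' := by
    by_cases hm : S'.card ≤ q - T.card
    · have h4 := hW.sum S' hS1 (q - T.card) hm (Nat.sub_le _ _)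
      have h5 := congrArg (fun z : ℤ => (z : ℝ)) h4
      push_cast at h5
      exact h5
    · rw [Nat.choose_eq_zero_of_lt (by omega), Nat.cast_zero, zero_mul]
      refine sum_eq_zero fun S hS => ?_
      obtain ⟨h4, h5⟩ := mem_filter.1 hS
      have h6 := card_le_card h5
      rw [(mem_powersetCard.1 h4).2] at h6
      exact absurd h6 hm
  rw [h3, hS2]
  ring

/-- The transform of `H` is `C(q - |T|, r - |T|)` times the transform of `h`. -/
theorem mob_HH {n q r : ℕ} (hqr : r ≤ q) {W : Finset (Fin n)} {c : Finset (Fin n) → ℤ}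
    (hW : FP n q W c) (y : Finset (Fin n) → ℝ) {T : Finset (Fin n)} (hT : T.card ≤ r)
    (hd : Disjoint T W) :
    mob (HH q r W c y) T = (bb q r T.card : ℝ) * mob (hh r W c y) T := by
  have h1 : ∀ J ⊆ T, HH q r W c y J =
      ∑ K ∈ J.powerset, (bb q r K.card : ℝ) * mob (hh r W c y) K := by
    intro J hJ
    have hc : J.card ≤ T.card := card_le_card hJ
    rw [HH_eq hW y (hc.trans hT) (disjoint_of_subset_left hJ hd)]
    have h2 : ∀ R ∈ J.powerset, ((q - J.card).choose (r - R.card) : ℝ) * hh r W c y R =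
        ((q - J.card).choose (r - R.card) : ℝ) * ∑ K ∈ R.powerset, mob (hh r W c y) K := by
      intro R _
      rw [sum_mob]
    rw [sum_congr rfl h2, choose_sum J _ _ r (hc.trans hT)]
    refine sum_congr rfl fun K _ => ?_
    rw [bb, Nat.sub_add_cancel (by omega : J.card ≤ q)]
  rw [mob_congr h1, mob_sum]

end Pool.Agent.MP4a7415
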