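import Pool.Agent.Lib.MP_4a7415_coI.FormalPoint
import Pool.Agent.Lib.MP_4a7415_coI.Ident

/-! # Step 6: the divisibility conditions (row I) -/

namespace Pool.Agent.MP4a7415

open Finset Filter

/-- The subring of the integers in the reals. -/
private noncomputable abbrev ZR : Subring ℝ := (Int.castRingHom ℝ).range

private theorem mem_ZR {x : ℝ} : x ∈ ZR ↔ ∃ k : ℤ, x = k := by
  constructor
  · rintro ⟨k, rfl⟩
    exact ⟨k, rfl⟩
  · rintro ⟨k, rfl⟩
    exact ⟨k, rfl⟩

private theorem nat_ZR (k : ℕ) : (k : ℝ) ∈ ZR := ⟨k, by simp⟩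

private theorem int_ZR (k : ℤ) : (k : ℝ) ∈ ZR := ⟨k, rfl⟩

/-- The sum over the subsets. -/
private noncomputable def sm {n : ℕ} (η : Finset (Fin n) → ℝ) (R : Finset (Fin n)) : ℝ :=
  ∑ T ∈ R.powerset, η T

/-- The admissible corrections. -/
private def adm {n : ℕ} (q r : ℕ) (η : Finset (Fin n) → ℝ) : Prop :=
  ∀ T : Finset (Fin n), T.card ≤ r → (bb q r T.card : ℝ) * η T ∈ ZR

private theorem adm_add {n q r : ℕ} {η θ : Finset (Fin n) → ℝ} (h1 : adm q r η)
    (h2 : adm q r θ) : adm q r (fun T => η T + θ T) := by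
  intro T hT
  rw [mul_add]
  exact add_mem (h1 T hT) (h2 T hT)

private theorem sm_add {n : ℕ} (η θ : Finset (Fin n) → ℝ) (R : Finset (Fin n)) :
    sm (fun T => η T + θ T) R = sm η R + sm θ R := sum_add_distrib

private theorem sum_sm {n r : ℕ} (η : Finset (Fin n) → ℝ) (e : Finset (Fin n)) :
    ∑ R ∈ powersetCard r e, sm η R =
      ∑ T ∈ e.powerset.filter (fun T => T.card ≤ r),
        ((e.card - T.card).choose (r - T.card) : ℝ) * η T := by
  unfold sm
  rw [sum_comm' (t' := e.powerset.filter (fun T => T.card ≤ r))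
    (s' := fun T => (powersetCard r e).filter (fun R => T ⊆ R))]
  · refine sum_congr rfl fun T hT => ?_
    rw [mem_filter, mem_powerset] at hT
    rw [sum_const, card_sup hT.1 hT.2, nsmul_eq_mul]
  · intro R T
    simp only [mem_powersetCard, mem_filter, mem_powerset]
    constructor
    · rintro ⟨h1, h2⟩
      exact ⟨⟨h1, h2⟩, h2.trans h1.1, h1.2 ▸ card_le_card h2⟩
    · rintro ⟨⟨h1, h2⟩, -⟩
      exact ⟨h1, h2⟩

private theorem ev_sm {n q r : ℕ} {η : Finset (Fin n) → ℝ} (h : adm q r η)
    {e : Finset (Fin n)} (he : e.card = q) : ev r (sm η) e ∈ ZR := by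
  unfold ev
  rw [sum_sm]
  refine sum_mem fun T hT => ?_
  rw [mem_filter] at hT
  have := h T hT.2
  unfold bb at this
  rw [he]
  exact this

private theorem ev_sub {n r : ℕ} (y z : Finset (Fin n) → ℝ) (e : Finset (Fin n)) :
    ev r (fun R => y R - z R) e = ev r y e - ev r z e := sum_sub_distrib _ _

/-- The statement proved by induction. -/
private def DD (q r : ℕ) : Prop := ∃ n0 : ℕ, ∀ (n : ℕ) (V : Finset (Fin n)), n0 ≤ V.card →
  ∀ y : Finset (Fin n) → ℝ, (∀ e ⊆ V, e.card = q → ev r y e ∈ ZR) →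
  ∃ η : Finset (Fin n) → ℝ, adm q r η ∧ ∀ R ⊆ V, R.card = r → y R - sm η R ∈ ZR

private theorem DD_zero (q : ℕ) : DD q 0 := by
  refine ⟨q, fun n V hV y hy => ⟨fun _ => 0, fun T _ => ?_, fun R _ hR => ?_⟩⟩
  · rw [mul_zero]
    exact zero_mem _
  · obtain ⟨e, he1, he2⟩ := exists_subset_card_eq hV
    have := hy e he1 he2
    unfold ev at this
    rw [powersetCard_zero, sum_singleton] at this
    rw [card_eq_zero] at hR
    subst hR
    simpa [sm] using this

/-- Adding one vertex. -/
private theorem add_vertex {q r n : ℕ} (hqr : r ≤ q) {U V : Finset (Fin n)} {w : Fin n}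
    (hw : w ∉ U) (hU : insert w U ⊆ V) {y : Finset (Fin n) → ℝ}
    (hDD : ∀ g : Finset (Fin n) → ℝ, (∀ e ⊆ U, e.card = q → ev r g e ∈ ZR) →
      ∃ η : Finset (Fin n) → ℝ, adm q r η ∧ ∀ R ⊆ U, R.card = r → g R - sm η R ∈ ZR)
    (hy : ∀ e ⊆ V, e.card = q + 1 → ev (r + 1) y e ∈ ZR)
    (hint : ∀ R ⊆ U, R.card = r + 1 → y R ∈ ZR) :
    ∃ η : Finset (Fin n) → ℝ, adm (q + 1) (r + 1) η ∧
      ∀ R ⊆ insert w U, R.card = r + 1 → y R - sm η R ∈ ZR := by
  classical
  obtain ⟨γ, hγ1, hγ2⟩ := hDD (fun T => y (insert w T)) (by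
    intro e he hec
    have hwe : w ∉ e := fun h => hw (he h)
    have h1 := hy (insert w e) ((insert_subset_insert w he).trans hU)
      (by rw [card_insert_of_notMem hwe, hec])
    unfold ev at h1 ⊢
    rw [powersetCard_succ_insert hwe, sum_union, sum_image] at h1
    · have h2 : ∑ R ∈ powersetCard (r + 1) e, y R ∈ ZR := by
        refine sum_mem fun R hR => ?_
        rw [mem_powersetCard] at hR
        exact hint R (hR.1.trans he) hR.2
      have h3 := sub_mem h1 h2
      rwa [add_sub_cancel_left] at h3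
    · intro a ha b hb hab
      rw [mem_coe, mem_powersetCard] at ha hb
      have ha' : w ∉ a := fun h => hwe (ha.1 h)
      have hb' : w ∉ b := fun h => hwe (hb.1 h)
      have := congrArg (fun s => s.erase w) hab
      simpa [erase_insert ha', erase_insert hb'] using this
    · rw [disjoint_left]
      intro a ha hb
      rw [mem_image] at hb
      obtain ⟨b, -, rfl⟩ := hb
      rw [mem_powersetCard] at ha
      exact hwe (ha.1 (mem_insert_self w b)))
  refine ⟨fun T => if w ∈ T then γ (T.erase w) else 0, ?_, ?_⟩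
  · intro T hT
    by_cases h : w ∈ T
    · simp only [if_pos h]
      have hc := card_erase_add_one h
      have := hγ1 (T.erase w) (by omega)
      have e : bb (q + 1) (r + 1) T.card = bb q r (T.erase w).card := by
        unfold bb
        rw [← hc]
        congr 1 <;> omega
      rw [e]
      exact this
    · simp only [if_neg h, mul_zero]
      exact zero_mem _
  · intro R hR hRc
    by_cases h : w ∈ R
    · have h1 := hγ2 (R.erase w) (by
        intro x hx
        have hx2 := hR (mem_of_mem_erase hx)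
        rw [mem_insert] at hx2
        exact hx2.resolve_left (ne_of_mem_erase hx)) (by rw [card_erase_of_mem h, hRc]; omega)
      simp only [insert_erase h] at h1
      have e : sm (fun T => if w ∈ T then γ (T.erase w) else 0) R = sm γ (R.erase w) := by
        unfold sm
        conv_lhs => rw [← insert_erase h]
        rw [sum_powerset_insert (notMem_erase w R)]
        have e1 : ∑ T ∈ (R.erase w).powerset, (if w ∈ T then γ (T.erase w) else 0) = 0 := by
          refine sum_eq_zero fun T hT => ?_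
          rw [if_neg]
          intro hwT
          exact (notMem_erase w R) (mem_powerset.1 hT hwT)
        rw [e1, zero_add]
        refine sum_congr rfl fun T hT => ?_
        have hwT : w ∉ T := fun hwT => (notMem_erase w R) (mem_powerset.1 hT hwT)
        rw [if_pos (mem_insert_self w T), erase_insert hwT]
      rw [e]
      exact h1
    · have e : sm (fun T => if w ∈ T then γ (T.erase w) else 0) R = 0 := by
        unfold sm
        refine sum_eq_zero fun T hT => ?_
        rw [if_neg]
        intro hwT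
        exact h (mem_powerset.1 hT hwT)
      rw [e, sub_zero]
      refine hint R ?_ hRc
      intro x hx
      have hx2 := hR hx
      rw [mem_insert] at hx2
      refine hx2.resolve_left ?_
      rintro rfl
      exact h hx

/-- Adding several vertices. -/
private theorem add_vertices {q r n n0 : ℕ} (hqr : r ≤ q)
    (hDD : ∀ (V : Finset (Fin n)), n0 ≤ V.card →
      ∀ g : Finset (Fin n) → ℝ, (∀ e ⊆ V, e.card = q → ev r g e ∈ ZR) →
      ∃ η : Finset (Fin n) → ℝ, adm q r η ∧ ∀ R ⊆ V, R.card = r → g R - sm η R ∈ ZR)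
    {U V : Finset (Fin n)} (hU0 : n0 ≤ U.card) (hU : U ⊆ V) (A : Finset (Fin n)) :
    A ⊆ V → ∀ y : Finset (Fin n) → ℝ,
    (∀ e ⊆ V, e.card = q + 1 → ev (r + 1) y e ∈ ZR) →
    (∀ R ⊆ U, R.card = r + 1 → y R ∈ ZR) →
    ∃ η : Finset (Fin n) → ℝ, adm (q + 1) (r + 1) η ∧
      ∀ R ⊆ U ∪ A, R.card = r + 1 → y R - sm η R ∈ ZR := by
  classical
  induction A using Finset.induction_on with
  | empty =>
    intro _ y _ hint
    refine ⟨fun _ => 0, fun T _ => ?_, fun R hR hRc => ?_⟩
    · rw [mul_zero]
      exact zero_mem _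
    · rw [union_empty] at hR
      have e : sm (fun _ => (0 : ℝ)) R = 0 := sum_const_zero
      rw [e, sub_zero]
      exact hint R hR hRc
  | insert w A hwA ih =>
    intro hA y hy hint
    obtain ⟨η, hη1, hη2⟩ := ih ((subset_insert w A).trans hA) y hy hint
    by_cases hw : w ∈ U ∪ A
    · refine ⟨η, hη1, fun R hR hRc => hη2 R ?_ hRc⟩
      rw [union_insert, insert_eq_of_mem hw] at hR
      exact hR
    · obtain ⟨θ, hθ1, hθ2⟩ := add_vertex (q := q) (r := r) hqr hw
        (V := V) (y := fun R => y R - sm η R)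
        (insert_subset_iff.2 ⟨hA (mem_insert_self w A),
          union_subset hU ((subset_insert w A).trans hA)⟩)
        (hDD (U ∪ A) (hU0.trans (card_le_card subset_union_left)))
        (fun e he hec => by
          rw [ev_sub]
          exact sub_mem (hy e he hec) (ev_sm hη1 hec))
        hη2
      refine ⟨fun T => η T + θ T, adm_add hη1 hθ1, fun R hR hRc => ?_⟩
      rw [union_insert] at hR
      have := hθ2 R hR hRc
      rw [sm_add]
      rw [sub_sub] at this
      exact this

private theorem DD_succ {q r : ℕ} (hqr : r ≤ q) (h : DD q r) : DD (q + 1) (r + 1) := by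
  classical
  obtain ⟨n0, h0⟩ := h
  obtain ⟨w, A, hw1, hw2, hFP⟩ := formal_point (q + 1)
  refine ⟨w + n0, fun n V hV y hy => ?_⟩
  obtain ⟨W, hW1, hW2⟩ := exists_subset_card_eq (s := V) (n := w) (by omega)
  obtain ⟨c, hc, -⟩ := hFP n W hW2
  -- the first correction
  let η1 : Finset (Fin n) → ℝ := fun T =>
    if T ⊆ V \ W then mob (hh (r + 1) W c y) T else 0
  have hη1 : adm (q + 1) (r + 1) η1 := by
    intro T hT
    by_cases hTV : T ⊆ V \ W
    · have hd : Disjoint T W := disjoint_of_subset_left hTV sdiff_disjoint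
      simp only [η1, if_pos hTV]
      rw [← mob_HH (by omega) hc y hT hd]
      unfold mob
      refine sum_mem fun T' hT' => mul_mem ?_ ?_
      · refine pow_mem ?_ _
        exact ⟨-1, by simp⟩
      · unfold HH
        rw [mem_powerset] at hT'
        refine sum_mem fun S hS => mul_mem (int_ZR _) ?_
        rw [mem_powersetCard] at hS
        have hd' : Disjoint T' S :=
          disjoint_of_subset_left hT' (disjoint_of_subset_right hS.1 hd)
        have hc' := card_le_card hT'
        refine hy _ (union_subset (hT'.trans (hTV.trans sdiff_subset)) (hS.1.trans hW1)) ?_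
        rw [card_union_of_disjoint hd', hS.2]
        omega
    · simp only [η1, if_neg hTV, mul_zero]
      exact zero_mem _
  have hη1' : ∀ R ⊆ V \ W, R.card = r + 1 → y R - sm η1 R ∈ ZR := by
    intro R hR hRc
    have e : sm η1 R = y R := by
      rw [← sum_mob_hh (W := W) hc.one y hRc]
      unfold sm
      refine sum_congr rfl fun T hT => ?_
      rw [mem_powerset] at hT
      simp only [η1, if_pos (hT.trans hR)]
    rw [e, sub_self]
    exact zero_mem _
  obtain ⟨θ, hθ1, hθ2⟩ := add_vertices (q := q) (r := r) (n0 := n0) hqr (h0 n)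
    (U := V \ W) (V := V) (by rw [card_sdiff_of_subset hW1, hW2]; omega) sdiff_subset W hW1
    (fun R => y R - sm η1 R)
    (fun e he hec => by
      rw [ev_sub]
      exact sub_mem (hy e he hec) (ev_sm hη1 hec))
    hη1'
  refine ⟨fun T => η1 T + θ T, adm_add hη1 hθ1, fun R hR hRc => ?_⟩
  have := hθ2 R (by rwa [sdiff_union_of_subset hW1]) hRc
  rw [sm_add]
  rw [sub_sub] at this
  exact this

private theorem DD_all (r : ℕ) : ∀ q : ℕ, r ≤ q → DD q r := by
  induction r with
  | zero => exact fun q _ => DD_zero q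
  | succ r ih =>
    intro q hq
    obtain ⟨q, rfl⟩ : ∃ k, q = k + 1 := ⟨q - 1, by omega⟩
    exact DD_succ (by omega) (ih q (by omega))

/-- The divisibility conditions, for a general target. -/
theorem phase_gen (q r : ℕ) (hr : 1 ≤ r) (hqr : r < q) : ∀ᶠ n : ℕ in atTop,
    ∀ y : Finset (Fin n) → ℝ, Lst n q r y → ∀ v : Finset (Fin n) → ℤ,
    (∀ T : Finset (Fin n), T.card < r →
      (bb q r T.card : ℤ) ∣ ∑ R ∈ (Blk n r).filter (fun R => T ⊆ R), v R) →
    ∃ k : ℤ, ∑ R ∈ Blk n r, (v R : ℝ) * y R = k := by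
  obtain ⟨n0, h0⟩ := DD_all r q hqr.le
  refine eventually_atTop.2 ⟨n0, fun n hn y hy v hv => ?_⟩
  obtain ⟨η, hη1, hη2⟩ := h0 n univ (by simpa using hn) y (fun e _ hec => by
    have := hy e (by rw [mem_powersetCard]; exact ⟨subset_univ _, hec⟩)
    exact mem_ZR.2 this)
  rw [← mem_ZR]
  have e : ∑ R ∈ Blk n r, (v R : ℝ) * y R =
      ∑ R ∈ Blk n r, (v R : ℝ) * (y R - sm η R) + ∑ R ∈ Blk n r, (v R : ℝ) * sm η R := by
    rw [← sum_add_distrib]
    exact sum_congr rfl fun R _ => by ring
  rw [e]
  refine add_mem (sum_mem fun R hR => mul_mem (int_ZR _) ?_) ?_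
  · rw [mem_powersetCard] at hR
    exact hη2 R hR.1 hR.2
  · have e3 : ∑ R ∈ Blk n r, (v R : ℝ) * sm η R =
        ∑ T : Finset (Fin n), η T * ∑ R ∈ (Blk n r).filter (fun R => T ⊆ R), (v R : ℝ) := by
      unfold sm
      simp_rw [mul_sum, sum_filter]
      rw [sum_comm]
      refine sum_congr rfl fun R _ => ?_
      rw [← sum_filter]
      refine sum_congr ?_ fun T _ => mul_comm _ _
      ext T
      simp
    rw [e3]
    refine sum_mem fun T _ => ?_
    rcases lt_trichotomy T.card r with hlt | heq | hgt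
    · obtain ⟨m, hm⟩ := hv T hlt
      have hT2 := hη1 T hlt.le
      have e2 : η T * ∑ R ∈ (Blk n r).filter (fun R => T ⊆ R), (v R : ℝ) =
          (m : ℝ) * ((bb q r T.card : ℝ) * η T) := by
        have := congrArg (Int.cast (R := ℝ)) hm
        push_cast at this
        rw [this]
        ring
      rw [e2]
      exact mul_mem (int_ZR _) hT2
    · have hT2 := hη1 T heq.le
      rw [heq] at hT2
      unfold bb at hT2
      rw [Nat.sub_self, Nat.choose_zero_right, Nat.cast_one, one_mul] at hT2
      exact mul_mem hT2 (sum_mem fun R _ => int_ZR _)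
    · have : (Blk n r).filter (fun R => T ⊆ R) = ∅ := by
        rw [filter_eq_empty_iff]
        intro R hR hTR
        have h1 := (mem_powersetCard.1 hR).2
        have h2 := card_le_card hTR
        omega
      rw [this, sum_empty, mul_zero]
      exact zero_mem _

theorem phase (q r : ℕ) (hr : 1 ≤ r) (hqr : r < q) : ∀ᶠ n : ℕ in atTop,
    ∀ y : Finset (Fin n) → ℝ, Lst n q r y → ∀ lam : ℕ,
    (∀ i < r, (q - i).choose (r - i) ∣ lam * (n - i).choose (r - i)) →
    ∃ k : ℤ, (lam : ℝ) * ∑ R ∈ Blk n r, y R = k := by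
  obtain ⟨n0, h0⟩ := DD_all r q hqr.le
  refine eventually_atTop.2 ⟨n0, fun n hn y hy lam hlam => ?_⟩
  obtain ⟨η, hη1, hη2⟩ := h0 n univ (by simpa using hn) y (fun e _ hec => by
    have := hy e (by rw [mem_powersetCard]; exact ⟨subset_univ _, hec⟩)
    exact mem_ZR.2 this)
  rw [← mem_ZR]
  have e : (lam : ℝ) * ∑ R ∈ Blk n r, y R =
      (lam : ℝ) * ∑ R ∈ Blk n r, (y R - sm η R) + (lam : ℝ) * ∑ R ∈ Blk n r, sm η R := by
    rw [← mul_add, ← sum_add_distrib]
    simp
  rw [e]
  refine add_mem (mul_mem (nat_ZR _) (sum_mem fun R hR => ?_)) ?_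
  · rw [mem_powersetCard] at hR
    exact hη2 R hR.1 hR.2
  · rw [sum_sm, mul_sum]
    refine sum_mem fun T hT => ?_
    rw [mem_filter] at hT
    have hT2 := hη1 T hT.2
    rw [card_univ, Fintype.card_fin]
    rcases hT.2.lt_or_eq with hlt | heq
    · obtain ⟨m, hm⟩ := hlam T.card hlt
      have e2 : (lam : ℝ) * (((n - T.card).choose (r - T.card) : ℝ) * η T) =
          (m : ℝ) * ((bb q r T.card : ℝ) * η T) := by
        rw [← mul_assoc, ← mul_assoc]
        congr 1
        unfold bb
        have := congrArg (Nat.cast (R := ℝ)) hm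
        push_cast at this
        rw [this]
        ring
      rw [e2]
      exact mul_mem (nat_ZR _) hT2
    · rw [heq] at hT2 ⊢
      unfold bb at hT2
      rw [Nat.sub_self, Nat.choose_zero_right] at hT2 ⊢
      exact mul_mem (nat_ZR _) hT2

end Pool.Agent.MP4a7415
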