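import Pool.Agent.Lib.MP_4a7415_coI.Lattice

/-! # Step 5: auxiliary lemmas for the integral solution near a real one -/

namespace Pool.Agent.MP4a7415.Pt

open Finset MeasureTheory

/-- The additive character. -/
noncomputable def ee (t : ℝ) : ℂ := Complex.exp (2 * Real.pi * Complex.I * (t : ℂ))

theorem ee_zero : ee 0 = 1 := by simp [ee]

theorem ee_add (s t : ℝ) : ee (s + t) = ee s * ee t := by
  unfold ee
  rw [← Complex.exp_add]
  congr 1
  push_cast
  ring

theorem ee_sum {ι : Type*} (s : Finset ι) (f : ι → ℝ) :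
    ee (∑ i ∈ s, f i) = ∏ i ∈ s, ee (f i) := by
  classical
  induction s using Finset.induction_on with
  | empty => simp [ee_zero]
  | insert a s h ih => rw [sum_insert h, prod_insert h, ee_add, ih]

theorem ee_int (k : ℤ) : ee k = 1 := by
  unfold ee
  rw [← Complex.exp_int_mul_two_pi_mul_I k]
  congr 1
  push_cast
  ring

theorem norm_ee (t : ℝ) : ‖ee t‖ = 1 := by
  unfold ee
  have : 2 * Real.pi * Complex.I * (t : ℂ) = ((2 * Real.pi * t : ℝ) : ℂ) * Complex.I := by
    push_cast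
    ring
  rw [this, Complex.norm_exp_ofReal_mul_I]

theorem continuous_ee : Continuous ee := by
  unfold ee
  fun_prop

/-- Comparison of the exponents. -/
theorem pt_sq (s : ℝ) (z : ℤ) : |((z - round s : ℤ) : ℝ)| / 4 ≤ (s - z) ^ 2 := by
  have h1 := abs_sub_round s
  set j : ℤ := z - round s with hj
  have h2 : |(j : ℝ)| - 1 / 2 ≤ |s - z| := by
    have e : (j : ℝ) = -(s - z) + (s - round s) := by
      rw [hj]
      push_cast
      ring
    have := abs_add_le (-(s - z)) (s - round s)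
    rw [← e, abs_neg] at this
    linarith
  rcases eq_or_ne j 0 with h0 | h0
  · rw [h0]
    simp
    positivity
  · have h3 : (1 : ℝ) ≤ |(j : ℝ)| := by
      have : (1 : ℤ) ≤ |j| := Int.one_le_abs h0
      exact_mod_cast this
    rw [← sq_abs (s - z)]
    nlinarith

theorem summable_exp_abs {c : ℝ} (hc : 0 < c) : Summable fun j : ℤ => Real.exp (-(c * |(j : ℝ)|)) := by
  have h : Summable fun n : ℕ => Real.exp (-(c * |((n : ℤ) : ℝ)|)) := by
    have := Real.summable_exp_nat_mul_iff.2 (neg_lt_zero.2 hc)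
    refine this.congr fun n => ?_
    congr 1
    simp
    ring
  refine Summable.of_nat_of_neg h ?_
  refine h.congr fun n => ?_
  congr 1
  simp

/-- A uniform bound for the theta series. -/
theorem th_bdd {a : ℝ} (ha : 0 < a) :
    ∃ C : ℝ, 0 ≤ C ∧ ∀ s : ℝ, ∑' z : ℤ, Real.exp (-(Real.pi * a * (s - z) ^ 2)) ≤ C := by
  have hc : 0 < Real.pi * a / 4 := by positivity
  refine ⟨∑' j : ℤ, Real.exp (-(Real.pi * a / 4 * |(j : ℝ)|)), tsum_nonneg fun _ => (Real.exp_pos _).le,
    fun s => ?_⟩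
  rw [← (Equiv.subRight (round s)).tsum_eq (fun j : ℤ => Real.exp (-(Real.pi * a / 4 * |(j : ℝ)|)))]
  refine (th_summable ha s).tsum_le_tsum (fun z => ?_)
    ((Equiv.subRight (round s)).summable_iff.2 (summable_exp_abs hc))
  have := pt_sq s z
  rw [Real.exp_le_exp]
  simp only [Equiv.subRight_apply]
  have hp : 0 < Real.pi * a := by positivity
  have := mul_le_mul_of_nonneg_left this hp.le
  linarith

/-- Difference of products. -/
theorem prod_diff {ι : Type*} (S : Finset ι) (p f : ι → ℂ) (t : ι → ℝ) {ε : ℝ} (hε : 0 ≤ ε)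
    (h1 : ∀ i, ‖f i‖ ≤ t i) (h2 : ∀ i, ‖p i - f i‖ ≤ ε * t i) :
    ‖∏ i ∈ S, p i - ∏ i ∈ S, f i‖ ≤ ((1 + ε) ^ S.card - 1) * ∏ i ∈ S, t i := by
  classical
  have ht : ∀ i, 0 ≤ t i := fun i => (norm_nonneg _).trans (h1 i)
  have hp : ∀ i, ‖p i‖ ≤ (1 + ε) * t i := by
    intro i
    have e : p i = (p i - f i) + f i := by ring
    have := norm_add_le (p i - f i) (f i)
    rw [← e] at this
    linarith [h1 i, h2 i]
  induction S using Finset.induction_on with
  | empty => simp
  | insert a s ha ih =>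
    rw [prod_insert ha, prod_insert ha, prod_insert ha, card_insert_of_notMem ha]
    have e : p a * ∏ i ∈ s, p i - f a * ∏ i ∈ s, f i =
        (p a - f a) * ∏ i ∈ s, f i + p a * (∏ i ∈ s, p i - ∏ i ∈ s, f i) := by ring
    rw [e]
    have h3 : ‖∏ i ∈ s, f i‖ ≤ ∏ i ∈ s, t i := by
      rw [norm_prod]
      exact prod_le_prod (fun _ _ => norm_nonneg _) fun i _ => h1 i
    have h4 : 0 ≤ ∏ i ∈ s, t i := prod_nonneg fun i _ => ht i
    have h5 : 0 ≤ (1 + ε) ^ s.card - 1 := by
      have := one_le_pow₀ (show (1 : ℝ) ≤ 1 + ε by linarith) (n := s.card)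
      linarith
    calc _ ≤ ‖(p a - f a) * ∏ i ∈ s, f i‖ + ‖p a * (∏ i ∈ s, p i - ∏ i ∈ s, f i)‖ :=
          norm_add_le _ _
      _ = ‖p a - f a‖ * ‖∏ i ∈ s, f i‖ + ‖p a‖ * ‖∏ i ∈ s, p i - ∏ i ∈ s, f i‖ := by
          rw [norm_mul, norm_mul]
      _ ≤ (ε * t a) * (∏ i ∈ s, t i) +
          ((1 + ε) * t a) * (((1 + ε) ^ s.card - 1) * ∏ i ∈ s, t i) := by
          refine add_le_add (mul_le_mul (h2 a) h3 (norm_nonneg _) (by have := ht a; positivity))
            (mul_le_mul (hp a) ih (norm_nonneg _) (by have := ht a; positivity))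
      _ = _ := by ring

/-- The error of all coordinates together is at most one eighth. -/
theorem err_le {a : ℝ} (N : ℕ) (ha : 4 * (4 + Real.log (N + 1)) ≤ a) :
    (1 + 3 * Real.exp (-(2 * a))) ^ N - 1 ≤ 1 / 8 := by
  have hN : (0 : ℝ) < N + 1 := by positivity
  have h1 : Real.exp (-(2 * a)) ≤ Real.exp (-32) * ((N : ℝ) + 1)⁻¹ := by
    have h2 : Real.exp (-Real.log (N + 1)) = ((N : ℝ) + 1)⁻¹ := by
      rw [Real.exp_neg, Real.exp_log hN]
    rw [← h2, ← Real.exp_add, Real.exp_le_exp]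
    have : 0 ≤ Real.log ((N : ℝ) + 1) := Real.log_nonneg (by linarith [(Nat.cast_nonneg N : (0 : ℝ) ≤ N)])
    linarith
  have h3 : Real.exp (-32) ≤ 1 / 33 := by
    rw [Real.exp_neg]
    rw [one_div]
    refine inv_anti₀ (by norm_num) ?_
    have := Real.add_one_le_exp (32 : ℝ)
    linarith
  have h4 : (1 + 3 * Real.exp (-(2 * a))) ^ N ≤ Real.exp (N * (3 * Real.exp (-(2 * a)))) := by
    rw [Real.exp_nat_mul]
    refine pow_le_pow_left₀ (by positivity) ?_ N
    have := Real.add_one_le_exp (3 * Real.exp (-(2 * a)))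
    linarith
  have h5 : N * (3 * Real.exp (-(2 * a))) ≤ 1 / 11 := by
    have : (N : ℝ) * ((N : ℝ) + 1)⁻¹ ≤ 1 := by
      rw [← div_eq_mul_inv, div_le_one hN]
      linarith
    calc (N : ℝ) * (3 * Real.exp (-(2 * a))) ≤ N * (3 * (1 / 33 * ((N : ℝ) + 1)⁻¹)) := by
          gcongr
          exact h1.trans (by gcongr)
      _ = (N * ((N : ℝ) + 1)⁻¹) * (1 / 11) := by ring
      _ ≤ 1 * (1 / 11) := by gcongr
      _ = 1 / 11 := one_mul _
  have h6 : Real.exp (1 / 11) ≤ 9 / 8 := by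
    refine (Real.exp_bound_div_one_sub_of_interval (by norm_num) (by norm_num)).trans ?_
    norm_num
  have := Real.exp_le_exp.2 h5
  linarith

end Pool.Agent.MP4a7415.Pt
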