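import Pool.Agent.Lib.MP_4a7415_coI.Lattice
import Pool.Agent.Lib.MP_4a7415_coI.PointA

/-! # Step 5: an integral solution near a real one (row O) -/

namespace Pool.Agent.MP4a7415

namespace Pt

open Finset MeasureTheory

variable {ι κ : Type*} [Fintype ι] [Fintype κ]

omit [Fintype ι] in
theorem continuous_Lm (M : κ → ι → ℤ) (e : ι) : Continuous fun y : κ → ℝ => Lm M y e := by
  unfold Lm
  fun_prop

theorem continuous_gw (M : κ → ι → ℤ) (a : ℝ) (z : ι → ℤ) :
    Continuous fun y : κ → ℝ => gw M a y z := by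
  unfold gw
  have := fun e => continuous_Lm M e
  fun_prop

theorem gw_pos (M : κ → ι → ℤ) (a : ℝ) (y : κ → ℝ) (z : ι → ℤ) : 0 < gw M a y z := Real.exp_pos _

theorem gw_eq_prod (M : κ → ι → ℤ) (a : ℝ) (y : κ → ℝ) (z : ι → ℤ) :
    gw M a y z = ∏ e, Real.exp (-(Real.pi * a * (Lm M y e - z e) ^ 2)) := by
  rw [gw, ← Real.exp_sum, sum_neg_distrib, mul_sum]

theorem gw_summable (M : κ → ι → ℤ) {a : ℝ} (ha : 0 < a) (y : κ → ℝ) :
    Summable fun z : ι → ℤ => gw M a y z := by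
  simp_rw [gw_eq_prod]
  exact (prod_tsum_real (fun e z => Real.exp (-(Real.pi * a * (Lm M y e - z) ^ 2)))
    (fun _ _ => (Real.exp_pos _).le) fun e => th_summable ha _).1

theorem gw_tsum (M : κ → ι → ℤ) {a : ℝ} (ha : 0 < a) (y : κ → ℝ) :
    ∑' z : ι → ℤ, gw M a y z = ∏ e, ∑' z : ℤ, Real.exp (-(Real.pi * a * (Lm M y e - z) ^ 2)) := by
  simp_rw [gw_eq_prod]
  exact ((prod_tsum_real (fun e z => Real.exp (-(Real.pi * a * (Lm M y e - z) ^ 2)))
    (fun _ _ => (Real.exp_pos _).le) fun e => th_summable ha _).2).symm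

theorem prod_th (M : κ → ι → ℤ) {a : ℝ} (ha : 0 < a) (y : κ → ℝ) :
    ∏ e, th a (Lm M y e) = √a ^ Fintype.card ι * ∑' z : ι → ℤ, gw M a y z := by
  rw [gw_tsum M ha]
  unfold th
  rw [prod_mul_distrib, prod_const, card_univ]

/-- Total mass of a set of classes. -/
noncomputable def mass (M : κ → ι → ℤ) (a : ℝ) (T : Set (ι → ℤ)) (y : κ → ℝ) : ℝ :=
  ∑' z : T, gw M a y z

theorem mass_nonneg (M : κ → ι → ℤ) (a : ℝ) (T : Set (ι → ℤ)) (y : κ → ℝ) : 0 ≤ mass M a T y :=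
  tsum_nonneg fun _ => (gw_pos _ _ _ _).le

theorem mass_bdd (M : κ → ι → ℤ) {a : ℝ} (ha : 0 < a) :
    ∃ C : ℝ, ∀ (T : Set (ι → ℤ)) (y : κ → ℝ), mass M a T y ≤ C := by
  obtain ⟨C, hC0, hC⟩ := th_bdd ha
  refine ⟨C ^ Fintype.card ι, fun T y => ?_⟩
  have h1 : mass M a T y ≤ ∑' z : ι → ℤ, gw M a y z :=
    Summable.tsum_subtype_le (fun z => gw M a y z) T (fun z => (gw_pos M a y z).le)
      (gw_summable M ha y)
  refine h1.trans ?_
  rw [gw_tsum M ha]
  refine (prod_le_prod (fun e _ => tsum_nonneg fun _ => (Real.exp_pos _).le)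
    fun e _ => hC (Lm M y e)).trans ?_
  rw [prod_const, card_univ]

theorem ofReal_mass (M : κ → ι → ℤ) {a : ℝ} (ha : 0 < a) (T : Set (ι → ℤ)) (y : κ → ℝ) :
    ENNReal.ofReal (mass M a T y) = ∑' z : T, ENNReal.ofReal (gw M a y z) :=
  ENNReal.ofReal_tsum_of_nonneg (fun _ => (gw_pos _ _ _ _).le) ((gw_summable M ha y).subtype T)

theorem measurable_mass (M : κ → ι → ℤ) {a : ℝ} (ha : 0 < a) (T : Set (ι → ℤ)) :
    Measurable (mass M a T) := by
  have h : mass M a T = fun y => (∑' z : T, ENNReal.ofReal (gw M a y z)).toReal := by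
    funext y
    rw [← ofReal_mass M ha, ENNReal.toReal_ofReal (mass_nonneg _ _ _ _)]
  rw [h]
  have h2 : ∀ z : T, Measurable fun y : κ → ℝ => ENNReal.ofReal (gw M a y (z : ι → ℤ)) :=
    fun z => (continuous_gw M a z).measurable.ennreal_ofReal
  exact (Measurable.tsum h2).ennreal_toReal

instance instProbCube : IsProbabilityMeasure (cubeM κ) := ⟨cubeM_univ κ⟩

theorem integrable_mass (M : κ → ι → ℤ) {a : ℝ} (ha : 0 < a) (T : Set (ι → ℤ)) :
    Integrable (mass M a T) (cubeM κ) := by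
  obtain ⟨C, hC⟩ := mass_bdd M ha
  refine Integrable.of_bound (measurable_mass M ha T).aestronglyMeasurable C ?_
  refine Filter.Eventually.of_forall fun y => ?_
  rw [Real.norm_eq_abs, abs_of_nonneg (mass_nonneg _ _ _ _)]
  exact hC T y

theorem integral_mass (M : κ → ι → ℤ) {a : ℝ} (ha : 0 < a) (T : Set (ι → ℤ)) :
    ∫ y, mass M a T y ∂cubeM κ =
      (∑' z : T, ∫⁻ y, ENNReal.ofReal (gw M a y z) ∂cubeM κ).toReal := by
  rw [integral_eq_lintegral_of_nonneg_ae
    (Filter.Eventually.of_forall fun y => mass_nonneg _ _ _ _)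
    (measurable_mass M ha T).aestronglyMeasurable]
  congr 1
  rw [← lintegral_tsum fun z : T => (continuous_gw M a z).measurable.ennreal_ofReal.aemeasurable]
  exact lintegral_congr fun y => ofReal_mass M ha T y

theorem lint_mass_ne_top (M : κ → ι → ℤ) {a : ℝ} (ha : 0 < a) (T : Set (ι → ℤ)) :
    ∑' z : T, ∫⁻ y, ENNReal.ofReal (gw M a y z) ∂cubeM κ ≠ ⊤ := by
  rw [← lintegral_tsum fun z : T => (continuous_gw M a z).measurable.ennreal_ofReal.aemeasurable]
  obtain ⟨C, hC⟩ := mass_bdd M ha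
  refine ne_of_lt (lt_of_le_of_lt (b := ∫⁻ _ : κ → ℝ, ENNReal.ofReal C ∂cubeM κ) ?_ ?_)
  · refine lintegral_mono fun y => ?_
    rw [← ofReal_mass M ha T y]
    exact ENNReal.ofReal_le_ofReal (hC T y)
  · rw [lintegral_const, cubeM_univ, mul_one]
    exact ENNReal.ofReal_lt_top

/-- The mass of the trivial classes is positive. -/
theorem integral_mass_pos (M : κ → ι → ℤ) {a : ℝ} (ha : 0 < a) {T : Set (ι → ℤ)}
    (hT : (0 : ι → ℤ) ∈ T) : 0 < ∫ y, mass M a T y ∂cubeM κ := by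
  rw [integral_mass M ha, ENNReal.toReal_pos_iff]
  refine ⟨?_, (lint_mass_ne_top M ha T).lt_top⟩
  refine lt_of_lt_of_le ?_ (ENNReal.le_tsum (⟨0, hT⟩ : T))
  rw [lintegral_pos_iff_support (continuous_gw M a _).measurable.ennreal_ofReal]
  have : Function.support (fun y : κ → ℝ => ENNReal.ofReal (gw M a y ((⟨0, hT⟩ : T) : ι → ℤ))) =
      Set.univ := by
    ext y
    simp [gw_pos]
  rw [this, cubeM_univ]
  exact one_pos

/-- Exchange of the two sums. -/
theorem sum_Lm (M : κ → ι → ℤ) (y : κ → ℝ) (c : ι → ℝ) :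
    ∑ e, c e * Lm M y e = ∑ R, (∑ e, (M R e : ℝ) * c e) * y R := by
  unfold Lm
  simp_rw [mul_sum, sum_mul]
  rw [sum_comm]
  exact sum_congr rfl fun _ _ => sum_congr rfl fun _ _ => by ring

/-- The cut off product. -/
noncomputable def PP (M : κ → ι → ℤ) (μ : ι → ℝ) (a : ℝ) (J : ι → Finset ℤ) (y : κ → ℝ) (e : ι) :
    ℂ :=
  ∑ x ∈ J e, (Real.exp (-(Real.pi * (x - μ e) ^ 2 / a)) : ℂ) * ee (x * Lm M y e)

/-- The full product. -/
noncomputable def FF (M : κ → ι → ℤ) (μ : ι → ℝ) (a : ℝ) (y : κ → ℝ) (e : ι) : ℂ :=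
  √a * ∑' z : ℤ, (Real.exp (-(Real.pi * a * (Lm M y e - z) ^ 2)) : ℂ) *
    ee (μ e * (Lm M y e - z))

omit [Fintype ι] in
theorem norm_PP_sub_FF (M : κ → ι → ℤ) (μ : ι → ℝ) {a : ℝ} (ha : 1 ≤ a) {J : ι → Finset ℤ}
    (hJ : ∀ e, ∀ x : ℤ, x ∈ J e ↔ |(x : ℝ) - μ e| ≤ a) (y : κ → ℝ) (e : ι) :
    ‖PP M μ a J y e - FF M μ a y e‖ ≤ 3 * Real.exp (-(2 * a)) * th a (Lm M y e) := by
  have := theta_trunc ha (μ e) (Lm M y e) (hJ e)
  unfold PP FF ee
  push_cast at this ⊢
  exact this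

omit [Fintype ι] in
theorem norm_term (M : κ → ι → ℤ) (μ : ι → ℝ) (a : ℝ) (y : κ → ℝ) (e : ι) (z : ℤ) :
    ‖(Real.exp (-(Real.pi * a * (Lm M y e - z) ^ 2)) : ℂ) * ee (μ e * (Lm M y e - z))‖ =
      Real.exp (-(Real.pi * a * (Lm M y e - z) ^ 2)) := by
  rw [norm_mul, norm_ee, mul_one, Complex.norm_real, Real.norm_eq_abs, abs_of_pos (Real.exp_pos _)]

omit [Fintype ι] in
theorem norm_FF (M : κ → ι → ℤ) (μ : ι → ℝ) {a : ℝ} (ha : 0 < a) (y : κ → ℝ) (e : ι) :
    ‖FF M μ a y e‖ ≤ th a (Lm M y e) := by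
  unfold FF th
  rw [norm_mul, Complex.norm_real, Real.norm_eq_abs, abs_of_nonneg (Real.sqrt_nonneg a)]
  refine mul_le_mul_of_nonneg_left ?_ (Real.sqrt_nonneg a)
  have h : Summable fun z : ℤ =>
      ‖(Real.exp (-(Real.pi * a * (Lm M y e - z) ^ 2)) : ℂ) * ee (μ e * (Lm M y e - z))‖ := by
    simp_rw [norm_term]
    exact th_summable ha _
  refine (norm_tsum_le_tsum_norm h).trans (le_of_eq ?_)
  simp_rw [norm_term]

/-- The full product as one series. -/
theorem prod_FF (M : κ → ι → ℤ) (μ : ι → ℝ) {a : ℝ} (ha : 0 < a) (y : κ → ℝ) :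
    ∏ e, FF M μ a y e = √a ^ Fintype.card ι *
      ∑' z : ι → ℤ, (gw M a y z : ℂ) * ee (∑ e, μ e * (Lm M y e - z e)) := by
  unfold FF
  rw [prod_mul_distrib, prod_const, card_univ]
  congr 1
  rw [(prod_tsum (fun e (z : ℤ) => (Real.exp (-(Real.pi * a * (Lm M y e - z) ^ 2)) : ℂ) *
    ee (μ e * (Lm M y e - z))) fun e => ?_).2]
  · refine tsum_congr fun z => ?_
    rw [prod_mul_distrib, gw_eq_prod, ee_sum]
    push_cast
    rfl
  · simp_rw [norm_term]
    exact th_summable ha _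

/-- The pointwise lower bound. -/
theorem re_lower {M : κ → ι → ℤ} {Ls : AddSubgroup (κ → ℝ)} {C0 : ℝ} (hP : Per M Ls C0)
    {v : κ → ℤ} (hv : ∀ y ∈ Ls, ∃ k : ℤ, ∑ R, (v R : ℝ) * y R = k) {μ : ι → ℝ}
    (hμ : ∀ R, ∑ e, (M R e : ℝ) * μ e = v R) {a : ℝ}
    (ha : 4 * C0 * (4 + Real.log (Fintype.card ι + 1)) ≤ a) {J : ι → Finset ℤ}
    (hJ : ∀ e, ∀ x : ℤ, x ∈ J e ↔ |(x : ℝ) - μ e| ≤ a) (y : κ → ℝ) :
    √a ^ Fintype.card ι * (7 / 8 * mass M a {z | Triv M Ls z} y -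
      9 / 8 * mass M a {z | Triv M Ls z}ᶜ y) ≤
      (ee (-(∑ R, (v R : ℝ) * y R)) * ∏ e, PP M μ a J y e).re := by
  classical
  set T : Set (ι → ℤ) := {z | Triv M Ls z} with hT
  have hlog : 0 ≤ Real.log ((Fintype.card ι : ℝ) + 1) :=
    Real.log_nonneg (by linarith [(Nat.cast_nonneg (Fintype.card ι) : (0 : ℝ) ≤ _)])
  have ha' : 4 * (4 + Real.log ((Fintype.card ι : ℝ) + 1)) ≤ a := by
    refine le_trans ?_ ha
    nlinarith [hP.one]
  have ha1 : 1 ≤ a := by linarith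
  have ha0 : 0 < a := by linarith
  have hsum := gw_summable M ha0 y
  have hspl : mass M a T y + mass M a Tᶜ y = ∑' z : ι → ℤ, gw M a y z :=
    hsum.tsum_subtype_add_tsum_subtype_compl T
  -- the full product
  have h1 : ee (-(∑ R, (v R : ℝ) * y R)) * ∏ e, FF M μ a y e = √a ^ Fintype.card ι *
      ∑' z : ι → ℤ, (gw M a y z : ℂ) * ee (-(∑ e, μ e * z e)) := by
    rw [prod_FF M μ ha0, mul_left_comm]
    congr 1
    rw [← tsum_mul_left]
    refine tsum_congr fun z => ?_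
    rw [mul_left_comm, ← ee_add]
    congr 2
    simp_rw [mul_sub, sum_sub_distrib]
    rw [sum_Lm]
    simp_rw [hμ]
    ring
  have hs2 : Summable fun z : ι → ℤ => (gw M a y z : ℂ) * ee (-(∑ e, μ e * z e)) := by
    refine Summable.of_norm ?_
    refine hsum.congr fun z => ?_
    rw [norm_mul, norm_ee, mul_one, Complex.norm_real, Real.norm_eq_abs,
      abs_of_pos (gw_pos _ _ _ _)]
  have h2 : (ee (-(∑ R, (v R : ℝ) * y R)) * ∏ e, FF M μ a y e).re = √a ^ Fintype.card ι *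
      ∑' z : ι → ℤ, gw M a y z * (ee (-(∑ e, μ e * z e))).re := by
    rw [h1, ← Complex.ofReal_pow, Complex.re_ofReal_mul, Complex.re_tsum hs2]
    simp_rw [Complex.re_ofReal_mul]
  have hs3 : Summable fun z : ι → ℤ => gw M a y z * (ee (-(∑ e, μ e * z e))).re := by
    have := (Complex.reCLM.summable hs2)
    refine this.congr fun z => ?_
    simp
  have hT1 : Summable (T.indicator fun z => gw M a y z) := hsum.indicator T
  have hT2 : Summable (Tᶜ.indicator fun z => gw M a y z) := hsum.indicator Tᶜ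
  have h3 : mass M a T y - mass M a Tᶜ y ≤
      ∑' z : ι → ℤ, gw M a y z * (ee (-(∑ e, μ e * z e))).re := by
    have e : mass M a T y - mass M a Tᶜ y =
        ∑' z : ι → ℤ, (T.indicator (fun z => gw M a y z) z - Tᶜ.indicator (fun z => gw M a y z) z) := by
      rw [hT1.tsum_sub hT2, mass, mass, tsum_subtype T fun z => gw M a y z,
        tsum_subtype Tᶜ fun z => gw M a y z]
    rw [e]
    refine (hT1.sub hT2).tsum_le_tsum (fun z => ?_) hs3
    by_cases hz : z ∈ T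
    · rw [Set.indicator_of_mem hz, Set.indicator_of_notMem (by simpa using hz), sub_zero]
      obtain ⟨y0, hy0, hz0⟩ := hz
      obtain ⟨k, hk⟩ := hv y0 hy0
      have e2 : ∑ e, μ e * z e = k := by
        rw [← hk]
        have := sum_Lm M y0 μ
        simp_rw [hμ, hz0] at this
        exact this
      rw [e2]
      have e3 : ee (-(k : ℝ)) = 1 := by
        have := ee_int (-k)
        push_cast at this
        exact this
      rw [e3, Complex.one_re, mul_one]
    · rw [Set.indicator_of_notMem hz, Set.indicator_of_mem (by simpa using hz), zero_sub]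
      have h4 := Complex.abs_re_le_norm (ee (-(∑ e, μ e * z e)))
      rw [norm_ee] at h4
      have h5 := (abs_le.1 h4).1
      have h6 := gw_pos M a y z
      nlinarith
  -- the error
  have h4 : ‖∏ e, PP M μ a J y e - ∏ e, FF M μ a y e‖ ≤
      1 / 8 * (√a ^ Fintype.card ι * (mass M a T y + mass M a Tᶜ y)) := by
    have h5 := prod_diff (univ : Finset ι) (PP M μ a J y) (FF M μ a y)
      (fun e => th a (Lm M y e)) (ε := 3 * Real.exp (-(2 * a))) (by positivity)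
      (fun e => norm_FF M μ ha0 y e) (fun e => norm_PP_sub_FF M μ ha1 hJ y e)
    refine h5.trans ?_
    rw [prod_th M ha0, hspl, card_univ]
    refine mul_le_mul_of_nonneg_right (err_le _ ha') ?_
    exact mul_nonneg (by positivity) (tsum_nonneg fun _ => (gw_pos _ _ _ _).le)
  have h5 : (ee (-(∑ R, (v R : ℝ) * y R)) * ∏ e, PP M μ a J y e).re =
      (ee (-(∑ R, (v R : ℝ) * y R)) * ∏ e, FF M μ a y e).re +
      (ee (-(∑ R, (v R : ℝ) * y R)) * (∏ e, PP M μ a J y e - ∏ e, FF M μ a y e)).re := by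
    rw [← Complex.add_re]
    congr 1
    ring
  have h6 := Complex.abs_re_le_norm
    (ee (-(∑ R, (v R : ℝ) * y R)) * (∏ e, PP M μ a J y e - ∏ e, FF M μ a y e))
  rw [norm_mul, norm_ee, one_mul] at h6
  have h7 := (abs_le.1 h6).1
  have h8 : √a ^ Fintype.card ι * (mass M a T y - mass M a Tᶜ y) ≤
      (ee (-(∑ R, (v R : ℝ) * y R)) * ∏ e, FF M μ a y e).re := by
    rw [h2]
    exact mul_le_mul_of_nonneg_left h3 (by positivity)
  rw [h5]
  nlinarith

omit [Fintype ι] in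
theorem continuous_PP (M : κ → ι → ℤ) (μ : ι → ℝ) (a : ℝ) (J : ι → Finset ℤ) (e : ι) :
    Continuous fun y : κ → ℝ => PP M μ a J y e := by
  unfold PP
  refine continuous_finsetSum _ fun x _ => ?_
  exact continuous_const.mul (continuous_ee.comp (continuous_const.mul (continuous_Lm M e)))

/-- The integral of the cut off product vanishes if there is no solution. -/
theorem integral_zero (M : κ → ι → ℤ) (μ : ι → ℝ) (a : ℝ) (J : ι → Finset ℤ) (v : κ → ℤ)
    (hno : ∀ x : ι → ℤ, (∀ e, x e ∈ J e) → ¬ ∀ R, ∑ e, M R e * x e = v R) :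
    ∫ y, ee (-(∑ R, (v R : ℝ) * y R)) * ∏ e, PP M μ a J y e ∂cubeM κ = 0 := by
  classical
  have h1 : ∀ y : κ → ℝ, ee (-(∑ R, (v R : ℝ) * y R)) * ∏ e, PP M μ a J y e =
      ∑ x ∈ Fintype.piFinset J, (∏ e, (Real.exp (-(Real.pi * (x e - μ e) ^ 2 / a)) : ℂ)) *
        Complex.exp (2 * Real.pi * Complex.I *
          ((∑ R, (((∑ e, M R e * x e) - v R : ℤ) : ℝ) * y R : ℝ) : ℂ)) := by
    intro y
    unfold PP
    rw [prod_univ_sum, mul_sum]
    refine sum_congr rfl fun x _ => ?_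
    rw [prod_mul_distrib, mul_left_comm, ← ee_sum, ← ee_add]
    congr 1
    have e1 : -(∑ R, (v R : ℝ) * y R) + ∑ e, (x e : ℝ) * Lm M y e =
        ∑ R, (((∑ e, M R e * x e) - v R : ℤ) : ℝ) * y R := by
      rw [sum_Lm, ← sum_neg_distrib, ← sum_add_distrib]
      refine sum_congr rfl fun R _ => ?_
      push_cast
      ring
    rw [e1]
    rfl
  simp_rw [h1]
  rw [integral_finsetSum]
  · refine sum_eq_zero fun x hx => ?_
    rw [integral_const_mul, cube_orth (fun R => (∑ e, M R e * x e) - v R)]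
    rw [if_neg, mul_zero]
    intro h0
    rw [Fintype.mem_piFinset] at hx
    refine hno x hx fun R => ?_
    have := congrFun h0 R
    simp only [Pi.zero_apply] at this
    omega
  · intro x _
    refine Integrable.of_bound (Continuous.aestronglyMeasurable (by fun_prop))
      ‖∏ e, (Real.exp (-(Real.pi * (x e - μ e) ^ 2 / a)) : ℂ)‖ ?_
    refine Filter.Eventually.of_forall fun y => ?_
    rw [norm_mul]
    refine (mul_le_of_le_one_right (norm_nonneg _) (le_of_eq ?_))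
    exact norm_ee _

theorem integrable_PP (M : κ → ι → ℤ) (μ : ι → ℝ) (a : ℝ) (J : ι → Finset ℤ) (v : κ → ℤ) :
    Integrable (fun y => ee (-(∑ R, (v R : ℝ) * y R)) * ∏ e, PP M μ a J y e) (cubeM κ) := by
  have hc : Continuous fun y : κ → ℝ => ee (-(∑ R, (v R : ℝ) * y R)) * ∏ e, PP M μ a J y e := by
    refine Continuous.mul (continuous_ee.comp (by fun_prop)) ?_
    exact continuous_finsetProd _ fun e _ => continuous_PP M μ a J e
  refine Integrable.of_bound hc.aestronglyMeasurable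
    (∏ e, ∑ x ∈ J e, ‖(Real.exp (-(Real.pi * (x - μ e) ^ 2 / a)) : ℂ)‖) ?_
  refine Filter.Eventually.of_forall fun y => ?_
  rw [norm_mul, norm_ee, one_mul, norm_prod]
  refine prod_le_prod (fun _ _ => norm_nonneg _) fun e _ => ?_
  unfold PP
  refine (norm_sum_le _ _).trans (sum_le_sum fun x _ => ?_)
  rw [norm_mul, norm_ee, mul_one]

end Pt

open Finset MeasureTheory Pt

theorem lattice_point {ι κ : Type*} [Fintype ι] [Fintype κ] {M : κ → ι → ℤ}
    {Ls : AddSubgroup (κ → ℝ)} {C0 : ℝ} (hP : Per M Ls C0) (v : κ → ℤ)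
    (hv : ∀ y ∈ Ls, ∃ k : ℤ, ∑ R, (v R : ℝ) * y R = k) (μ : ι → ℝ)
    (hμ : ∀ R, ∑ e, (M R e : ℝ) * μ e = v R) :
    ∃ x : ι → ℤ, (∀ R, ∑ e, M R e * x e = v R) ∧
      ∀ e, |(x e : ℝ) - μ e| ≤ 4 * C0 * (4 + Real.log (Fintype.card ι + 1)) := by
  classical
  set a : ℝ := 4 * C0 * (4 + Real.log (Fintype.card ι + 1)) with ha
  have hlog : 0 ≤ Real.log ((Fintype.card ι : ℝ) + 1) :=
    Real.log_nonneg (by linarith [(Nat.cast_nonneg (Fintype.card ι) : (0 : ℝ) ≤ _)])
  have ha0 : 0 < a := by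
    have := hP.one
    positivity
  by_contra hcon
  push Not at hcon
  set J : ι → Finset ℤ := fun e => Finset.Icc ⌈μ e - a⌉ ⌊μ e + a⌋ with hJdef
  have hJ : ∀ e, ∀ x : ℤ, x ∈ J e ↔ |(x : ℝ) - μ e| ≤ a := by
    intro e x
    rw [hJdef]
    simp only [Finset.mem_Icc, Int.ceil_le, Int.le_floor, abs_le]
    constructor
    · rintro ⟨h1, h2⟩
      exact ⟨by linarith, by linarith⟩
    · rintro ⟨h1, h2⟩
      exact ⟨by linarith, by linarith⟩
  have hno : ∀ x : ι → ℤ, (∀ e, x e ∈ J e) → ¬ ∀ R, ∑ e, M R e * x e = v R := by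
    intro x hx hR
    obtain ⟨e, he⟩ := hcon x hR
    exact absurd ((hJ e (x e)).1 (hx e)) (not_le.2 he)
  have h0 := integral_zero M μ a J v hno
  set T : Set (ι → ℤ) := {z | Triv M Ls z} with hT
  have h1 : ∫ y, (√a ^ Fintype.card ι * (7 / 8 * mass M a T y - 9 / 8 * mass M a Tᶜ y)) ∂cubeM κ ≤
      ∫ y, (ee (-(∑ R, (v R : ℝ) * y R)) * ∏ e, PP M μ a J y e).re ∂cubeM κ := by
    refine integral_mono ?_ (integrable_PP M μ a J v).re fun y => re_lower hP hv hμ le_rfl hJ y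
    exact (((integrable_mass M ha0 T).const_mul _).sub
      ((integrable_mass M ha0 Tᶜ).const_mul _)).const_mul _
  have h2 : ∫ y, (ee (-(∑ R, (v R : ℝ) * y R)) * ∏ e, PP M μ a J y e).re ∂cubeM κ = 0 := by
    have := integral_re (integrable_PP M μ a J v)
    rw [h0] at this
    simpa using this
  rw [h2, integral_const_mul, integral_sub ((integrable_mass M ha0 T).const_mul _)
    ((integrable_mass M ha0 Tᶜ).const_mul _), integral_const_mul, integral_const_mul] at h1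
  have hpos : 0 < ∫ y, mass M a T y ∂cubeM κ := by
    refine integral_mass_pos M ha0 ?_
    exact ⟨0, Ls.zero_mem, fun e => by simp [Lm]⟩
  have h3 : ∫ y, mass M a Tᶜ y ∂cubeM κ ≤ 1 / 4 * ∫ y, mass M a T y ∂cubeM κ := by
    rw [integral_mass M ha0, integral_mass M ha0]
    have := classes hP (a := a) le_rfl
    have h4 := ENNReal.toReal_mono (ENNReal.mul_ne_top ENNReal.ofReal_ne_top
      (lint_mass_ne_top M ha0 T)) this
    rw [ENNReal.toReal_mul, ENNReal.toReal_ofReal (by norm_num)] at h4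
    exact h4
  have h5 : 0 < √a ^ Fintype.card ι := pow_pos (Real.sqrt_pos.2 ha0) _
  have h6 : 7 / 8 * ∫ y, mass M a T y ∂cubeM κ - 9 / 8 * ∫ y, mass M a Tᶜ y ∂cubeM κ ≤ 0 := by
    by_contra hc
    push Not at hc
    have := mul_pos h5 hc
    linarith
  linarith

end Pool.Agent.MP4a7415
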