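import Pool.Agent.Lib.MP_4a7415_co.Coer

/-! # Duality with a general target -/

namespace Pool.Agent.MP4a7415

open Finset

/-- Real solution inside a box with target `u`, from coercivity and almost regularity. -/
theorem exists_real_gen {n r : ℕ} {G : Finset (Finset (Fin n))} (u : Finset (Fin n) → ℝ)
    {D c δ ε : ℝ} (hD : 0 < D) (hδ : δ < c * ε) (hε : 0 ≤ ε)
    (hco : ∀ y : Finset (Fin n) → ℝ, c * D * ∑ R ∈ Blk n r, |y R| ≤ ∑ e ∈ G, |ev r y e|)
    (hdeg : ∀ R ∈ Blk n r, |((G.filter (fun e => R ⊆ e)).card : ℝ) - D * u R| ≤ δ * D) :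
    ∃ w : Finset (Fin n) → ℝ, (∀ e, |w e - 1 / D| ≤ ε / D) ∧
      ∀ R ∈ Blk n r, ∑ e ∈ G with R ⊆ e, w e = u R := by
  classical
  -- the map
  let Φ : (Finset (Fin n) → ℝ) → (Finset (Fin n) → ℝ) := fun w R =>
    if R ∈ Blk n r then ∑ e ∈ G with R ⊆ e, w e else u R
  have hΦc : Continuous Φ := by
    refine continuous_pi fun R => ?_
    by_cases hR : R ∈ Blk n r
    · simp only [Φ, if_pos hR]
      exact continuous_finsetSum _ fun e _ => continuous_apply e
    · simp only [Φ, if_neg hR]
      exact continuous_const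
  let box : Set (Finset (Fin n) → ℝ) := Set.Icc (fun _ => (1 - ε) / D) (fun _ => (1 + ε) / D)
  have hcomp : IsCompact (Φ '' box) := isCompact_Icc.image hΦc
  have hconv : Convex ℝ (Φ '' box) := by
    rintro _ ⟨u1, hu, rfl⟩ _ ⟨v, hv, rfl⟩ a b ha hb hab
    refine ⟨a • u1 + b • v, convex_Icc _ _ hu hv ha hb hab, ?_⟩
    ext R
    simp only [Φ, Pi.add_apply, Pi.smul_apply, smul_eq_mul]
    by_cases hR : R ∈ Blk n r
    · simp only [if_pos hR]
      rw [sum_add_distrib, mul_sum, mul_sum]
    · simp only [if_neg hR]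
      rw [← add_mul, hab, one_mul]
  by_cases hone : u ∈ Φ '' box
  · obtain ⟨w, hw, he⟩ := hone
    refine ⟨w, fun e => ?_, fun R hR => ?_⟩
    · have h1 := hw.1 e
      have h2 := hw.2 e
      simp only at h1 h2
      rw [sub_div] at h1
      rw [add_div] at h2
      rw [abs_le]
      constructor <;> linarith
    · have := congrFun he R
      simp only [Φ, if_pos hR] at this
      exact this
  exfalso
  obtain ⟨f, u0, hf1, hf2⟩ := geometric_hahn_banach_closed_point hconv hcomp.isClosed hone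
  -- coordinates of `f`
  let y : Finset (Fin n) → ℝ := fun R => f (Pi.single R 1)
  have hf : ∀ v : Finset (Fin n) → ℝ, f v = ∑ R, y R * v R := by
    intro v
    have h1 : v = ∑ R, v R • (Pi.single R (1 : ℝ) : Finset (Fin n) → ℝ) := by
      ext T
      rw [Finset.sum_apply, sum_eq_single T]
      · simp
      · intro R _ hR
        simp [Pi.single_eq_of_ne hR.symm]
      · intro h
        exact absurd (mem_univ T) h
    conv_lhs => rw [h1]
    rw [map_sum]
    refine sum_congr rfl fun R _ => ?_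
    rw [map_smul, smul_eq_mul, mul_comm]
  -- the worst point of the box
  let w : Finset (Fin n) → ℝ := fun e => if 0 ≤ ev r y e then (1 + ε) / D else (1 - ε) / D
  have hle : (1 - ε) / D ≤ (1 + ε) / D := by
    rw [div_le_div_iff_of_pos_right hD]
    linarith
  have hw : w ∈ box := by
    constructor
    · intro e
      simp only [w]
      split_ifs
      · exact hle
      · exact le_rfl
    · intro e
      simp only [w]
      split_ifs
      · exact le_rfl
      · exact hle
  have h1 := hf1 (Φ w) ⟨w, hw, rfl⟩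
  have h2 : f (Φ w) < f u := h1.trans hf2
  rw [hf, hf] at h2
  -- only `r`-sets matter
  have h3 : ∑ R ∈ Blk n r, y R * ∑ e ∈ G with R ⊆ e, w e < ∑ R ∈ Blk n r, y R * u R := by
    have e1 : ∀ v : Finset (Fin n) → ℝ, ∑ R, y R * v R =
        ∑ R ∈ Blk n r, y R * v R + ∑ R ∈ univ \ Blk n r, y R * v R := by
      intro v
      rw [add_comm, sum_sdiff (subset_univ _)]
    rw [e1, e1] at h2
    have e2 : ∑ R ∈ Blk n r, y R * Φ w R = ∑ R ∈ Blk n r, y R * ∑ e ∈ G with R ⊆ e, w e := by
      refine sum_congr rfl fun R hR => ?_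
      simp only [Φ, if_pos hR]
    have e3 : ∑ R ∈ univ \ Blk n r, y R * Φ w R = ∑ R ∈ univ \ Blk n r, y R * u R := by
      refine sum_congr rfl fun R hR => ?_
      rw [mem_sdiff] at hR
      simp only [Φ, if_neg hR.2]
    rw [e2, e3] at h2
    linarith
  -- exchange the sums
  have hsw : ∀ v : Finset (Fin n) → ℝ, ∑ R ∈ Blk n r, y R * ∑ e ∈ G with R ⊆ e, v e =
      ∑ e ∈ G, v e * ev r y e := by
    intro v
    have e1 : ∀ R ∈ Blk n r, y R * ∑ e ∈ G with R ⊆ e, v e =
        ∑ e ∈ G, if R ⊆ e then y R * v e else 0 := by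
      intro R _
      rw [mul_sum, sum_filter]
    rw [sum_congr rfl e1, sum_comm]
    refine sum_congr rfl fun e _ => ?_
    have h5 : powersetCard r e = (Blk n r).filter fun R => R ⊆ e := by
      ext R
      simp only [mem_powersetCard, mem_filter, subset_univ, true_and]
      exact and_comm
    rw [ev, h5, mul_sum, sum_filter]
    exact sum_congr rfl fun R _ => by split_ifs <;> ring
  rw [hsw] at h3
  have h4 : ∑ e ∈ G, w e * ev r y e = (1 / D) * ∑ e ∈ G, ev r y e +
      (ε / D) * ∑ e ∈ G, |ev r y e| := by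
    rw [mul_sum, mul_sum, ← sum_add_distrib]
    refine sum_congr rfl fun e _ => ?_
    simp only [w]
    split_ifs with h
    · rw [abs_of_nonneg h]
      ring
    · rw [abs_of_neg (not_le.1 h)]
      ring
  have h5 : ∑ e ∈ G, ev r y e = ∑ R ∈ Blk n r, y R * (G.filter (fun e => R ⊆ e)).card := by
    have := hsw fun _ => 1
    simp only [one_mul] at this
    rw [← this]
    refine sum_congr rfl fun R _ => ?_
    simp
  have h6 : D * ∑ R ∈ Blk n r, y R * u R - δ * D * ∑ R ∈ Blk n r, |y R| ≤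
      ∑ e ∈ G, ev r y e := by
    rw [h5, mul_sum, mul_sum, ← sum_sub_distrib]
    refine sum_le_sum fun R hR => ?_
    have h7 := hdeg R hR
    have h8 : |y R * (((G.filter (fun e => R ⊆ e)).card : ℝ) - D * u R)| ≤
        |y R| * (δ * D) := by
      rw [abs_mul]
      exact mul_le_mul_of_nonneg_left h7 (abs_nonneg _)
    have h9 := (abs_le.1 h8).1
    linarith
  have h7 := hco y
  rw [h4] at h3
  have h8 : (1 / D) * (D * ∑ R ∈ Blk n r, y R * u R - δ * D * ∑ R ∈ Blk n r, |y R|) +
      (ε / D) * (c * D * ∑ R ∈ Blk n r, |y R|) < ∑ R ∈ Blk n r, y R * u R := by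
    have e1 := mul_le_mul_of_nonneg_left h6 (show 0 ≤ 1 / D by positivity)
    have e2 := mul_le_mul_of_nonneg_left h7 (show 0 ≤ ε / D by positivity)
    linarith
  have h9 : (1 / D) * (D * ∑ R ∈ Blk n r, y R * u R - δ * D * ∑ R ∈ Blk n r, |y R|) +
      (ε / D) * (c * D * ∑ R ∈ Blk n r, |y R|) =
      ∑ R ∈ Blk n r, y R * u R + (c * ε - δ) * ∑ R ∈ Blk n r, |y R| := by
    field_simp
    ring
  rw [h9] at h8
  have h10 : 0 ≤ (c * ε - δ) * ∑ R ∈ Blk n r, |y R| :=
    mul_nonneg (by linarith) (sum_nonneg fun _ _ => abs_nonneg _)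
  linarith

end Pool.Agent.MP4a7415
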