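import Pool.Agent.Lib.MP_4a7415_coI.Torus
import Pool.Agent.Lib.MP_4a7415_coI.Denom
import Pool.Agent.Lib.MP_4a7415_coI.Phase
import Pool.Agent.Lib.MP_4a7415_coI.Point
import Pool.Agent.Lib.MP_4a7415_coI.Good12
import Pool.Agent.Lib.MP_4a7415_coI.Real

/-! # Step 6: the integral theorem (row P) -/

namespace Pool.Agent.MP4a7415

open Finset Filter

/-- The divisibility conditions. -/
def Divi (n q r : ℕ) (v : Finset (Fin n) → ℕ) : Prop := ∀ T : Finset (Fin n), T.card < r →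
  bb q r T.card ∣ ∑ R ∈ (Blk n r).filter (fun R => T ⊆ R), v R

/-- Extension by zero. -/
noncomputable def extz {n r : ℕ} (y : {R // R ∈ Blk n r} → ℝ) (R : Finset (Fin n)) : ℝ := by
  classical
  exact if h : R ∈ Blk n r then y ⟨R, h⟩ else 0

theorem extz_mem {n r : ℕ} (y : {R // R ∈ Blk n r} → ℝ) {R : Finset (Fin n)} (h : R ∈ Blk n r) :
    extz y R = y ⟨R, h⟩ := dif_pos h

/-- The incidence matrix. -/
def incM {n : ℕ} (r : ℕ) (G : Finset (Finset (Fin n))) (R : {R // R ∈ Blk n r})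
    (e : {e // e ∈ G}) : ℤ := if (R : Finset (Fin n)) ⊆ e then 1 else 0

theorem psub_eq {n r : ℕ} (e : Finset (Fin n)) :
    powersetCard r e = (Blk n r).filter fun R => R ⊆ e := by
  ext R
  simp only [mem_powersetCard, mem_filter, subset_univ, true_and]
  exact and_comm

theorem ev_eq_sum {n r : ℕ} (y : Finset (Fin n) → ℝ) (e : Finset (Fin n)) :
    ev r y e = ∑ R ∈ Blk n r, if R ⊆ e then y R else 0 := by
  rw [ev, psub_eq, sum_filter]

theorem Lm_incM {n r : ℕ} (G : Finset (Finset (Fin n))) (y : {R // R ∈ Blk n r} → ℝ)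
    (e : {e // e ∈ G}) : Lm (incM r G) y e = ev r (extz y) e := by
  classical
  rw [Lm, ev_eq_sum, ← sum_attach (Blk n r)]
  rw [← univ_eq_attach]
  refine sum_congr rfl fun R _ => ?_
  rw [extz_mem y R.2, incM]
  split_ifs <;> simp

theorem ev_congr {n r : ℕ} {y y' : Finset (Fin n) → ℝ} (h : ∀ R ∈ Blk n r, y R = y' R)
    (e : Finset (Fin n)) : ev r y e = ev r y' e := by
  rw [ev_eq_sum, ev_eq_sum]
  refine sum_congr rfl fun R hR => ?_
  rw [h R hR]

theorem ev_sub {n r : ℕ} (y y' : Finset (Fin n) → ℝ) (e : Finset (Fin n)) :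
    ev r (fun R => y R - y' R) e = ev r y e - ev r y' e := by
  rw [ev, ev, ev, sum_sub_distrib]

theorem ev_add {n r : ℕ} (y y' : Finset (Fin n) → ℝ) (e : Finset (Fin n)) :
    ev r (fun R => y R + y' R) e = ev r y e + ev r y' e := by
  rw [ev, ev, ev, sum_add_distrib]

theorem ev_neg {n r : ℕ} (y : Finset (Fin n) → ℝ) (e : Finset (Fin n)) :
    ev r (fun R => - y R) e = - ev r y e := by
  rw [ev, ev, sum_neg_distrib]

/-- The period lattice. -/
noncomputable def LsG (n q r : ℕ) : AddSubgroup ({R // R ∈ Blk n r} → ℝ) where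
  carrier := {y | Lst n q r (extz y)}
  zero_mem' := by
    intro e _
    refine ⟨0, ?_⟩
    rw [ev, Int.cast_zero]
    refine sum_eq_zero fun R _ => ?_
    unfold extz
    split_ifs <;> rfl
  add_mem' := by
    intro y y' hy hy' e he
    obtain ⟨k, hk⟩ := hy e he
    obtain ⟨k', hk'⟩ := hy' e he
    refine ⟨k + k', ?_⟩
    rw [Int.cast_add, ← hk, ← hk', ← ev_add]
    refine ev_congr (fun R hR => ?_) e
    rw [extz_mem _ hR, extz_mem _ hR, extz_mem _ hR]
    rfl
  neg_mem' := by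
    intro y hy e he
    obtain ⟨k, hk⟩ := hy e he
    refine ⟨-k, ?_⟩
    rw [Int.cast_neg, ← hk, ← ev_neg]
    refine ev_congr (fun R hR => ?_) e
    rw [extz_mem _ hR, extz_mem _ hR]
    rfl

theorem mem_LsG {n q r : ℕ} (y : {R // R ∈ Blk n r} → ℝ) :
    y ∈ LsG n q r ↔ Lst n q r (extz y) := Iff.rfl

theorem dZ_sub_int (x : ℝ) (k : ℤ) : dZ (x - k) = dZ x := by
  rw [dZ, dZ, round_sub_intCast]
  congr 1
  push_cast
  ring

/-- The squares of the block sums. -/
theorem sum_ev_sq {n q r : ℕ} {G : Finset (Finset (Fin n))} (hG : G ⊆ Blk n q) {b : ℝ}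
    (hdeg : ∀ R ∈ Blk n r, ((G.filter (fun e => R ⊆ e)).card : ℝ) ≤ b)
    (y : Finset (Fin n) → ℝ) :
    ∑ e ∈ G, ev r y e ^ 2 ≤ q.choose r * b * ∑ R ∈ Blk n r, y R ^ 2 := by
  classical
  have h1 : ∀ e ∈ G, ev r y e ^ 2 ≤ q.choose r * ∑ R ∈ Blk n r, if R ⊆ e then y R ^ 2 else 0 := by
    intro e he
    have hc := (mem_powersetCard.1 (hG he)).2
    have h2 := sq_sum_le_card_mul_sum_sq (s := powersetCard r e) (f := y)
    rw [card_powersetCard, hc] at h2
    rw [← sum_filter, ← psub_eq]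
    exact h2
  refine (sum_le_sum h1).trans ?_
  rw [← mul_sum, mul_assoc]
  refine mul_le_mul_of_nonneg_left ?_ (Nat.cast_nonneg _)
  rw [sum_comm, mul_sum]
  refine sum_le_sum fun R hR => ?_
  rw [← sum_filter, sum_const, nsmul_eq_mul]
  exact mul_le_mul_of_nonneg_right (hdeg R hR) (sq_nonneg _)

/-- The period lattice satisfies the hypotheses. -/
theorem per_of_good {n q r : ℕ} (hqr : r ≤ q) (hn : q + r ≤ n) {G : Finset (Finset (Fin n))}
    (hG : G ⊆ Blk n q) {D κ : ℝ} (hκ : 0 < κ)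
    (hdeg : ∀ R ∈ Blk n r, ((G.filter (fun e => R ⊆ e)).card : ℝ) ≤ 2 * D)
    (hTC : ∀ y : Finset (Fin n) → ℝ, Min n q r y →
      κ * D * ∑ R ∈ Blk n r, y R ^ 2 ≤ ∑ e ∈ G, dZ (ev r y e) ^ 2) :
    Per (incM r G) (LsG n q r) (max 1 (2 * q.choose r / κ)) := by
  classical
  refine ⟨?_, ?_, le_max_left _ _, ?_⟩
  · intro a
    rw [mem_LsG]
    intro e _
    refine ⟨∑ R ∈ (Blk n r).attach, if (R : Finset (Fin n)) ⊆ e then a R else 0, ?_⟩
    rw [ev_eq_sum, ← sum_attach (Blk n r)]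
    push_cast
    refine sum_congr rfl fun R _ => ?_
    rw [extz_mem _ R.2]
  · intro y hy e
    rw [Lm_incM]
    exact hy e (hG e.2)
  · intro y
    obtain ⟨y0, h0, hmin⟩ := exists_Min hqr hn (extz y)
    refine ⟨fun R => y0 R, ?_, ?_⟩
    · rw [mem_LsG]
      intro e he
      obtain ⟨k, hk⟩ := h0 e he
      refine ⟨k, ?_⟩
      rw [← hk]
      exact ev_congr (fun R hR => extz_mem _ hR) _
    · have e1 : ∀ e : {e // e ∈ G}, Lm (incM r G) y e - Lm (incM r G) (fun R => y0 R) e =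
          ev r (fun R => extz y R - y0 R) e := by
        intro e
        rw [Lm_incM, Lm_incM, ev_sub]
        congr 1
        exact ev_congr (fun R hR => extz_mem _ hR) _
      have e2 : ∑ e : {e // e ∈ G}, (Lm (incM r G) y e - Lm (incM r G) (fun R => y0 R) e) ^ 2 =
          ∑ e ∈ G, ev r (fun R => extz y R - y0 R) e ^ 2 := by
        rw [← sum_attach G, ← univ_eq_attach]
        exact sum_congr rfl fun e _ => by rw [e1]
      have e3 : ∑ e : {e // e ∈ G}, dZ (Lm (incM r G) y e) ^ 2 =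
          ∑ e ∈ G, dZ (ev r (fun R => extz y R - y0 R) e) ^ 2 := by
        rw [← sum_attach G, ← univ_eq_attach]
        refine sum_congr rfl fun e _ => ?_
        rw [Lm_incM, ev_sub]
        obtain ⟨k, hk⟩ := h0 e (hG e.2)
        rw [hk, dZ_sub_int]
      rw [e2, e3]
      have h1 := sum_ev_sq hG hdeg (fun R => extz y R - y0 R)
      have h2 := hTC _ hmin
      obtain ⟨u, hu⟩ : ∃ u, u = ∑ R ∈ Blk n r, (extz y R - y0 R) ^ 2 := ⟨_, rfl⟩
      obtain ⟨s, hs⟩ : ∃ s, s = ∑ e ∈ G, dZ (ev r (fun R => extz y R - y0 R) e) ^ 2 := ⟨_, rfl⟩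
      rw [← hu] at h1 h2
      rw [← hs] at h2 ⊢
      have hs0 : 0 ≤ s := by
        rw [hs]
        exact sum_nonneg fun _ _ => sq_nonneg _
      refine h1.trans ?_
      have h3 : (q.choose r : ℝ) * (2 * D) * u ≤ 2 * q.choose r / κ * s := by
        rw [div_mul_eq_mul_div, le_div_iff₀ hκ]
        have : (2 * (q.choose r : ℝ)) * (κ * D * u) ≤ 2 * q.choose r * s :=
          mul_le_mul_of_nonneg_left h2 (by positivity)
        linarith
      exact h3.trans (mul_le_mul_of_nonneg_right (le_max_right _ _) hs0)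

/-- The deterministic statement. -/
theorem design_of_good {n q r : ℕ} (hqr : r ≤ q) (hq2 : 2 ≤ q) (hn : q + r ≤ n) (hn3 : 3 ≤ n)
    {G : Finset (Finset (Fin n))}
    (hG : G ⊆ Blk n q) {D κ ε : ℝ} (hD : 0 < D) (hκ : 0 < κ) (hε : 0 < ε) (hε1 : ε ≤ 1)
    (hdeg : ∀ R ∈ Blk n r, ((G.filter (fun e => R ⊆ e)).card : ℝ) ≤ 2 * D)
    (hTC : ∀ y : Finset (Fin n) → ℝ, Min n q r y →
      κ * D * ∑ R ∈ Blk n r, y R ^ 2 ≤ ∑ e ∈ G, dZ (ev r y e) ^ 2)
    {lam : ℝ} (hlam0 : 0 < lam) {v : Finset (Fin n) → ℕ}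
    {w : Finset (Fin n) → ℝ} (hw1 : ∀ e, |w e - 1 / D| ≤ ε / 2 / D)
    (hw2 : ∀ R ∈ Blk n r, ∑ e ∈ G with R ⊆ e, w e = v R / lam)
    (hlam : ∀ y : Finset (Fin n) → ℝ, Lst n q r y →
      ∃ k : ℤ, ∑ R ∈ Blk n r, (v R : ℝ) * y R = k)
    (hbig : 2 / ε * (4 * max 1 (2 * q.choose r / κ) * (4 + q)) * (D * Real.log n) ≤ lam) :
    ∃ W : Finset (Fin n) → ℕ,
      (∀ R : Finset (Fin n), R.card = r → ∑ e ∈ G with R ⊆ e, W e = v R) ∧
      ∀ e ∈ G, |(W e : ℝ) * D - lam| ≤ ε * lam := by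
  classical
  have hP := per_of_good hqr hn hG hκ hdeg hTC
  obtain ⟨C0, hC0⟩ : ∃ C0, C0 = max 1 (2 * (q.choose r : ℝ) / κ) := ⟨_, rfl⟩
  rw [← hC0] at hP hbig
  have hC01 : 1 ≤ C0 := by
    rw [hC0]
    exact le_max_left _ _
  obtain ⟨x, hx1, hx2⟩ := lattice_point hP (fun R => (v R : ℤ)) (by
    intro y hy
    obtain ⟨k, hk⟩ := hlam (extz y) hy
    refine ⟨k, ?_⟩
    rw [← hk, ← sum_attach (Blk n r), ← univ_eq_attach]
    push_cast
    exact sum_congr rfl fun R _ => by rw [extz_mem y R.2]) (fun e => lam * w e) (by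
    intro R
    have h1 := hw2 R R.2
    have h2 : ∑ e : {e // e ∈ G}, ((incM r G R e : ℤ) : ℝ) * (lam * w e) =
        lam * ∑ e ∈ G with (R : Finset (Fin n)) ⊆ e, w e := by
      rw [sum_filter, ← sum_attach G, ← univ_eq_attach, mul_sum]
      refine sum_congr rfl fun e _ => ?_
      rw [incM]
      split_ifs <;> simp
    rw [h2, h1, mul_div_cancel₀ _ hlam0.ne']
    simp)
  -- the size of the error
  have hl0 : 0 < Real.log n := Real.log_pos (by exact_mod_cast (by omega : 1 < n))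
  have hl1 : 1 ≤ Real.log n := by
    rw [Real.le_log_iff_exp_le (by positivity)]
    have : (3 : ℝ) ≤ n := by exact_mod_cast hn3
    have h2 := Real.exp_one_lt_d9
    linarith
  have hcard : (Fintype.card {e // e ∈ G} : ℝ) + 1 ≤ (n : ℝ) ^ q := by
    rw [Fintype.card_coe]
    have h1 : G.card ≤ n.choose q := by
      have := card_le_card hG
      rwa [card_powersetCard, card_univ, Fintype.card_fin] at this
    have h2 := choose_succ_le (n := n) (k := q) hq2 le_rfl (by omega)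
    exact_mod_cast (by omega : G.card + 1 ≤ n ^ q)
  obtain ⟨T, hT⟩ : ∃ T, T = 4 * C0 * (4 + Real.log (Fintype.card {e // e ∈ G} + 1)) := ⟨_, rfl⟩
  have hTle : T ≤ 4 * C0 * (4 + q) * Real.log n := by
    have h1 : Real.log (Fintype.card {e // e ∈ G} + 1) ≤ q * Real.log n := by
      rw [← Real.log_pow]
      exact Real.log_le_log (by positivity) hcard
    rw [hT, mul_assoc (4 * C0)]
    refine mul_le_mul_of_nonneg_left ?_ (by positivity)
    linarith
  have hTD : T * D ≤ ε / 2 * lam := by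
    have h1 : 2 / ε * (4 * C0 * (4 + q)) * (D * Real.log n) =
        2 / ε * (4 * C0 * (4 + q) * Real.log n * D) := by ring
    rw [h1, div_mul_eq_mul_div, div_le_iff₀ hε] at hbig
    have h2 := mul_le_mul_of_nonneg_right hTle hD.le
    linarith
  have hxe : ∀ e : {e // e ∈ G}, |(x e : ℝ) * D - lam| ≤ ε * lam := by
    intro e
    have h1 := hx2 e
    rw [← hT] at h1
    have h2 := hw1 e
    have h3 : (x e : ℝ) * D - lam = (x e - lam * w e) * D + lam * ((w e - 1 / D) * D) := by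
      field_simp
      ring
    rw [h3]
    refine (abs_add_le _ _).trans ?_
    rw [abs_mul, abs_mul, abs_mul, abs_of_pos hD, abs_of_pos hlam0]
    have h4 : |(x e : ℝ) - lam * w e| * D ≤ T * D := mul_le_mul_of_nonneg_right h1 hD.le
    have h5 : |w e - 1 / D| * D ≤ ε / 2 := by
      have := mul_le_mul_of_nonneg_right h2 hD.le
      rwa [div_mul_cancel₀ _ hD.ne'] at this
    have h6 : lam * (|w e - 1 / D| * D) ≤ lam * (ε / 2) :=
      mul_le_mul_of_nonneg_left h5 hlam0.le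
    linarith
  have hx0 : ∀ e : {e // e ∈ G}, 0 ≤ x e := by
    intro e
    by_contra hc
    push Not at hc
    have h1 := (abs_le.1 (hxe e)).1
    have h2 : (x e : ℝ) ≤ -1 := by exact_mod_cast (by omega : x e ≤ -1)
    have h3 : (x e : ℝ) * D ≤ -1 * D := mul_le_mul_of_nonneg_right h2 hD.le
    have h4 : ε * lam ≤ 1 * lam := mul_le_mul_of_nonneg_right hε1 hlam0.le
    linarith
  refine ⟨fun e => if h : e ∈ G then (x ⟨e, h⟩).toNat else 0, ?_, ?_⟩
  · intro R hR
    have hRB : R ∈ Blk n r := mem_powersetCard.2 ⟨subset_univ _, hR⟩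
    have h1 := hx1 ⟨R, hRB⟩
    have h2 : ((∑ e ∈ G with R ⊆ e, (if h : e ∈ G then (x ⟨e, h⟩).toNat else 0) : ℕ) : ℤ) =
        ∑ e : {e // e ∈ G}, incM r G ⟨R, hRB⟩ e * x e := by
      rw [sum_filter, ← sum_attach G, ← univ_eq_attach, Nat.cast_sum]
      refine sum_congr rfl fun e _ => ?_
      rw [incM, dif_pos e.2]
      simp only
      split_ifs
      · rw [Int.toNat_of_nonneg (hx0 e), one_mul]
      · simp
    rw [h1] at h2
    exact_mod_cast h2
  · intro e he
    simp only [dif_pos he]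
    have h1 : (((x ⟨e, he⟩).toNat : ℕ) : ℝ) = (x ⟨e, he⟩ : ℝ) := by
      have := Int.toNat_of_nonneg (hx0 ⟨e, he⟩)
      exact_mod_cast this
    rw [h1]
    exact hxe ⟨e, he⟩

theorem int_bound {q r : ℕ} (hr : 1 ≤ r) (hqr : r < q) {ε : ℝ} (hε : 0 < ε) :
    ∃ C : ℝ, 0 < C ∧ ∃ δ : ℝ, 0 < δ ∧ ∃ k : ℝ, ∀ᶠ n : ℕ in atTop, ∀ p : ℝ, p ≤ 1 →
      C * (Real.log n / (n : ℝ) ^ (q - r)) ≤ p →
      1 - k / (n : ℝ) ≤ PrE (Blk n q) p {G | ∀ lam : ℝ,
        C * (p * (n - r).choose (q - r) * Real.log n) ≤ lam → ∀ v : Finset (Fin n) → ℕ,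
        Divi n q r v → (∀ R ∈ Blk n r, |(v R : ℝ) - lam| ≤ δ * lam) →
        ∃ W : Finset (Fin n) → ℕ,
        (∀ R : Finset (Fin n), R.card = r → ∑ e ∈ G with R ⊆ e, W e = v R) ∧
        ∀ e ∈ G, |(W e : ℝ) * (p * (n - r).choose (q - r)) - lam| ≤ ε * lam} := by
  have hc0 : (0 : ℝ) < c0 q r := by exact_mod_cast c0_pos hqr.le
  have hB : (0 : ℝ) < cB q r := by exact_mod_cast cB_pos q r
  obtain ⟨ε1, hε1⟩ : ∃ ε1 : ℝ, ε1 = min ε 1 := ⟨_, rfl⟩
  have hε10 : 0 < ε1 := by
    rw [hε1]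
    exact lt_min hε one_pos
  have hε11 : ε1 ≤ 1 := by
    rw [hε1]
    exact min_le_right _ _
  have hε12 : ε1 ≤ ε := by
    rw [hε1]
    exact min_le_left _ _
  obtain ⟨δ, hδ⟩ : ∃ δ : ℝ, δ = ε1 / (64 * cB q r * c0 q r) := ⟨_, rfl⟩
  have hδ0 : 0 < δ := by
    rw [hδ]
    positivity
  have hδ1 : δ ≤ 1 := by
    rw [hδ]
    have h1 : (1 : ℝ) ≤ cB q r := by exact_mod_cast cB_pos q r
    have h2 : (1 : ℝ) ≤ c0 q r := by exact_mod_cast c0_pos hqr.le
    have h3 : (1 : ℝ) ≤ cB q r * c0 q r := one_le_mul_of_one_le_of_one_le h1 h2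
    rw [div_le_iff₀ (by positivity)]
    nlinarith
  obtain ⟨K, c, κ, hc, hκ, hTC⟩ := torus_coer q r hr hqr
  obtain ⟨C3, hC3, h3⟩ := good3_prob q r K hr hqr c hc
  obtain ⟨C1, hC1, h12⟩ := good12_prob hr hqr hδ0 (by linarith)
  obtain ⟨C4, hC4⟩ : ∃ C4 : ℝ, C4 = 2 / ε1 * (4 * max 1 (2 * q.choose r / κ) * (4 + q)) :=
    ⟨_, rfl⟩
  refine ⟨max (max C1 C3) C4, lt_max_of_lt_left (lt_max_of_lt_left hC1), δ, hδ0, 4, ?_⟩
  filter_upwards [hTC, h3, h12, phase_gen q r hr hqr, eventually_ge_atTop (2 * q + 3)] with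
    n hTC h3 h12 hph hn p hp1 hp
  have hn0 : (0 : ℝ) < n := by exact_mod_cast (by omega : 0 < n)
  have hl0 : 0 < Real.log n := Real.log_pos (by exact_mod_cast (by omega : 1 < n))
  have hx0 : 0 < Real.log n / (n : ℝ) ^ (q - r) := by positivity
  have hp1' : C1 * (Real.log n / (n : ℝ) ^ (q - r)) ≤ p :=
    (mul_le_mul_of_nonneg_right ((le_max_left _ _).trans (le_max_left _ _)) hx0.le).trans hp
  have hp3' : C3 * (Real.log n / (n : ℝ) ^ (q - r)) ≤ p :=
    (mul_le_mul_of_nonneg_right ((le_max_right _ _).trans (le_max_left _ _)) hx0.le).trans hp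
  have hp0 : 0 < p := lt_of_lt_of_le (mul_pos hC1 hx0) hp1'
  have hb1 := h12 p hp1 hp1'
  have hb3 := h3 p hp1 hp3'
  obtain ⟨D, hD⟩ : ∃ D, D = p * ((n - r).choose (q - r) : ℝ) := ⟨_, rfl⟩
  have hD0 : 0 < D := by
    rw [hD]
    refine mul_pos hp0 ?_
    exact_mod_cast Nat.choose_pos (by omega)
  rw [← hD]
  have hbad : PrE (Blk n q) p {G | ∀ lam : ℝ,
        max (max C1 C3) C4 * (D * Real.log n) ≤ lam → ∀ v : Finset (Fin n) → ℕ,
        Divi n q r v → (∀ R ∈ Blk n r, |(v R : ℝ) - lam| ≤ δ * lam) →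
        ∃ W : Finset (Fin n) → ℕ,
        (∀ R : Finset (Fin n), R.card = r → ∑ e ∈ G with R ⊆ e, W e = v R) ∧
        ∀ e ∈ G, |(W e : ℝ) * D - lam| ≤ ε * lam}ᶜ ≤ 4 / n := by
    refine (PrE_mono hp0.le hp1
      (B := {G | ¬ (Good1 n q r (2 * cL q r) p G ∧ Good2 n q r p δ G)} ∪
      {G | ¬ Good3 n q r K c p G}) ?_).trans ((PrE_union hp0.le hp1 _ _).trans ?_)
    · intro G hGq hG
      by_contra hcon
      rw [Set.mem_union, not_or] at hcon
      obtain ⟨hG1, hG2⟩ := not_not.1 hcon.1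
      have hG3 : Good3 n q r K c p G := not_not.1 hcon.2
      refine hG fun lam hbig v hv hvl => ?_
      have hlam0 : 0 < lam := by
        refine lt_of_lt_of_le ?_ hbig
        exact mul_pos (lt_max_of_lt_left (lt_max_of_lt_left hC1)) (mul_pos hD0 hl0)
      have hco : ∀ y : Finset (Fin n) → ℝ,
          (1 / (8 * cB q r * c0 q r)) * D * ∑ R ∈ Blk n r, |y R| ≤ ∑ e ∈ G, |ev r y e| := by
        intro y
        have h1 := coer hqr.le (by omega) hp0.le hG1 y
        rw [← hD] at h1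
        have h2 : (1 / (8 * cB q r * c0 q r)) * D * ∑ R ∈ Blk n r, |y R| =
            (D * ∑ R ∈ Blk n r, |y R|) / (8 * cB q r * c0 q r) := by ring
        rw [h2, div_le_iff₀ (by positivity)]
        linarith
      have hdeg : ∀ R ∈ Blk n r, |((G.filter (fun e => R ⊆ e)).card : ℝ) - D| ≤ δ * D := by
        intro R hR
        have h1 := hG2 R hR
        rw [← hD] at h1
        have h2 : G ∩ (Blk n q).filter (fun e => R ⊆ e) = G.filter (fun e => R ⊆ e) := by
          ext e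
          simp only [mem_inter, mem_filter]
          constructor
          · rintro ⟨h3, -, h4⟩
            exact ⟨h3, h4⟩
          · rintro ⟨h3, h4⟩
            exact ⟨h3, hGq h3, h4⟩
        rw [h2] at h1
        exact h1
      obtain ⟨w, hw1, hw2⟩ := exists_real_gen (fun R => (v R : ℝ) / lam) hD0
        (c := 1 / (8 * cB q r * c0 q r))
        (δ := 2 * δ) (ε := ε1 / 2) (by
          have h3 : 1 / (8 * (cB q r : ℝ) * c0 q r) * (ε1 / 2) = 4 * δ := by
            rw [hδ]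
            field_simp
            ring
          rw [h3]
          linarith) (by linarith) hco (by
          intro R hR
          have h1 := hdeg R hR
          have h2 := hvl R hR
          have h3 : |D - D * ((v R : ℝ) / lam)| ≤ δ * D := by
            have e1 : D - D * ((v R : ℝ) / lam) = -(D / lam * ((v R : ℝ) - lam)) := by
              field_simp
              ring
            rw [e1, abs_neg, abs_mul, abs_of_pos (div_pos hD0 hlam0)]
            calc D / lam * |(v R : ℝ) - lam| ≤ D / lam * (δ * lam) :=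
                  mul_le_mul_of_nonneg_left h2 (div_pos hD0 hlam0).le
              _ = δ * D := by field_simp
          have h4 := abs_add_le (((G.filter (fun e => R ⊆ e)).card : ℝ) - D)
            (D - D * ((v R : ℝ) / lam))
          rw [sub_add_sub_cancel] at h4
          linarith)
      obtain ⟨W, hW1, hW2⟩ := design_of_good hqr.le (by omega) (by omega) (by omega) hGq hD0 hκ
        hε10 hε11 (fun R hR => by
          have h1 := (abs_le.1 (hdeg R hR)).2
          have h2 : δ * D ≤ 1 * D := mul_le_mul_of_nonneg_right hδ1 hD0.le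
          linarith) (fun y hy => by
          have := hTC p hp0.le G hG3 y hy
          rw [← hD] at this
          exact this) hlam0 hw1 hw2 (fun y hy => by
          obtain ⟨k, hk⟩ := hph y hy (fun R => (v R : ℤ)) (fun T hT => by
            have := hv T hT
            exact_mod_cast this)
          exact ⟨k, by exact_mod_cast hk⟩) (by
          rw [← hC4]
          exact (mul_le_mul_of_nonneg_right (le_max_right _ _)
            (mul_nonneg hD0.le hl0.le)).trans hbig)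
      exact ⟨W, hW1, fun e he => (hW2 e he).trans
        (mul_le_mul_of_nonneg_right hε12 hlam0.le)⟩
    · have : (4 : ℝ) / n = 3 / n + 1 / n := by ring
      linarith
  have hcompl := PrE_compl (Blk n q) p {G | ∀ lam : ℝ,
        max (max C1 C3) C4 * (D * Real.log n) ≤ lam → ∀ v : Finset (Fin n) → ℕ,
        Divi n q r v → (∀ R ∈ Blk n r, |(v R : ℝ) - lam| ≤ δ * lam) →
        ∃ W : Finset (Fin n) → ℕ,
        (∀ R : Finset (Fin n), R.card = r → ∑ e ∈ G with R ⊆ e, W e = v R) ∧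
        ∀ e ∈ G, |(W e : ℝ) * D - lam| ≤ ε * lam}
  linarith

end Pool.Agent.MP4a7415
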