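import Pool.Agent.Lib.MP_4a7415_coI.Defs

/-! # Step 1: integral formal points (row A) -/

namespace Pool.Agent.MP4a7415

open Finset

/-- `k` is the value at the empty set of an integral solution of the sum conditions. -/
def FPA (q : ℕ) (k : ℤ) : Prop := ∃ w A : ℕ, ∀ (n : ℕ) (W : Finset (Fin n)), w ≤ W.card →
  ∃ c : Finset (Fin n) → ℤ, c ∅ = k ∧ (∀ S ⊆ W, ∀ m, S.card ≤ m → m ≤ q →
    ∑ S' ∈ (powersetCard m W).filter (fun S' => S ⊆ S'), c S' = (m.choose S.card : ℤ) * c S) ∧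
    ∀ S, |c S| ≤ A

theorem FPA_zero (q : ℕ) : FPA q 0 :=
  ⟨0, 0, fun n W _ => ⟨fun _ => 0, rfl, fun S _ m _ _ => by simp, fun S => by simp⟩⟩

theorem FPA_add {q : ℕ} {a b : ℤ} (ha : FPA q a) (hb : FPA q b) : FPA q (a + b) := by
  obtain ⟨w1, A1, h1⟩ := ha
  obtain ⟨w2, A2, h2⟩ := hb
  refine ⟨max w1 w2, A1 + A2, fun n W hW => ?_⟩
  obtain ⟨c1, e1, s1, b1⟩ := h1 n W ((le_max_left _ _).trans hW)
  obtain ⟨c2, e2, s2, b2⟩ := h2 n W ((le_max_right _ _).trans hW)
  refine ⟨fun S => c1 S + c2 S, by beta_reduce; rw [e1, e2], fun S hS m hm hq => ?_, fun S => ?_⟩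
  · rw [sum_add_distrib, s1 S hS m hm hq, s2 S hS m hm hq]
    ring
  · have h3 := b1 S
    have h4 := b2 S
    push_cast
    exact (abs_add_le _ _).trans (add_le_add h3 h4)

theorem FPA_neg {q : ℕ} {a : ℤ} (ha : FPA q a) : FPA q (-a) := by
  obtain ⟨w1, A1, h1⟩ := ha
  refine ⟨w1, A1, fun n W hW => ?_⟩
  obtain ⟨c1, e1, s1, b1⟩ := h1 n W hW
  refine ⟨fun S => - c1 S, by beta_reduce; rw [e1], fun S hS m hm hq => ?_, fun S => ?_⟩
  · rw [sum_neg_distrib, s1 S hS m hm hq]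
    ring
  · rw [abs_neg]
    exact b1 S

theorem FPA_base {q N : ℕ} (hN : q ≤ N) {k : ℤ} (hk : ∀ m ≤ q, ((N.choose m : ℕ) : ℤ) ∣ k) :
    FPA q k := by
  refine ⟨N, k.natAbs, fun n W hW => ?_⟩
  obtain ⟨W', hW', hcard⟩ := exists_subset_card_eq hW
  refine ⟨fun S => if S ⊆ W' then k / ((N.choose S.card : ℕ) : ℤ) else 0, ?_,
    fun S hS m hm hq => ?_, fun S => ?_⟩
  · simp
  · beta_reduce
    by_cases hSW : S ⊆ W'
    · rw [if_pos hSW, sum_filter]
      have h1 : ∑ S' ∈ powersetCard m W, (if S ⊆ S' then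
          (if S' ⊆ W' then k / ((N.choose S'.card : ℕ) : ℤ) else 0) else 0) =
          ∑ S' ∈ (powersetCard m W').filter (fun S' => S ⊆ S'), k / ((N.choose m : ℕ) : ℤ) := by
        rw [sum_filter]
        refine (sum_subset_zero_on_sdiff (powersetCard_mono hW') ?_ ?_).symm
        · intro S' hS'
          rw [mem_sdiff, mem_powersetCard, mem_powersetCard] at hS'
          have h2 : ¬ S' ⊆ W' := fun h => hS'.2 ⟨h, hS'.1.2⟩
          rw [if_neg h2, ite_self]
        · intro S' hS'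
          rw [mem_powersetCard] at hS'
          rw [if_pos hS'.1, hS'.2]
      rw [h1, sum_const, card_sup hSW hm, hcard, nsmul_eq_mul]
      obtain ⟨km, hkm⟩ := hk m hq
      obtain ⟨ks, hks⟩ := hk S.card (hm.trans hq)
      have hpm : ((N.choose m : ℕ) : ℤ) ≠ 0 := by
        have := Nat.choose_pos (hq.trans hN)
        exact_mod_cast this.ne'
      have hps : ((N.choose S.card : ℕ) : ℤ) ≠ 0 := by
        have := Nat.choose_pos ((hm.trans hq).trans hN)
        exact_mod_cast this.ne'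
      have e1 : k / ((N.choose m : ℕ) : ℤ) = km := by
        rw [hkm]
        exact Int.mul_ediv_cancel_left _ hpm
      have e2 : k / ((N.choose S.card : ℕ) : ℤ) = ks := by
        rw [hks]
        exact Int.mul_ediv_cancel_left _ hps
      rw [e1, e2]
      have h3 : ((N.choose m : ℕ) : ℤ) * ((m.choose S.card : ℕ) : ℤ) =
          ((N.choose S.card : ℕ) : ℤ) * (((N - S.card).choose (m - S.card) : ℕ) : ℤ) := by
        exact_mod_cast Nat.choose_mul hm
      have h4 : ((N.choose S.card : ℕ) : ℤ) *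
          ((((N - S.card).choose (m - S.card) : ℕ) : ℤ) * km) =
          ((N.choose S.card : ℕ) : ℤ) * (((m.choose S.card : ℕ) : ℤ) * ks) := by
        linear_combination (-km) * h3 + ((m.choose S.card : ℕ) : ℤ) * (hks - hkm)
      exact mul_left_cancel₀ hps h4
    · rw [if_neg hSW, mul_zero]
      refine sum_eq_zero fun S' hS' => ?_
      rw [mem_filter] at hS'
      exact if_neg fun h => hSW (hS'.2.trans h)
  · by_cases hSW : S ⊆ W'
    · simp only [if_pos hSW]
      rw [Int.abs_eq_natAbs]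
      exact_mod_cast Int.natAbs_ediv_le_natAbs _ _
    · simp [if_neg hSW]

/-- `C(l^a - 1, m)` is prime to `l`. -/
theorem not_dvd_choose_pred {l a : ℕ} (hl : l.Prime) (m : ℕ) (hm : m ≤ l ^ a - 1) :
    ¬ l ∣ (l ^ a - 1).choose m := by
  have hpos : 0 < l ^ a := pow_pos hl.pos a
  induction m with
  | zero =>
    rw [Nat.choose_zero_right]
    exact fun h => hl.one_lt.ne' (Nat.dvd_one.1 h)
  | succ m ih =>
    intro h
    apply ih (by omega)
    have h1 : (l ^ a).choose (m + 1) =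
        (l ^ a - 1).choose m + (l ^ a - 1).choose (m + 1) := by
      obtain ⟨N, hN⟩ : ∃ N, l ^ a = N + 1 := ⟨l ^ a - 1, by omega⟩
      rw [hN, Nat.add_sub_cancel]
      exact Nat.choose_succ_succ _ _
    have h2 : l ∣ (l ^ a).choose (m + 1) :=
      hl.dvd_choose_pow (by omega) (by omega)
    rw [h1] at h2
    exact (Nat.dvd_add_left h).1 h2

theorem FPA_one (q : ℕ) : FPA q 1 := by
  let H : AddSubgroup ℤ :=
    { carrier := {k | FPA q k}
      add_mem' := fun ha hb => FPA_add ha hb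
      zero_mem' := FPA_zero q
      neg_mem' := fun ha => FPA_neg ha }
  obtain ⟨g, hg⟩ : ∃ g, H = AddSubgroup.zmultiples g := by
    obtain ⟨g, hg⟩ := Int.subgroup_cyclic H
    exact ⟨g, by rw [hg, AddSubgroup.zmultiples_eq_closure]⟩
  have hdvd : ∀ k, FPA q k → g ∣ k := by
    intro k hk
    have h1 : k ∈ H := hk
    rw [hg] at h1
    exact Int.mem_zmultiples_iff.1 h1
  have hunit : IsUnit g := by
    by_contra hnu
    obtain ⟨l, hl, hlg⟩ := Nat.exists_prime_and_dvd (n := g.natAbs)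
      (fun h => hnu (Int.isUnit_iff_natAbs_eq.2 h))
    have hN : q ≤ l ^ (q + 1) - 1 := by
      have : q + 1 < l ^ (q + 1) := Nat.lt_pow_self hl.one_lt
      omega
    have h1 := FPA_base hN (k := ∏ m ∈ range (q + 1), (((l ^ (q + 1) - 1).choose m : ℕ) : ℤ))
      (fun m hm => dvd_prod_of_mem _ (mem_range.2 (by omega)))
    have h2 : (l : ℤ) ∣ ∏ m ∈ range (q + 1), (((l ^ (q + 1) - 1).choose m : ℕ) : ℤ) :=
      (Int.natCast_dvd.2 hlg).trans (hdvd _ h1)
    rw [(Nat.prime_iff_prime_int.1 hl).dvd_finsetProd_iff] at h2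
    obtain ⟨m, hm, hm'⟩ := h2
    have h3 : l ∣ (l ^ (q + 1) - 1).choose m := by exact_mod_cast hm'
    have h4 := mem_range.1 hm
    exact not_dvd_choose_pred hl m (by omega) h3
  have h1 : (1 : ℤ) ∈ H := by
    rw [hg]
    exact Int.mem_zmultiples_iff.2 hunit.dvd
  exact h1

/-- For every degree `q` there is an integral formal point on `w` vertices, with bounded
coefficients. -/
theorem formal_point (q : ℕ) : ∃ w A : ℕ, q ≤ w ∧ 1 ≤ w ∧ ∀ (n : ℕ) (W : Finset (Fin n)),
    W.card = w → ∃ c : Finset (Fin n) → ℤ, FP n q W c ∧ ∀ S, |c S| ≤ A := by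
  obtain ⟨w, A, h⟩ := FPA_one q
  refine ⟨max w (max q 1), A, by omega, by omega, fun n W hW => ?_⟩
  obtain ⟨c, h1, h2, h3⟩ := h n W (by omega)
  exact ⟨c, ⟨h1, h2⟩, h3⟩

end Pool.Agent.MP4a7415
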