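import Mathlib

/-! # Step 5: finite products of series (row L) -/

namespace Pool.Agent.MP4a7415

open Finset

theorem prod_tsum_fin {K : Type*} [NormedField K] [CompleteSpace K] {n : ℕ} (f : Fin n → ℤ → K)
    (hf : ∀ i, Summable fun z => ‖f i z‖) :
    (Summable fun z : Fin n → ℤ => ‖∏ i, f i (z i)‖) ∧
      ∏ i, ∑' z : ℤ, f i z = ∑' z : Fin n → ℤ, ∏ i, f i (z i) := by
  induction n with
  | zero =>
    refine ⟨summable_of_finite_support (Set.toFinite _), ?_⟩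
    simp
  | succ n ih =>
    obtain ⟨h1, h2⟩ := ih (fun i => f i.succ) (fun i => hf i.succ)
    have h3 : Summable fun x : ℤ × (Fin n → ℤ) => ‖f 0 x.1 * ∏ i, f i.succ (x.2 i)‖ :=
      (hf 0).mul_norm h1
    have h4 : ∀ x : ℤ × (Fin n → ℤ),
        ∏ i, f i (Fin.consEquiv (fun _ => ℤ) x i) = f 0 x.1 * ∏ i, f i.succ (x.2 i) := by
      intro x
      rw [Fin.prod_univ_succ]
      rfl
    constructor
    · rw [← (Fin.consEquiv (fun _ => ℤ)).summable_iff]
      refine h3.congr fun x => ?_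
      rw [Function.comp_apply, h4]
    · rw [Fin.prod_univ_succ, h2, tsum_mul_tsum_of_summable_norm (hf 0) h1,
        ← (Fin.consEquiv (fun _ => ℤ)).tsum_eq]
      exact tsum_congr fun x => (h4 x).symm

theorem prod_tsum_gen {ι : Type*} [Fintype ι] {K : Type*} [NormedField K] [CompleteSpace K]
    (f : ι → ℤ → K) (hf : ∀ i, Summable fun z => ‖f i z‖) :
    (Summable fun z : ι → ℤ => ‖∏ i, f i (z i)‖) ∧
      ∏ i, ∑' z : ℤ, f i z = ∑' z : ι → ℤ, ∏ i, f i (z i) := by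
  obtain ⟨h1, h2⟩ := prod_tsum_fin (fun i => f ((Fintype.equivFin ι).symm i)) (fun i => hf _)
  have h3 : ∀ z : ι → ℤ, ∏ i, f ((Fintype.equivFin ι).symm i)
      ((Equiv.arrowCongr (Fintype.equivFin ι) (Equiv.refl ℤ)) z i) = ∏ i, f i (z i) := by
    intro z
    exact Fintype.prod_equiv (Fintype.equivFin ι).symm _ _ (fun i => rfl)
  constructor
  · rw [← (Equiv.arrowCongr (Fintype.equivFin ι) (Equiv.refl ℤ)).summable_iff] at h1
    refine h1.congr fun z => ?_
    rw [Function.comp_apply, h3]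
  · rw [← (Equiv.arrowCongr (Fintype.equivFin ι) (Equiv.refl ℤ)).tsum_eq] at h2
    rw [← Fintype.prod_equiv (Fintype.equivFin ι).symm (fun i => ∑' z : ℤ,
      f ((Fintype.equivFin ι).symm i) z) (fun i => ∑' z : ℤ, f i z) (fun i => rfl), h2]
    exact tsum_congr fun z => h3 z

theorem prod_tsum {ι : Type*} [Fintype ι] (f : ι → ℤ → ℂ)
    (hf : ∀ i, Summable fun z => ‖f i z‖) :
    (Summable fun z : ι → ℤ => ‖∏ i, f i (z i)‖) ∧
      ∏ i, ∑' z : ℤ, f i z = ∑' z : ι → ℤ, ∏ i, f i (z i) := prod_tsum_gen f hf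

theorem prod_tsum_real {ι : Type*} [Fintype ι] (f : ι → ℤ → ℝ) (h0 : ∀ i z, 0 ≤ f i z)
    (hf : ∀ i, Summable fun z => f i z) :
    (Summable fun z : ι → ℤ => ∏ i, f i (z i)) ∧
      ∏ i, ∑' z : ℤ, f i z = ∑' z : ι → ℤ, ∏ i, f i (z i) := by
  obtain ⟨h1, h2⟩ := prod_tsum_gen f (fun i => (hf i).congr fun z => by
    rw [Real.norm_eq_abs, abs_of_nonneg (h0 i z)])
  refine ⟨h1.congr fun z => ?_, h2⟩
  rw [Real.norm_eq_abs, abs_of_nonneg (prod_nonneg fun i _ => h0 i (z i))]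

end Pool.Agent.MP4a7415
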