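import Mathlib

/-! # Step 5: one-dimensional theta functions (row K) -/

namespace Pool.Agent.MP4a7415

open Finset Complex

/-- The positive theta function. -/
noncomputable def th (a s : ℝ) : ℝ :=
  √a * ∑' z : ℤ, Real.exp (-(Real.pi * a * (s - z) ^ 2))

/-- Gaussian sums with a character converge. -/
theorem th_sumC {a : ℝ} (ha : 0 < a) (b : ℂ) :
    Summable fun n : ℤ => cexp (-Real.pi * a * n ^ 2 + 2 * Real.pi * b * n) := by
  have h1 : 0 < (I * a : ℂ).im := by simpa using ha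
  have h2 := (summable_jacobiTheta₂_term_iff (-I * b) (I * a)).2 h1
  refine h2.congr fun n => ?_
  rw [jacobiTheta₂_term]
  congr 1
  linear_combination (-2 * Real.pi * n * b + Real.pi * n ^ 2 * a) * I_sq

theorem th_summable {a : ℝ} (ha : 0 < a) (s : ℝ) :
    Summable fun z : ℤ => Real.exp (-(Real.pi * a * (s - z) ^ 2)) := by
  have h1 := ((th_sumC ha ((a * s : ℝ) : ℂ)).norm).mul_left (Real.exp (-(Real.pi * a * s ^ 2)))
  refine h1.congr fun n => ?_
  rw [Complex.norm_exp, ← Real.exp_add]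
  congr 1
  have h2 : (-(Real.pi : ℂ) * a * n ^ 2 + 2 * Real.pi * ((a * s : ℝ) : ℂ) * n) =
      ((-Real.pi * a * n ^ 2 + 2 * Real.pi * (a * s) * n : ℝ) : ℂ) := by
    push_cast
    ring
  rw [h2, ofReal_re]
  ring

/-- One half of the tail of a Gaussian. -/
theorem th_half {a : ℝ} (ha : 1 ≤ a) (μ : ℝ) (T : Finset ℤ) (hT : ∀ x ∈ T, a < (x : ℝ) - μ) :
    ∑ x ∈ T, Real.exp (-(Real.pi * (x - μ) ^ 2 / a)) ≤
      Real.exp (-(Real.pi * a)) * (1 - Real.exp (-(2 * Real.pi)))⁻¹ := by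
  classical
  have ha0 : 0 < a := by linarith
  set r : ℝ := Real.exp (-(2 * Real.pi)) with hr
  have hr0 : 0 ≤ r := (Real.exp_pos _).le
  have hr1 : r < 1 := by
    rw [hr, Real.exp_lt_one_iff]
    linarith [Real.pi_pos]
  set x0 : ℤ := ⌊μ + a⌋ + 1 with hx0
  have hx0' : μ + a < x0 := by
    rw [hx0]
    push_cast
    exact Int.lt_floor_add_one _
  have hge : ∀ x ∈ T, x0 ≤ x := by
    intro x hx
    have h1 := hT x hx
    rw [hx0, Int.add_one_le_iff, Int.floor_lt]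
    linarith
  have hterm : ∀ x ∈ T, Real.exp (-(Real.pi * (x - μ) ^ 2 / a)) ≤
      Real.exp (-(Real.pi * a)) * r ^ (x - x0).toNat := by
    intro x hx
    have h1 := hge x hx
    rw [hr, ← Real.exp_nat_mul, ← Real.exp_add, Real.exp_le_exp]
    have h2 : (((x - x0).toNat : ℕ) : ℝ) = (x : ℝ) - x0 := by
      have h3 : (((x - x0).toNat : ℕ) : ℤ) = x - x0 := Int.toNat_of_nonneg (by omega)
      have h4 : ((((x - x0).toNat : ℕ) : ℤ) : ℝ) = ((x - x0 : ℤ) : ℝ) := by rw [h3]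
      push_cast at h4
      exact h4
    rw [h2]
    have h3 : a + ((x : ℝ) - x0) ≤ x - μ := by linarith
    have h4 : 0 ≤ (x : ℝ) - x0 := by
      have : (x0 : ℝ) ≤ x := by exact_mod_cast h1
      linarith
    have h5 : a + 2 * ((x : ℝ) - x0) ≤ (x - μ) ^ 2 / a := by
      rw [le_div_iff₀ ha0]
      nlinarith [sq_nonneg ((x : ℝ) - x0), mul_nonneg h4 ha0.le]
    have h6 := mul_le_mul_of_nonneg_left h5 Real.pi_pos.le
    have h7 : Real.pi * (x - μ) ^ 2 / a = Real.pi * ((x - μ) ^ 2 / a) := by ring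
    rw [h7]
    nlinarith
  have hinj : Set.InjOn (fun x : ℤ => (x - x0).toNat) T := by
    intro x hx y hy hxy
    have h1 := hge x hx
    have h2 := hge y hy
    simp only at hxy
    omega
  calc ∑ x ∈ T, Real.exp (-(Real.pi * (x - μ) ^ 2 / a))
      ≤ ∑ x ∈ T, Real.exp (-(Real.pi * a)) * r ^ (x - x0).toNat := Finset.sum_le_sum hterm
    _ = Real.exp (-(Real.pi * a)) * ∑ j ∈ T.image (fun x : ℤ => (x - x0).toNat), r ^ j := by
        rw [← Finset.mul_sum, Finset.sum_image hinj]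
    _ ≤ Real.exp (-(Real.pi * a)) * (1 - r)⁻¹ := by
        refine mul_le_mul_of_nonneg_left ?_ (Real.exp_pos _).le
        rw [← tsum_geometric_of_lt_one hr0 hr1]
        exact (summable_geometric_of_lt_one hr0 hr1).sum_le_tsum _ fun j _ => pow_nonneg hr0 j

/-- The tail of a Gaussian. -/
theorem th_tail {a : ℝ} (ha : 1 ≤ a) (μ : ℝ) (T : Finset ℤ) (hT : ∀ x ∈ T, a < |(x : ℝ) - μ|) :
    ∑ x ∈ T, Real.exp (-(Real.pi * (x - μ) ^ 2 / a)) ≤
      2 * (Real.exp (-(Real.pi * a)) * (1 - Real.exp (-(2 * Real.pi)))⁻¹) := by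
  classical
  rw [← Finset.sum_filter_add_sum_filter_not T (fun x : ℤ => a < (x : ℝ) - μ), two_mul]
  refine add_le_add (th_half ha μ _ fun x hx => (Finset.mem_filter.1 hx).2) ?_
  have h1 := th_half ha (-μ) ((T.filter (fun x : ℤ => ¬ a < (x : ℝ) - μ)).image Neg.neg) (by
    intro y hy
    obtain ⟨x, hx, rfl⟩ := Finset.mem_image.1 hy
    obtain ⟨h2, h3⟩ := Finset.mem_filter.1 hx
    rcases lt_abs.1 (hT x h2) with h4 | h4
    · exact absurd h4 h3
    · push_cast
      linarith)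
  rw [Finset.sum_image (fun x _ y _ h => neg_injective h)] at h1
  refine le_trans (le_of_eq (Finset.sum_congr rfl fun x _ => ?_)) h1
  congr 3
  push_cast
  ring

/-- The theta function is not small. -/
theorem th_ge {a : ℝ} (ha : 1 ≤ a) (s : ℝ) : Real.exp (-(Real.pi * a / 4)) ≤ th a s := by
  have ha0 : 0 < a := by linarith
  have h1 : Real.exp (-(Real.pi * a / 4)) ≤
      ∑' z : ℤ, Real.exp (-(Real.pi * a * (s - z) ^ 2)) := by
    refine le_trans ?_ ((th_summable ha0 s).le_tsum (round s) fun j _ => (Real.exp_pos _).le)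
    rw [Real.exp_le_exp, neg_le_neg_iff]
    have h2 : (s - round s) ^ 2 ≤ 1 / 4 := by
      have h3 := abs_sub_round s
      have h4 : (s - round s) ^ 2 = |s - round s| ^ 2 := (sq_abs _).symm
      rw [h4]
      have h5 := abs_nonneg (s - round s)
      nlinarith
    have h3 : 0 ≤ Real.pi * a := by positivity
    nlinarith
  have h2 : 1 ≤ √a := by
    rw [Real.one_le_sqrt]
    exact ha
  unfold th
  have h3 := Real.exp_pos (-(Real.pi * a / 4))
  nlinarith [mul_le_mul h2 h1 h3.le (by linarith : (0 : ℝ) ≤ √a)]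

/-- The transformation formula. -/
theorem th_poisson {a : ℝ} (ha : 0 < a) (μ s : ℝ) :
    HasSum (fun x : ℤ => (Real.exp (-(Real.pi * (x - μ) ^ 2 / a)) : ℂ) *
        Complex.exp (2 * Real.pi * I * (x * s)))
      (√a * ∑' z : ℤ, (Real.exp (-(Real.pi * a * (s - z) ^ 2)) : ℂ) *
        Complex.exp (2 * Real.pi * I * (μ * (s - z)))) := by
  have haC : (a : ℂ) ≠ 0 := ofReal_ne_zero.2 ha.ne'
  have hia : 0 < a⁻¹ := inv_pos.2 ha
  set b : ℂ := (μ / a : ℝ) + I * s with hb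
  have h1 := (th_sumC hia b).hasSum.mul_left (cexp (-(Real.pi * μ ^ 2 / a)))
  have h2 := Complex.tsum_exp_neg_quadratic (a := ((a⁻¹ : ℝ) : ℂ)) (by simpa using hia) b
  rw [h2] at h1
  have e1 : (fun x : ℤ => (Real.exp (-(Real.pi * (x - μ) ^ 2 / a)) : ℂ) *
        Complex.exp (2 * Real.pi * I * (x * s))) = fun i : ℤ =>
      cexp (-(Real.pi * μ ^ 2 / a)) *
        cexp (-Real.pi * ((a⁻¹ : ℝ) : ℂ) * i ^ 2 + 2 * Real.pi * b * i) := by
    funext x
    rw [ofReal_exp, ← Complex.exp_add, ← Complex.exp_add]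
    congr 1
    rw [hb]
    push_cast
    field_simp
    ring
  have h3 : (1 : ℂ) / ((a⁻¹ : ℝ) : ℂ) ^ (1 / 2 : ℂ) = √a := by
    have h4 : ((a⁻¹ : ℝ) : ℂ) ^ (1 / 2 : ℂ) = ((√(a⁻¹) : ℝ) : ℂ) := by
      rw [Real.sqrt_eq_rpow, ofReal_cpow hia.le]
      push_cast
      rfl
    rw [h4, Real.sqrt_inv]
    push_cast
    simp
  have e2 : (√a : ℂ) * ∑' z : ℤ, (Real.exp (-(Real.pi * a * (s - z) ^ 2)) : ℂ) *
        Complex.exp (2 * Real.pi * I * (μ * (s - z))) =
      cexp (-(Real.pi * μ ^ 2 / a)) * (1 / ((a⁻¹ : ℝ) : ℂ) ^ (1 / 2 : ℂ) *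
        ∑' n : ℤ, cexp (-Real.pi / ((a⁻¹ : ℝ) : ℂ) * (n + I * b) ^ 2)) := by
    have e3 : ∀ z : ℤ, (Real.exp (-(Real.pi * a * (s - z) ^ 2)) : ℂ) *
        Complex.exp (2 * Real.pi * I * (μ * (s - z))) = cexp (-(Real.pi * μ ^ 2 / a)) *
          cexp (-Real.pi / ((a⁻¹ : ℝ) : ℂ) * (z + I * b) ^ 2) := by
      intro z
      rw [ofReal_exp, ← Complex.exp_add, ← Complex.exp_add]
      congr 1
      rw [hb]
      push_cast
      have hI3 : (I : ℂ) ^ 3 = -I := by rw [pow_succ, I_sq]; ring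
      have hI4 : (I : ℂ) ^ 4 = 1 := by rw [I_pow_four]
      field_simp
      ring_nf
      rw [I_sq, hI3, hI4]
      ring
    rw [h3, tsum_congr e3, tsum_mul_left]
    ring
  rw [e1, e2]
  exact h1

/-- The cut off transform is the full one up to a small relative error. -/
theorem theta_trunc {a : ℝ} (ha : 1 ≤ a) (μ s : ℝ) {J : Finset ℤ}
    (hJ : ∀ x : ℤ, x ∈ J ↔ |(x : ℝ) - μ| ≤ a) :
    ‖∑ x ∈ J, (Real.exp (-(Real.pi * (x - μ) ^ 2 / a)) : ℂ) *
        Complex.exp (2 * Real.pi * I * (x * s)) -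
      √a * ∑' z : ℤ, (Real.exp (-(Real.pi * a * (s - z) ^ 2)) : ℂ) *
        Complex.exp (2 * Real.pi * I * (μ * (s - z)))‖ ≤
      3 * Real.exp (-(2 * a)) * th a s := by
  classical
  have ha0 : 0 < a := by linarith
  have hsum := th_poisson ha0 μ s
  set F : ℤ → ℂ := fun x => (Real.exp (-(Real.pi * (x - μ) ^ 2 / a)) : ℂ) *
        Complex.exp (2 * Real.pi * I * (x * s)) with hF
  have hnorm : ∀ x : ℤ, ‖F x‖ = Real.exp (-(Real.pi * (x - μ) ^ 2 / a)) := by
    intro x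
    have h1 : (2 * Real.pi * I * (x * s) : ℂ) = ((2 * Real.pi * (x * s) : ℝ) : ℂ) * I := by
      push_cast
      ring
    rw [hF]
    simp only
    rw [norm_mul, h1, Complex.norm_exp_ofReal_mul_I, mul_one, Complex.norm_real,
      Real.norm_of_nonneg (Real.exp_pos _).le]
  set B : ℝ := 2 * (Real.exp (-(Real.pi * a)) * (1 - Real.exp (-(2 * Real.pi)))⁻¹) with hB
  have hlim : ‖∑ x ∈ J, F x - √a * ∑' z : ℤ, (Real.exp (-(Real.pi * a * (s - z) ^ 2)) : ℂ) *
        Complex.exp (2 * Real.pi * I * (μ * (s - z)))‖ ≤ B := by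
    have h1 := (tendsto_const_nhds (x := ∑ x ∈ J, F x)).sub hsum
    refine le_of_tendsto h1.norm ?_
    filter_upwards [Filter.eventually_ge_atTop J] with T hT
    have h2 : ∑ x ∈ J, F x - ∑ x ∈ T, F x = -∑ x ∈ T \ J, F x := by
      rw [← Finset.sum_sdiff (show J ⊆ T from hT)]
      ring
    rw [h2, norm_neg]
    refine (norm_sum_le _ _).trans ?_
    rw [Finset.sum_congr rfl fun x _ => hnorm x]
    refine th_tail ha μ _ fun x hx => ?_
    have h3 := (Finset.mem_sdiff.1 hx).2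
    rw [hJ, not_le] at h3
    exact h3
  refine hlim.trans ?_
  -- numerical comparison
  have hpi := Real.pi_gt_three
  have hr : Real.exp (-(2 * Real.pi)) ≤ 1 / 3 := by
    have h1 : (3 : ℝ) ≤ Real.exp (2 * Real.pi) := by
      have := Real.add_one_le_exp (2 * Real.pi)
      linarith
    rw [Real.exp_neg, one_div]
    exact inv_anti₀ (by norm_num) h1
  have hinv : (1 - Real.exp (-(2 * Real.pi)))⁻¹ ≤ 3 / 2 := by
    rw [inv_le_comm₀ (by linarith) (by norm_num)]
    linarith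
  have h1 : B ≤ 3 * Real.exp (-(Real.pi * a)) := by
    rw [hB]
    have := Real.exp_pos (-(Real.pi * a))
    nlinarith
  have h2 : Real.exp (-(Real.pi * a)) ≤ Real.exp (-(2 * a)) * Real.exp (-(Real.pi * a / 4)) := by
    rw [← Real.exp_add, Real.exp_le_exp]
    nlinarith
  have h3 := th_ge ha s
  have h4 := Real.exp_pos (-(2 * a))
  nlinarith [mul_le_mul_of_nonneg_left h3 h4.le]

end Pool.Agent.MP4a7415
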