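import Pool.Agent.Lib.MP_4a7415_coI.DZ
import Pool.Agent.Lib.MP_4a7415_coI.Theta
import Pool.Agent.Lib.MP_4a7415_coI.ProdSum
import Pool.Agent.Lib.MP_4a7415_coI.Cube

/-! # Step 5: setting and the sum over the classes (row N) -/

namespace Pool.Agent.MP4a7415

open Finset MeasureTheory

/-- The transposed map. -/
noncomputable def Lm {ι κ : Type*} [Fintype κ] (M : κ → ι → ℤ) (y : κ → ℝ) (e : ι) : ℝ :=
  ∑ R, (M R e : ℝ) * y R

/-- The hypotheses on the lattice `Ls` of periods. -/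
structure Per {ι κ : Type*} [Fintype ι] [Fintype κ] (M : κ → ι → ℤ)
    (Ls : AddSubgroup (κ → ℝ)) (C0 : ℝ) : Prop where
  int : ∀ a : κ → ℤ, (fun R => (a R : ℝ)) ∈ Ls
  val : ∀ y ∈ Ls, ∀ e, ∃ k : ℤ, Lm M y e = k
  one : 1 ≤ C0
  coer : ∀ y : κ → ℝ, ∃ y0 ∈ Ls, ∑ e, (Lm M y e - Lm M y0 e) ^ 2 ≤ C0 * ∑ e, dZ (Lm M y e) ^ 2

/-- The trivial classes. -/
def Triv {ι κ : Type*} [Fintype κ] (M : κ → ι → ℤ) (Ls : AddSubgroup (κ → ℝ))
    (z : ι → ℤ) : Prop := ∃ y0 ∈ Ls, ∀ e, Lm M y0 e = z e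

/-- The Gaussian weight. -/
noncomputable def gw {ι κ : Type*} [Fintype ι] [Fintype κ] (M : κ → ι → ℤ) (a : ℝ)
    (y : κ → ℝ) (z : ι → ℤ) : ℝ := Real.exp (-(Real.pi * a * ∑ e, (Lm M y e - z e) ^ 2))

section aux

variable {ι κ : Type*} [Fintype ι] [Fintype κ] {M : κ → ι → ℤ}

omit [Fintype ι] in
theorem Lm_add (M : κ → ι → ℤ) (y y' : κ → ℝ) (e : ι) :
    Lm M (fun R => y R + y' R) e = Lm M y e + Lm M y' e := by
  unfold Lm
  rw [← sum_add_distrib]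
  exact sum_congr rfl fun R _ => by ring

omit [Fintype ι] in
theorem Lm_sub (M : κ → ι → ℤ) (y y' : κ → ℝ) (e : ι) :
    Lm M (fun R => y R - y' R) e = Lm M y e - Lm M y' e := by
  unfold Lm
  rw [← sum_sub_distrib]
  exact sum_congr rfl fun R _ => by ring

/-- The residual is orthogonal to the range. -/
def Orth (M : κ → ι → ℤ) (w : ι → ℝ) : Prop := ∀ y : κ → ℝ, ∑ e, w e * Lm M y e = 0

theorem exists_proj (M : κ → ι → ℤ) (u : ι → ℝ) :
    ∃ y1 : κ → ℝ, Orth M (fun e => u e - Lm M y1 e) := by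
  let LE : (κ → ℝ) →ₗ[ℝ] EuclideanSpace ℝ ι :=
    { toFun := fun y => WithLp.toLp 2 (Lm M y)
      map_add' := fun y y' => by
        ext e
        exact Lm_add M y y' e
      map_smul' := fun c y => by
        ext e
        simp only [Lm, RingHom.id_apply, PiLp.smul_apply, smul_eq_mul, Pi.smul_apply, mul_sum]
        exact sum_congr rfl fun R _ => by ring }
  let K : Submodule ℝ (EuclideanSpace ℝ ι) := LinearMap.range LE
  obtain ⟨y1, hy1⟩ : (K.starProjection (WithLp.toLp 2 u)) ∈ K :=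
    Submodule.starProjection_apply_mem K _
  refine ⟨y1, fun y => ?_⟩
  have h := Submodule.sub_starProjection_mem_orthogonal (K := K) (WithLp.toLp 2 u)
  rw [Submodule.mem_orthogonal] at h
  have h2 := h (LE y) ⟨y, rfl⟩
  rw [← hy1, PiLp.inner_apply] at h2
  rw [← h2]
  refine sum_congr rfl fun e _ => ?_
  simp [LE]

theorem pyth {w : ι → ℝ} (hw : Orth M w) (y : κ → ℝ) :
    ∑ e, (Lm M y e - w e) ^ 2 = ∑ e, (Lm M y e) ^ 2 + ∑ e, (w e) ^ 2 := by
  have h := hw y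
  have h1 : ∑ e, (Lm M y e - w e) ^ 2 =
      ∑ e, (Lm M y e) ^ 2 + ∑ e, (w e) ^ 2 - 2 * ∑ e, w e * Lm M y e := by
    rw [mul_sum, ← sum_add_distrib, ← sum_sub_distrib]
    exact sum_congr rfl fun e _ => by ring
  rw [h1, h]
  ring

omit [Fintype ι] in
theorem Lm_meas (M : κ → ι → ℤ) (e : ι) : Measurable fun y : κ → ℝ => Lm M y e := by
  unfold Lm
  fun_prop

theorem gw_meas (M : κ → ι → ℤ) (a : ℝ) (z : ι → ℤ) :
    Measurable fun y : κ → ℝ => ENNReal.ofReal (gw M a y z) := by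
  have := fun e => Lm_meas M e
  unfold gw
  fun_prop

omit [Fintype ι] in
theorem triv_add {Ls : AddSubgroup (κ → ℝ)} {z z' : ι → ℤ} (h : Triv M Ls z)
    (h' : Triv M Ls z') : Triv M Ls (fun e => z e + z' e) := by
  obtain ⟨y, hy, h1⟩ := h
  obtain ⟨y', hy', h1'⟩ := h'
  refine ⟨fun R => y R + y' R, Ls.add_mem hy hy', fun e => ?_⟩
  rw [Lm_add, h1, h1']
  push_cast
  rfl

omit [Fintype ι] in
theorem triv_sub {Ls : AddSubgroup (κ → ℝ)} {z z' : ι → ℤ} (h : Triv M Ls z)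
    (h' : Triv M Ls z') : Triv M Ls (fun e => z e - z' e) := by
  obtain ⟨y, hy, h1⟩ := h
  obtain ⟨y', hy', h1'⟩ := h'
  refine ⟨fun R => y R - y' R, Ls.sub_mem hy hy', fun e => ?_⟩
  rw [Lm_sub, h1, h1']
  push_cast
  rfl

theorem triv_int {Ls : AddSubgroup (κ → ℝ)} {C0 : ℝ} (hP : Per M Ls C0) (a : κ → ℤ) :
    Triv M Ls (fun e => ∑ R, M R e * a R) := by
  refine ⟨_, hP.int a, fun e => ?_⟩
  unfold Lm
  push_cast
  rfl

/-- The sum over the trivial classes. -/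
noncomputable def GG (M : κ → ι → ℤ) (Ls : AddSubgroup (κ → ℝ)) (a : ℝ) (y : κ → ℝ) : ENNReal :=
  ∑' t : {z : ι → ℤ // Triv M Ls z}, ENNReal.ofReal (gw M a y t)

theorem GG_meas (M : κ → ι → ℤ) (Ls : AddSubgroup (κ → ℝ)) (a : ℝ) : Measurable (GG M Ls a) :=
  Measurable.tsum fun t => gw_meas M a t

theorem GG_per {Ls : AddSubgroup (κ → ℝ)} {C0 : ℝ} (hP : Per M Ls C0) (a : ℝ) (b : κ → ℤ)
    (y : κ → ℝ) : GG M Ls a (fun R => y R + b R) = GG M Ls a y := by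
  have hb := triv_int hP b
  let E : {z : ι → ℤ // Triv M Ls z} ≃ {z : ι → ℤ // Triv M Ls z} :=
    { toFun := fun t => ⟨_, triv_add t.2 hb⟩
      invFun := fun t => ⟨_, triv_sub t.2 hb⟩
      left_inv := fun t => by
        ext e
        simp
      right_inv := fun t => by
        ext e
        simp }
  unfold GG
  rw [← E.tsum_eq]
  refine tsum_congr fun t => ?_
  congr 1
  unfold gw
  congr 3
  refine sum_congr rfl fun e _ => ?_
  congr 1
  rw [Lm_add]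
  have : Lm M (fun R => (b R : ℝ)) e = ((∑ R, M R e * b R : ℤ) : ℝ) := by
    unfold Lm
    push_cast
    rfl
  rw [this]
  show Lm M y e + ((∑ R, M R e * b R : ℤ) : ℝ) - (((t : ι → ℤ) e + ∑ R, M R e * b R : ℤ) : ℝ) = _
  push_cast
  ring

/-- A coset of the trivial classes. -/
theorem coset_sum {Ls : AddSubgroup (κ → ℝ)} {C0 : ℝ} (hP : Per M Ls C0) (a : ℝ)
    (ρ : ι → ℤ) (y1 : κ → ℝ) (h1 : Orth M (fun e => (ρ e : ℝ) - Lm M y1 e)) :
    ∑' t : {z : ι → ℤ // Triv M Ls z},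
        ∫⁻ y, ENNReal.ofReal (gw M a y (fun e => ρ e + (t : ι → ℤ) e)) ∂cubeM κ =
      ENNReal.ofReal (Real.exp (-(Real.pi * a * ∑ e, ((ρ e : ℝ) - Lm M y1 e) ^ 2))) *
        ∑' t : {z : ι → ℤ // Triv M Ls z}, ∫⁻ y, ENNReal.ofReal (gw M a y t) ∂cubeM κ := by
  have hpt : ∀ (y : κ → ℝ) (t : {z : ι → ℤ // Triv M Ls z}),
      ENNReal.ofReal (gw M a y (fun e => ρ e + (t : ι → ℤ) e)) =
      ENNReal.ofReal (Real.exp (-(Real.pi * a * ∑ e, ((ρ e : ℝ) - Lm M y1 e) ^ 2))) *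
        ENNReal.ofReal (gw M a (fun R => y R - y1 R) t) := by
    intro y t
    rw [← ENNReal.ofReal_mul (Real.exp_nonneg _)]
    congr 1
    unfold gw
    rw [← Real.exp_add]
    congr 1
    obtain ⟨s, -, hs⟩ := t.2
    have h2 := pyth h1 (fun R => (y R - y1 R) - s R)
    have h3 : ∀ e, Lm M (fun R => (y R - y1 R) - s R) e =
        Lm M y e - Lm M y1 e - (t : ι → ℤ) e := by
      intro e
      rw [Lm_sub M (fun R => y R - y1 R) s e, Lm_sub, hs]
    have h4 : ∑ e, (Lm M y e - ((ρ e + (t : ι → ℤ) e : ℤ) : ℝ)) ^ 2 =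
        ∑ e, (Lm M (fun R => y R - y1 R) e - (t : ι → ℤ) e) ^ 2 +
          ∑ e, ((ρ e : ℝ) - Lm M y1 e) ^ 2 := by
      have h5 : ∑ e, (Lm M y e - ((ρ e + (t : ι → ℤ) e : ℤ) : ℝ)) ^ 2 =
          ∑ e, (Lm M (fun R => (y R - y1 R) - s R) e - ((ρ e : ℝ) - Lm M y1 e)) ^ 2 := by
        refine sum_congr rfl fun e _ => ?_
        rw [h3]
        push_cast
        ring
      rw [h5, h2]
      congr 1
      refine sum_congr rfl fun e _ => ?_
      rw [h3, Lm_sub]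
    rw [h4]
    ring
  rw [← lintegral_tsum fun t => (gw_meas M a _).aemeasurable,
    ← lintegral_tsum fun t => (gw_meas M a _).aemeasurable]
  have h6 : ∀ y, ∑' t : {z : ι → ℤ // Triv M Ls z},
      ENNReal.ofReal (gw M a y (fun e => ρ e + (t : ι → ℤ) e)) =
      ENNReal.ofReal (Real.exp (-(Real.pi * a * ∑ e, ((ρ e : ℝ) - Lm M y1 e) ^ 2))) *
        GG M Ls a (fun R => y R - y1 R) := by
    intro y
    rw [GG, ← ENNReal.tsum_mul_left]
    exact tsum_congr fun t => hpt y t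
  simp_rw [h6]
  have hm : Measurable fun y : κ → ℝ => GG M Ls a (fun R => y R - y1 R) := by
    refine (GG_meas M Ls a).comp ?_
    fun_prop
  rw [lintegral_const_mul _ hm, cube_shift (GG M Ls a) (GG_meas M Ls a) (GG_per hP a) y1]
  rfl

/-- The one dimensional sum. -/
theorem one_dim {b : ℝ} (hb : 1 ≤ b) :
    (Summable fun z : ℤ => Real.exp (-(b * (z : ℝ) ^ 2))) ∧
      ∑' z : ℤ, Real.exp (-(b * (z : ℝ) ^ 2)) ≤ 1 + 4 * Real.exp (-b) := by
  have hq : Real.exp (-b) ≤ 1 / 2 := by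
    have h1 : Real.exp (-b) ≤ Real.exp (-1) := Real.exp_le_exp.2 (by linarith)
    have h2 : Real.exp (-1) ≤ 1 / 2 := by
      rw [Real.exp_neg, inv_eq_one_div]
      exact one_div_le_one_div_of_le (by norm_num) (by linarith [Real.add_one_le_exp (1 : ℝ)])
    linarith
  have hq0 : 0 ≤ Real.exp (-b) := Real.exp_nonneg _
  have hgeo : Summable fun n : ℕ => Real.exp (-b) ^ n :=
    summable_geometric_of_lt_one hq0 (by linarith)
  have hle : ∀ n : ℕ, Real.exp (-(b * ((n : ℝ) + 1) ^ 2)) ≤ Real.exp (-b) * Real.exp (-b) ^ n := by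
    intro n
    have hpow : Real.exp (-b) ^ n = Real.exp (n * (-b)) := (Real.exp_nat_mul (-b) n).symm
    rw [hpow, ← Real.exp_add (-b) (n * (-b))]
    refine Real.exp_le_exp.2 ?_
    have hn : (0 : ℝ) ≤ n := Nat.cast_nonneg n
    nlinarith [mul_nonneg (by linarith : (0 : ℝ) ≤ b) hn, mul_nonneg (by linarith : (0:ℝ) ≤ b) (mul_nonneg hn hn)]
  have hs : Summable fun n : ℕ => Real.exp (-(b * ((n : ℝ) + 1) ^ 2)) :=
    Summable.of_nonneg_of_le (fun n => Real.exp_nonneg _) hle (hgeo.mul_left _)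
  have hsum : ∑' n : ℕ, Real.exp (-(b * ((n : ℝ) + 1) ^ 2)) ≤ 2 * Real.exp (-b) := by
    refine (hs.tsum_le_tsum hle (hgeo.mul_left _)).trans ?_
    rw [tsum_mul_left, tsum_geometric_of_lt_one hq0 (by linarith)]
    have : (1 - Real.exp (-b))⁻¹ ≤ 2 := by
      rw [inv_le_comm₀ (by linarith) (by norm_num)]
      linarith
    nlinarith
  have hs0 : Summable fun n : ℕ => Real.exp (-(b * ((n : ℤ) : ℝ) ^ 2)) := by
    rw [← summable_nat_add_iff 1]
    refine hs.congr fun n => ?_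
    push_cast
    rfl
  have hsneg : Summable fun n : ℕ => Real.exp (-(b * ((-((n : ℤ) + 1) : ℤ) : ℝ) ^ 2)) := by
    refine hs.congr fun n => ?_
    push_cast
    congr 3
    ring
  refine ⟨Summable.of_nat_of_neg_add_one (f := fun z : ℤ => Real.exp (-(b * (z : ℝ) ^ 2)))
    hs0 hsneg, ?_⟩
  rw [tsum_of_nat_of_neg_add_one (f := fun z : ℤ => Real.exp (-(b * (z : ℝ) ^ 2))) hs0 hsneg,
    hs0.tsum_eq_zero_add]
  have e1 : ∑' n : ℕ, Real.exp (-(b * (((n + 1 : ℕ) : ℤ) : ℝ) ^ 2)) =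
      ∑' n : ℕ, Real.exp (-(b * ((n : ℝ) + 1) ^ 2)) := by
    refine tsum_congr fun n => ?_
    push_cast
    rfl
  have e2 : ∑' n : ℕ, Real.exp (-(b * ((-((n : ℤ) + 1) : ℤ) : ℝ) ^ 2)) =
      ∑' n : ℕ, Real.exp (-(b * ((n : ℝ) + 1) ^ 2)) := by
    refine tsum_congr fun n => ?_
    push_cast
    congr 3
    ring
  rw [e1, e2]
  simp only [Nat.cast_zero, Int.cast_zero, ne_eq, OfNat.ofNat_ne_zero, not_false_eq_true,
    zero_pow, mul_zero, neg_zero, Real.exp_zero]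
  linarith

/-- The sum over the nonzero vectors. -/
theorem nonzero_sum {b : ℝ} (hb : 4 + Real.log (Fintype.card ι + 1) ≤ b) :
    ∑' ρ : {ρ : ι → ℤ // ρ ≠ 0}, ENNReal.ofReal (Real.exp (-(b * ∑ e, ((ρ : ι → ℤ) e : ℝ) ^ 2))) ≤
      ENNReal.ofReal (1 / 4) := by
  classical
  have hlog : 0 ≤ Real.log (Fintype.card ι + 1) :=
    Real.log_nonneg (by linarith [(Nat.cast_nonneg (Fintype.card ι) : (0 : ℝ) ≤ _)])
  have hb1 : 1 ≤ b := by linarith
  obtain ⟨hs, hS⟩ := one_dim hb1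
  obtain ⟨H1, H2⟩ := prod_tsum_real (ι := ι) (fun _ z => Real.exp (-(b * (z : ℝ) ^ 2)))
    (fun _ _ => Real.exp_nonneg _) (fun _ => hs)
  have hprod : ∀ z : ι → ℤ, ∏ e, Real.exp (-(b * (z e : ℝ) ^ 2)) =
      Real.exp (-(b * ∑ e, (z e : ℝ) ^ 2)) := by
    intro z
    rw [← Real.exp_sum, mul_sum, sum_neg_distrib]
  simp only [hprod] at H1 H2
  rw [prod_const, card_univ] at H2
  set S := ∑' z : ℤ, Real.exp (-(b * (z : ℝ) ^ 2)) with hSd
  have hS1 : 0 ≤ S := tsum_nonneg fun _ => Real.exp_nonneg _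
  set m : ℝ := (Fintype.card ι : ℝ) with hm
  have hm0 : 0 ≤ m := Nat.cast_nonneg _
  -- bound of S ^ m
  have hexp : 4 * Real.exp (-b) ≤ (1 / 5) / (m + 1) := by
    have h1 : Real.exp (-b) ≤ Real.exp (-4) * Real.exp (-Real.log (m + 1)) := by
      rw [← Real.exp_add]
      exact Real.exp_le_exp.2 (by linarith)
    rw [Real.exp_neg (Real.log (m + 1)), Real.exp_log (by linarith)] at h1
    have h2 : Real.exp (-4) ≤ 1 / 20 := by
      have h3 : (20 : ℝ) ≤ Real.exp 4 := by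
        have h4 : (2.7 : ℝ) ≤ Real.exp 1 := by linarith [Real.exp_one_gt_d9]
        have h5 : Real.exp 4 = Real.exp 1 ^ 4 := by
          have h6 := Real.exp_nat_mul 1 4
          rw [← h6]
          norm_num
        rw [h5]
        calc (20 : ℝ) ≤ 2.7 ^ 4 := by norm_num
          _ ≤ _ := pow_le_pow_left₀ (by norm_num) h4 4
      rw [Real.exp_neg, inv_eq_one_div]
      exact one_div_le_one_div_of_le (by norm_num) h3
    have h6 : 0 < (m + 1)⁻¹ := inv_pos.2 (by linarith)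
    rw [div_eq_mul_inv]
    nlinarith
  have hSm : S ^ Fintype.card ι ≤ 5 / 4 := by
    have h1 : S ≤ Real.exp ((1 / 5) / (m + 1)) := by
      refine (hS.trans ?_).trans (Real.add_one_le_exp _)
      linarith
    calc S ^ Fintype.card ι ≤ Real.exp ((1 / 5) / (m + 1)) ^ Fintype.card ι :=
          pow_le_pow_left₀ hS1 h1 _
      _ = Real.exp (m * ((1 / 5) / (m + 1))) := (Real.exp_nat_mul _ _).symm
      _ ≤ Real.exp (1 / 5) := by
          refine Real.exp_le_exp.2 ?_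
          rw [← mul_div_assoc, div_le_iff₀ (by linarith)]
          nlinarith
      _ ≤ 5 / 4 := by
          have h2 := Real.one_sub_le_exp_neg (1 / 5)
          rw [Real.exp_neg] at h2
          have h3 : (Real.exp (1 / 5))⁻¹ ≥ 4 / 5 := by linarith
          have h4 : 0 < Real.exp (1 / 5) := Real.exp_pos _
          have h5 : Real.exp (1 / 5) * (Real.exp (1 / 5))⁻¹ = 1 := mul_inv_cancel₀ h4.ne'
          nlinarith
  -- split off zero
  have hsub : Summable fun ρ : {ρ : ι → ℤ // ρ ≠ 0} =>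
      Real.exp (-(b * ∑ e, ((ρ : ι → ℤ) e : ℝ) ^ 2)) := H1.subtype _
  rw [← ENNReal.ofReal_tsum_of_nonneg (fun _ => Real.exp_nonneg _) hsub]
  refine ENNReal.ofReal_le_ofReal ?_
  have hsplit := H1.tsum_subtype_add_tsum_subtype_compl {ρ : ι → ℤ | ρ = 0}
  have h0 : ∑' ρ : ({ρ : ι → ℤ | ρ = 0} : Set (ι → ℤ)),
      Real.exp (-(b * ∑ e, ((ρ : ι → ℤ) e : ℝ) ^ 2)) = 1 := by
    have : ({ρ : ι → ℤ | ρ = 0} : Set (ι → ℤ)) = {0} := by
      ext
      simp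
    rw [this, tsum_singleton (0 : ι → ℤ) (fun ρ => Real.exp (-(b * ∑ e, (ρ e : ℝ) ^ 2)))]
    simp
  have h1 : ∑' ρ : (({ρ : ι → ℤ | ρ = 0}ᶜ : Set (ι → ℤ)) : Type _),
      Real.exp (-(b * ∑ e, ((ρ : ι → ℤ) e : ℝ) ^ 2)) =
      ∑' ρ : {ρ : ι → ℤ // ρ ≠ 0}, Real.exp (-(b * ∑ e, ((ρ : ι → ℤ) e : ℝ) ^ 2)) := rfl
  rw [h0, h1, ← H2] at hsplit
  linarith

end aux

/-- The nontrivial classes carry at most a quarter of the mass of the trivial ones. -/
theorem classes {ι κ : Type*} [Fintype ι] [Fintype κ] {M : κ → ι → ℤ}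
    {Ls : AddSubgroup (κ → ℝ)} {C0 : ℝ} (hP : Per M Ls C0) {a : ℝ}
    (ha : 4 * C0 * (4 + Real.log (Fintype.card ι + 1)) ≤ a) :
    ∑' z : {z : ι → ℤ // ¬ Triv M Ls z}, ∫⁻ y, ENNReal.ofReal (gw M a y z) ∂cubeM κ ≤
      ENNReal.ofReal (1 / 4) *
        ∑' z : {z : ι → ℤ // Triv M Ls z}, ∫⁻ y, ENNReal.ofReal (gw M a y z) ∂cubeM κ := by
  classical
  have hC := hP.one
  have hlog : 0 ≤ Real.log (Fintype.card ι + 1) :=
    Real.log_nonneg (by linarith [(Nat.cast_nonneg (Fintype.card ι) : (0 : ℝ) ≤ _)])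
  have ha0 : 0 ≤ a := le_trans (by positivity) ha
  -- the representative
  have key : ∀ z : {z : ι → ℤ // ¬ Triv M Ls z}, ∃ (ρ : ι → ℤ) (t : ι → ℤ),
      (∀ e, (z : ι → ℤ) e = ρ e + t e) ∧ Triv M Ls t ∧ ρ ≠ 0 ∧
      ∃ y1 : κ → ℝ, Orth M (fun e => (ρ e : ℝ) - Lm M y1 e) ∧
        ∑ e, (ρ e : ℝ) ^ 2 ≤ 2 * C0 * ∑ e, ((ρ e : ℝ) - Lm M y1 e) ^ 2 := by
    intro z
    obtain ⟨y1, hy1⟩ := exists_proj M (fun e => ((z : ι → ℤ) e : ℝ))
    obtain ⟨y0, hy0, hco⟩ := hP.coer y1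
    choose t ht using hP.val y0 hy0
    refine ⟨fun e => (z : ι → ℤ) e - t e, t, fun e => by ring, ⟨y0, hy0, ht⟩, ?_,
      fun R => y1 R - y0 R, ?_, ?_⟩
    · intro h0
      refine z.2 ⟨y0, hy0, fun e => ?_⟩
      have := congrFun h0 e
      simp only [Pi.zero_apply, sub_eq_zero] at this
      rw [ht, this]
    · intro y
      rw [← hy1 y]
      refine sum_congr rfl fun e _ => ?_
      show ((((z : ι → ℤ) e - t e : ℤ) : ℝ) - Lm M (fun R => y1 R - y0 R) e) * Lm M y e =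
        (((z : ι → ℤ) e : ℝ) - Lm M y1 e) * Lm M y e
      rw [Lm_sub, ht]
      push_cast
      ring
    · have e1 : ∀ e, (((z : ι → ℤ) e - t e : ℤ) : ℝ) - Lm M (fun R => y1 R - y0 R) e =
          ((z : ι → ℤ) e : ℝ) - Lm M y1 e := by
        intro e
        rw [Lm_sub, ht]
        push_cast
        ring
      simp only [e1]
      have h2 := pyth hy1 (fun R => y0 R - y1 R)
      have h3 : ∑ e, (((z : ι → ℤ) e - t e : ℤ) : ℝ) ^ 2 =
          ∑ e, (Lm M (fun R => y0 R - y1 R) e - (((z : ι → ℤ) e : ℝ) - Lm M y1 e)) ^ 2 := by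
        refine sum_congr rfl fun e _ => ?_
        rw [Lm_sub, ht]
        push_cast
        ring
      rw [h3, h2]
      have h4 : ∑ e, (Lm M (fun R => y0 R - y1 R) e) ^ 2 =
          ∑ e, (Lm M y1 e - Lm M y0 e) ^ 2 := by
        refine sum_congr rfl fun e _ => ?_
        rw [Lm_sub]
        ring
      have h5 : ∑ e, dZ (Lm M y1 e) ^ 2 ≤ ∑ e, (((z : ι → ℤ) e : ℝ) - Lm M y1 e) ^ 2 := by
        refine sum_le_sum fun e _ => ?_
        rw [← sq_abs (((z : ι → ℤ) e : ℝ) - Lm M y1 e), abs_sub_comm]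
        exact pow_le_pow_left₀ (dZ_nonneg _) (dZ_le _ _) 2
      have h6 : 0 ≤ ∑ e, (((z : ι → ℤ) e : ℝ) - Lm M y1 e) ^ 2 :=
        sum_nonneg fun e _ => sq_nonneg _
      rw [h4]
      nlinarith [mul_le_mul_of_nonneg_left h5 (by linarith : (0 : ℝ) ≤ C0)]
  choose ρ t hz ht hρ hg using key
  let I := {ρ : ι → ℤ // ρ ≠ 0 ∧ ∃ y1 : κ → ℝ, Orth M (fun e => (ρ e : ℝ) - Lm M y1 e) ∧
        ∑ e, (ρ e : ℝ) ^ 2 ≤ 2 * C0 * ∑ e, ((ρ e : ℝ) - Lm M y1 e) ^ 2}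
  let T := {z : ι → ℤ // Triv M Ls z}
  let f : {z : ι → ℤ // ¬ Triv M Ls z} → I × T := fun z => (⟨ρ z, hρ z, hg z⟩, ⟨t z, ht z⟩)
  have hf : Function.Injective f := by
    intro z z' h
    have h1 : ρ z = ρ z' := congrArg (fun p : I × T => (p.1 : ι → ℤ)) h
    have h2 : t z = t z' := congrArg (fun p : I × T => (p.2 : ι → ℤ)) h
    apply Subtype.ext
    funext e
    rw [hz z e, hz z' e, h1, h2]
  let F : I × T → ENNReal := fun p =>
    ∫⁻ y, ENNReal.ofReal (gw M a y (fun e => (p.1 : ι → ℤ) e + (p.2 : ι → ℤ) e)) ∂cubeM κ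
  have step1 : ∑' z : {z : ι → ℤ // ¬ Triv M Ls z},
      ∫⁻ y, ENNReal.ofReal (gw M a y z) ∂cubeM κ = ∑' z, F (f z) := by
    refine tsum_congr fun z => ?_
    have : (z : ι → ℤ) = fun e => ρ z e + t z e := funext (hz z)
    show ∫⁻ y, ENNReal.ofReal (gw M a y z) ∂cubeM κ =
      ∫⁻ y, ENNReal.ofReal (gw M a y (fun e => ρ z e + t z e)) ∂cubeM κ
    rw [← this]
  rw [step1]
  refine (ENNReal.tsum_comp_le_tsum_of_injective hf F).trans ?_
  rw [ENNReal.tsum_prod']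
  set Z : ENNReal := ∑' z : {z : ι → ℤ // Triv M Ls z},
    ∫⁻ y, ENNReal.ofReal (gw M a y z) ∂cubeM κ with hZ
  have step2 : ∀ r : I, ∑' s : T, F (r, s) ≤
      ENNReal.ofReal (Real.exp (-(Real.pi * a / (2 * C0) * ∑ e, (((r : ι → ℤ) e : ℤ) : ℝ) ^ 2))) * Z := by
    intro r
    obtain ⟨y1, h1, h2⟩ := r.2.2
    refine (coset_sum hP a r y1 h1).le.trans ?_
    refine mul_le_mul_left ?_ _
    refine ENNReal.ofReal_le_ofReal (Real.exp_le_exp.2 ?_)
    refine neg_le_neg ?_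
    rw [div_mul_eq_mul_div, div_le_iff₀ (by linarith)]
    have h3 : 0 ≤ Real.pi * a := mul_nonneg Real.pi_pos.le ha0
    nlinarith [mul_le_mul_of_nonneg_left h2 h3]
  refine (ENNReal.tsum_le_tsum step2).trans ?_
  rw [ENNReal.tsum_mul_right]
  refine mul_le_mul_left ?_ _
  have hb : 4 + Real.log (Fintype.card ι + 1) ≤ Real.pi * a / (2 * C0) := by
    rw [le_div_iff₀ (by linarith)]
    have h3 : a ≤ Real.pi * a := by nlinarith [Real.pi_gt_three]
    have h4 : 0 ≤ C0 * (4 + Real.log (Fintype.card ι + 1)) := by positivity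
    nlinarith
  refine le_trans ?_ (nonzero_sum (ι := ι) hb)
  let g : I → {ρ : ι → ℤ // ρ ≠ 0} := fun r => ⟨r, r.2.1⟩
  have hg' : Function.Injective g := by
    intro r r' h
    apply Subtype.ext
    exact congrArg (fun p : {ρ : ι → ℤ // ρ ≠ 0} => (p : ι → ℤ)) h
  exact ENNReal.tsum_comp_le_tsum_of_injective hg' (fun ρ : {ρ : ι → ℤ // ρ ≠ 0} =>
    ENNReal.ofReal (Real.exp (-(Real.pi * a / (2 * C0) * ∑ e, ((ρ : ι → ℤ) e : ℝ) ^ 2))))

end Pool.Agent.MP4a7415
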