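import Pool.Agent.Lib.MP_4a7415_co.Prob

/-! # Monotonicity in the probability (row J) -/

namespace Pool.Agent.MP4a7415

open Finset

theorem PrE_insert {β : Type*} [DecidableEq β] {E : Finset β} {a : β} (ha : a ∉ E) (p : ℝ)
    (A : Set (Finset β)) :
    PrE (insert a E) p A = (1 - p) * PrE E p A + p * PrE E p {G | insert a G ∈ A} := by
  rw [PrE, sum_powerset_insert ha, PrE, PrE, mul_sum, mul_sum]
  congr 1
  · refine sum_congr rfl fun G hG => ?_
    have hc : G.card ≤ E.card := card_le_card (mem_powerset.1 hG)
    by_cases hA : G ∈ A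
    · rw [Set.indicator_of_mem hA, Set.indicator_of_mem hA, wt, wt, card_insert_of_notMem ha,
        Nat.succ_sub hc, pow_succ]
      ring
    · rw [Set.indicator_of_notMem hA, Set.indicator_of_notMem hA, mul_zero]
  · refine sum_congr rfl fun G hG => ?_
    have haG : a ∉ G := fun h => ha (mem_powerset.1 hG h)
    by_cases hA : insert a G ∈ A
    · rw [Set.indicator_of_mem hA, Set.indicator_of_mem (show G ∈ {G | insert a G ∈ A} from hA),
        wt, wt, card_insert_of_notMem ha, card_insert_of_notMem haG, Nat.add_sub_add_right,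
        pow_succ]
      ring
    · rw [Set.indicator_of_notMem hA,
        Set.indicator_of_notMem (show G ∉ {G | insert a G ∈ A} from hA), mul_zero]

theorem PrE_mono_p {β : Type*} [DecidableEq β] {E : Finset β} {p p' : ℝ} (h0 : 0 ≤ p)
    (hpp : p ≤ p') (h1 : p' ≤ 1) {A : Set (Finset β)}
    (hA : ∀ G G' : Finset β, G ⊆ G' → G' ⊆ E → G ∈ A → G' ∈ A) :
    PrE E p A ≤ PrE E p' A := by
  induction E using Finset.induction_on generalizing A with
  | empty =>
    refine le_of_eq ?_
    rw [PrE, PrE, powerset_empty, sum_singleton, sum_singleton]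
    by_cases h : (∅ : Finset β) ∈ A
    · rw [Set.indicator_of_mem h, Set.indicator_of_mem h, wt, wt]
      simp
    · rw [Set.indicator_of_notMem h, Set.indicator_of_notMem h]
  | insert a E ha ih =>
    rw [PrE_insert ha, PrE_insert ha]
    have i0 : PrE E p A ≤ PrE E p' A := ih fun G G' h h' hG =>
      hA G G' h (h'.trans (subset_insert a E)) hG
    have i1 : PrE E p {G | insert a G ∈ A} ≤ PrE E p' {G | insert a G ∈ A} :=
      ih fun G G' h h' hG => hA (insert a G) (insert a G') (insert_subset_insert a h)
        (insert_subset_insert a h') hG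
    have i2 : PrE E p' A ≤ PrE E p' {G | insert a G ∈ A} :=
      PrE_mono (h0.trans hpp) h1 fun G hG hGA =>
        hA G (insert a G) (subset_insert a G) (insert_subset_insert a hG) hGA
    have e1 : (1 - p) * PrE E p A ≤ (1 - p) * PrE E p' A :=
      mul_le_mul_of_nonneg_left i0 (by linarith)
    have e2 : p * PrE E p {G | insert a G ∈ A} ≤ p * PrE E p' {G | insert a G ∈ A} :=
      mul_le_mul_of_nonneg_left i1 h0
    have e3 : 0 ≤ (p' - p) * (PrE E p' {G | insert a G ∈ A} - PrE E p' A) :=
      mul_nonneg (by linarith) (by linarith)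
    linarith

end Pool.Agent.MP4a7415
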