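import Pool.Agent.Lib.MP_4a7415_co.One
import Pool.Agent.Lib.MP_4a7415_coI.Defs

/-! # Step 4: the union bound (row G) -/

namespace Pool.Agent.MP4a7415

open Finset Filter

/-- Every sparse vector with many blocks far from the integers has many of them in `G`. -/
def Good3 (n q r K : ℕ) (c p : ℝ) (G : Finset (Finset (Fin n))) : Prop :=
  ∀ m ∈ Icc 1 (n.choose r), ∀ S ⊆ Blk n r, S.card ≤ K * m → ∀ z : Finset (Fin n) → ℝ,
    (∀ R, R ∉ S → z R = 0) → (∀ R, |z R| ≤ 1 / 2) → ∀ τ : ℝ,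
    c * (m * (n - r).choose (q - r)) ≤ ((dheavy n q r z τ).card : ℝ) →
    c / 2 * (p * (m * (n - r).choose (q - r))) ≤ ((G ∩ dheavy n q r z τ).card : ℝ)

/-- The incidence matrix with one extra column of ones. -/
noncomputable def aug {n : ℕ} (e : Finset (Fin n)) : Option (Finset (Fin n)) → ℝ
  | none => 1
  | some R => if R ⊆ e then 1 else 0

/-- The family of the affine half spaces. -/
noncomputable def afam (n q : ℕ) (S : Finset (Finset (Fin n))) : Finset (Finset (Finset (Fin n))) :=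
  halfs (Blk n q) (insertNone S) aug

theorem afam_sub {n q : ℕ} {S : Finset (Finset (Fin n))} {H : Finset (Finset (Fin n))}
    (hH : H ∈ afam n q S) : H ⊆ Blk n q := by
  classical
  rw [afam, halfs, mem_filter, mem_powerset] at hH
  exact hH.1

theorem afam_card {n q : ℕ} (S : Finset (Finset (Fin n))) :
    (afam n q S).card ≤ (n.choose q + 1) ^ (S.card + 1) := by
  have hcq : (Blk n q).card = n.choose q := by
    rw [card_powersetCard, card_univ, Fintype.card_fin]
  have := halfs_card (Blk n q) (insertNone S) (aug (n := n))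
  rw [hcq, card_insertNone] at this
  exact this

/-- A set given by an affine inequality is in the family. -/
theorem mem_afam {n q r : ℕ} {S : Finset (Finset (Fin n))} (hS : S ⊆ Blk n r)
    {z : Finset (Fin n) → ℝ} (hz : ∀ R, R ∉ S → z R = 0) (b : ℝ) :
    (Blk n q).filter (fun e => 1 ≤ ev r z e + b) ∈ afam n q S := by
  classical
  rw [afam, halfs, mem_filter, mem_powerset]
  refine ⟨filter_subset _ _, fun o => o.elim b z, fun e he => ?_⟩
  have h1 : ∑ R ∈ insertNone S, aug e R * (fun o : Option (Finset (Fin n)) => o.elim b z) R =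
      b + ∑ R ∈ S, (if R ⊆ e then (1 : ℝ) else 0) * z R := by
    rw [sum_insertNone]
    simp [aug]
  rw [mem_filter, h1, ev_supp hS hz, add_comm b]
  exact ⟨fun h => h.2, fun h => ⟨he, h⟩⟩

/-- The set given by a list of pairs of half spaces. -/
noncomputable def dset (n q N : ℕ)
    (f : Fin N → Finset (Finset (Fin n)) × Finset (Finset (Fin n))) :
    Finset (Finset (Fin n)) := by
  classical
  exact (Blk n q).filter fun e => ∀ j, e ∈ (f j).1 ∨ e ∈ (f j).2

theorem ev_abs_le {n q r : ℕ} {z : Finset (Fin n) → ℝ} (hz : ∀ R, |z R| ≤ 1 / 2)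
    {e : Finset (Fin n)} (he : e ∈ Blk n q) : |ev r z e| ≤ (q.choose r : ℝ) / 2 := by
  rw [ev]
  refine (abs_sum_le_sum_abs _ _).trans ((sum_le_sum fun R _ => hz R).trans ?_)
  rw [sum_const, card_powersetCard, (mem_powersetCard.1 he).2, nsmul_eq_mul]
  linarith

theorem le_dZ_iff {J : ℕ} (hJ : 1 ≤ J) {x τ : ℝ} (hx : |x| ≤ (J : ℝ) / 2) :
    τ ≤ dZ x ↔ ∀ j : Fin (2 * J + 1), τ ≤ x - (((j : ℕ) : ℝ) - J) ∨
      τ ≤ (((j : ℕ) : ℝ) - J) - x := by
  constructor
  · intro h j
    have h1 := h.trans (dZ_le x (((j : ℕ) : ℤ) - J))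
    push_cast at h1
    rcases le_abs.1 h1 with h2 | h2
    · exact Or.inl h2
    · right
      linarith
  · intro h
    -- the nearest integer
    have hJ' : (1 : ℝ) ≤ J := by exact_mod_cast hJ
    have h1 := abs_sub_round x
    have h2 := abs_le.1 h1
    have h3 := abs_le.1 hx
    have h4 : (-(J : ℤ)) ≤ round x := by
      have : (-(J : ℝ)) ≤ round x := by linarith [h2.2, h3.1]
      exact_mod_cast this
    have h5 : round x ≤ (J : ℤ) := by
      have : ((round x : ℤ) : ℝ) ≤ J := by linarith [h2.1, h3.2]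
      exact_mod_cast this
    obtain ⟨k, hk⟩ := Int.eq_ofNat_of_zero_le (show 0 ≤ round x + J by linarith)
    have hk2 : k < 2 * J + 1 := by omega
    have h6 := h ⟨k, hk2⟩
    have h7 : ((k : ℝ)) - J = (round x : ℝ) := by
      have : ((k : ℤ) : ℝ) = ((round x + J : ℤ) : ℝ) := by rw [hk]
      push_cast at this
      linarith
    simp only at h6
    rw [h7] at h6
    rw [dZ]
    rcases h6 with h6 | h6
    · exact h6.trans (le_abs_self _)
    · exact h6.trans (by rw [abs_sub_comm]; exact le_abs_self _)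

theorem dheavy_mem {n q r : ℕ} (hqr : r ≤ q) {S : Finset (Finset (Fin n))} (hS : S ⊆ Blk n r)
    {z : Finset (Fin n) → ℝ} (hz : ∀ R, R ∉ S → z R = 0) (hz2 : ∀ R, |z R| ≤ 1 / 2) (τ : ℝ) :
    ∃ f ∈ Fintype.piFinset (fun _ : Fin (2 * q.choose r + 1) => afam n q S ×ˢ afam n q S),
      dheavy n q r z τ = dset n q (2 * q.choose r + 1) f := by
  classical
  have hJ : 1 ≤ q.choose r := Nat.choose_pos hqr
  have hneg : ∀ e, ev r (fun R => - z R) e = - ev r z e := by
    intro e
    rw [ev, ev, sum_neg_distrib]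
  refine ⟨fun j => ((Blk n q).filter (fun e => 1 ≤ ev r z e + (1 - (((j : ℕ) : ℝ) - q.choose r) - τ)),
    (Blk n q).filter (fun e => 1 ≤ ev r (fun R => - z R) e +
      (1 + (((j : ℕ) : ℝ) - q.choose r) - τ))), ?_, ?_⟩
  · rw [Fintype.mem_piFinset]
    intro j
    rw [mem_product]
    exact ⟨mem_afam hS hz _, mem_afam hS (fun R hR => by rw [hz R hR, neg_zero]) _⟩
  · ext e
    rw [dheavy, dset, mem_filter, mem_filter]
    refine and_congr_right fun he => ?_
    rw [le_dZ_iff hJ (ev_abs_le hz2 he)]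
    refine forall_congr' fun j => ?_
    simp only [mem_filter, he, true_and, hneg]
    constructor
    · rintro (h | h)
      · left; linarith
      · right; linarith
    · rintro (h | h)
      · left; linarith
      · right; linarith

/-- The failure event for `m` and `S`. -/
def Fail3 (n q r : ℕ) (c p : ℝ) (m : ℕ) (S : Finset (Finset (Fin n))) :
    Set (Finset (Finset (Fin n))) :=
  {G | ∃ z : Finset (Fin n) → ℝ, (∀ R, R ∉ S → z R = 0) ∧ (∀ R, |z R| ≤ 1 / 2) ∧ ∃ τ : ℝ,
    c * (m * (n - r).choose (q - r)) ≤ ((dheavy n q r z τ).card : ℝ) ∧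
    ((G ∩ dheavy n q r z τ).card : ℝ) < c / 2 * (p * (m * (n - r).choose (q - r)))}

/-- The failure event for `m`. -/
def FailM3 (n q r K : ℕ) (c p : ℝ) (m : ℕ) : Set (Finset (Finset (Fin n))) :=
  {G | ∃ S ∈ (Blk n r).powerset.filter (fun F => F.card ≤ K * m), G ∈ Fail3 n q r c p m S}

theorem fail3_prob {n q r K m : ℕ} (hqr : r ≤ q) (hm : 1 ≤ m) {c p : ℝ} (h0 : 0 ≤ p) (h1 : p ≤ 1)
    {S : Finset (Finset (Fin n))} (hS : S ⊆ Blk n r) (hc : S.card ≤ K * m) :
    PrE (Blk n q) p (Fail3 n q r c p m S) ≤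
      ((n.choose q + 1 : ℕ) : ℝ) ^ (2 * (2 * q.choose r + 1) * (K + 1) * m) *
        Real.exp (-(c * (p * (m * (n - r).choose (q - r))) / 16)) := by
  classical
  set X : ℝ := p * (m * (n - r).choose (q - r)) with hX
  set N : ℕ := 2 * q.choose r + 1 with hN
  have key : ∀ f ∈ Fintype.piFinset (fun _ : Fin N => afam n q S ×ˢ afam n q S),
      PrE (Blk n q) p {G | c * (m * (n - r).choose (q - r)) ≤ ((dset n q N f).card : ℝ) ∧
        ((G ∩ dset n q N f).card : ℝ) < c / 2 * X} ≤ Real.exp (-(c * X / 16)) := by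
    intro f _
    by_cases hm : c * (m * (n - r).choose (q - r)) ≤ ((dset n q N f).card : ℝ)
    · have hm' : c * X ≤ p * (dset n q N f).card := by
        have := mul_le_mul_of_nonneg_left hm h0
        rw [hX]
        linarith
      have hsub : dset n q N f ⊆ Blk n q := filter_subset _ _
      refine (PrE_mono h0 h1 (B := {G | ((G ∩ dset n q N f).card : ℝ) ≤
        (1 - 1 / 2) * (p * (dset n q N f).card)}) ?_).trans
        ((lower_tail hsub h0 h1 (by norm_num) (by norm_num)).trans ?_)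
      · rintro G _ ⟨-, h⟩
        change ((G ∩ dset n q N f).card : ℝ) ≤ (1 - 1 / 2) * (p * (dset n q N f).card)
        refine h.le.trans ?_
        linarith
      · rw [Real.exp_le_exp, neg_le_neg_iff]
        linarith
    · refine le_trans (le_of_eq ?_) (Real.exp_pos _).le
      rw [PrE]
      refine sum_eq_zero fun G _ => ?_
      rw [Set.indicator_of_notMem]
      rintro ⟨h, -⟩
      exact hm h
  have h2 := PrE_exists_le h0 h1 (Fintype.piFinset (fun _ : Fin N => afam n q S ×ˢ afam n q S))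
    (fun f => {G | c * (m * (n - r).choose (q - r)) ≤ ((dset n q N f).card : ℝ) ∧
        ((G ∩ dset n q N f).card : ℝ) < c / 2 * X}) key
  refine (PrE_mono h0 h1 ?_).trans (h2.trans ?_)
  · rintro G _ ⟨z, hz, hz2, τ, hm, hG⟩
    obtain ⟨f, hf, he⟩ := dheavy_mem hqr hS hz hz2 τ
    refine ⟨f, hf, ?_⟩
    change c * (m * (n - r).choose (q - r)) ≤ ((dset n q N f).card : ℝ) ∧
        ((G ∩ dset n q N f).card : ℝ) < c / 2 * X
    rw [← he]
    exact ⟨hm, hG⟩
  · refine mul_le_mul_of_nonneg_right ?_ (Real.exp_pos _).le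
    rw [Fintype.card_piFinset]
    simp only [card_product, prod_const, card_univ, Fintype.card_fin]
    have h3 : (afam n q S).card ≤ (n.choose q + 1) ^ ((K + 1) * m) := by
      refine (afam_card S).trans (Nat.pow_le_pow_right (by omega) ?_)
      nlinarith
    have h4 : ((afam n q S).card * (afam n q S).card) ^ N ≤
        (n.choose q + 1) ^ (2 * (2 * q.choose r + 1) * (K + 1) * m) := by
      calc ((afam n q S).card * (afam n q S).card) ^ N
          ≤ ((n.choose q + 1) ^ ((K + 1) * m) * (n.choose q + 1) ^ ((K + 1) * m)) ^ N :=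
            Nat.pow_le_pow_left (Nat.mul_le_mul h3 h3) _
        _ = (n.choose q + 1) ^ (2 * (2 * q.choose r + 1) * (K + 1) * m) := by
            rw [← pow_add, ← pow_mul]
            congr 1
            rw [hN]
            ring
    exact_mod_cast h4

theorem pow_id3 (a b x : ℝ) (K L m : ℕ) : (a ^ K * b ^ L * Real.exp (-x)) ^ m =
    a ^ (K * m) * (b ^ (L * m) * Real.exp (-(m * x))) := by
  rw [mul_pow, ← Real.exp_nat_mul, mul_pow, ← pow_mul, ← pow_mul, mul_assoc, mul_neg]

theorem sum_S3 {n q r K m : ℕ} (hqr : r ≤ q) (hm : 1 ≤ m) {c p : ℝ} (h0 : 0 ≤ p) (h1 : p ≤ 1) :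
    PrE (Blk n q) p (FailM3 n q r K c p m) ≤
      (((n.choose r + 1 : ℕ) : ℝ) ^ K *
        ((n.choose q + 1 : ℕ) : ℝ) ^ (2 * (2 * q.choose r + 1) * (K + 1)) *
      Real.exp (-(c * (p * (n - r).choose (q - r)) / 16))) ^ m := by
  have hcr : (Blk n r).card = n.choose r := by
    rw [card_powersetCard, card_univ, Fintype.card_fin]
  refine (PrE_exists_le h0 h1 _ _ (b := ((n.choose q + 1 : ℕ) : ℝ) ^
      (2 * (2 * q.choose r + 1) * (K + 1) * m) *
      Real.exp (-(c * (p * (m * (n - r).choose (q - r))) / 16))) ?_).trans ?_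
  · intro S hS
    rw [mem_filter, mem_powerset] at hS
    exact fail3_prob hqr hm h0 h1 hS.1 hS.2
  · have h3 : (((Blk n r).powerset.filter (fun F => F.card ≤ K * m)).card : ℝ) ≤
        ((n.choose r + 1 : ℕ) : ℝ) ^ (K * m) := by
      have := small_subsets (Blk n r) (K * m)
      rw [hcr] at this
      exact_mod_cast this
    rw [pow_id3]
    have e : (m : ℝ) * (c * (p * (n - r).choose (q - r)) / 16) =
        c * (p * (m * (n - r).choose (q - r))) / 16 := by ring
    rw [e]
    exact mul_le_mul_of_nonneg_right h3 (by positivity)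

theorem good3_sub {n q r K : ℕ} {c p : ℝ} {G : Finset (Finset (Fin n))}
    (hG : ¬ Good3 n q r K c p G) :
    ∃ m ∈ Icc 1 (n.choose r), G ∈ FailM3 n q r K c p m := by
  unfold Good3 at hG
  push Not at hG
  obtain ⟨m, hm, S, hS, hc, z, hz, hz2, τ, h7, h8⟩ := hG
  exact ⟨m, hm, S, mem_filter.2 ⟨mem_powerset.2 hS, hc⟩, z, hz, hz2, τ, h7, h8⟩

/-- The probability that `Good3` fails. -/
theorem good3_prob (q r K : ℕ) (hr : 1 ≤ r) (hqr : r < q) (c : ℝ) (hc : 0 < c) :
    ∃ C : ℝ, 0 < C ∧ ∀ᶠ n : ℕ in atTop, ∀ p : ℝ, p ≤ 1 →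
      C * (Real.log n / (n : ℝ) ^ (q - r)) ≤ p →
      PrE (Blk n q) p {G | ¬ Good3 n q r K c p G} ≤ 1 / n := by
  obtain ⟨L, hL⟩ : ∃ L : ℕ, L = 2 * (2 * q.choose r + 1) * (K + 1) := ⟨_, rfl⟩
  obtain ⟨C1, hC1⟩ : ∃ C1 : ℝ, C1 = 16 * (q * K + q * L + q + 1) / c := ⟨_, rfl⟩
  have hC10 : 0 < C1 := by
    rw [hC1]
    positivity
  refine ⟨C1 * (2 ^ (q - r) * (q - r).factorial), by positivity, ?_⟩
  filter_upwards [eventually_ge_atTop (2 * q)] with n hn p h1 hp
  have hn2 : 2 ≤ n := by omega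
  have hn0 : (0 : ℝ) < n := by exact_mod_cast (by omega : 0 < n)
  have hn1 : (1 : ℝ) ≤ n := by exact_mod_cast (by omega : 1 ≤ n)
  have hl0 : 0 < Real.log n := Real.log_pos (by exact_mod_cast hn2)
  have hp0 : 0 < p := lt_of_lt_of_le (by positivity) hp
  obtain ⟨D, hD⟩ : ∃ D, D = p * ((n - r).choose (q - r) : ℝ) := ⟨_, rfl⟩
  -- the mean degree
  have hDC : C1 * Real.log n ≤ D := by
    have h2 := Nat.pow_le_choose (α := ℝ) (q - r) (n - r)
    have h3 : ((n : ℝ) / 2) ^ (q - r) ≤ (((n - r + 1 - (q - r) : ℕ) : ℝ)) ^ (q - r) := by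
      refine pow_le_pow_left₀ (by positivity) ?_ _
      have : n ≤ 2 * (n - r + 1 - (q - r)) := by omega
      have : (n : ℝ) ≤ 2 * ((n - r + 1 - (q - r) : ℕ) : ℝ) := by exact_mod_cast this
      linarith
    have hf : (0 : ℝ) < (q - r).factorial := by exact_mod_cast Nat.factorial_pos _
    have h4 : ((n : ℝ) / 2) ^ (q - r) / (q - r).factorial ≤ (n - r).choose (q - r) :=
      (div_le_div_of_nonneg_right h3 hf.le).trans h2
    rw [hD]
    have h5 := mul_le_mul hp h4 (by positivity) hp0.le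
    refine le_trans (le_of_eq ?_) h5
    rw [div_pow]
    field_simp
  have hch : (n.choose r : ℝ) ≤ (n : ℝ) ^ r := by
    exact_mod_cast Nat.choose_le_pow n r
  obtain ⟨x, hx⟩ : ∃ x, x = ((n.choose r + 1 : ℕ) : ℝ) ^ K *
        ((n.choose q + 1 : ℕ) : ℝ) ^ (2 * (2 * q.choose r + 1) * (K + 1)) *
      Real.exp (-(c * (p * (n - r).choose (q - r)) / 16)) := ⟨_, rfl⟩
  have hx0 : 0 ≤ x := by
    rw [hx]
    positivity
  have hxρ : x ≤ 1 / (n : ℝ) ^ (q + 1) := by
    rw [hx, ← hD, ← hL]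
    have e1 : ((n.choose r + 1 : ℕ) : ℝ) ≤ (n : ℝ) ^ q := by
      exact_mod_cast choose_succ_le (by omega) hqr.le hn2
    have e2 : ((n.choose q + 1 : ℕ) : ℝ) ≤ (n : ℝ) ^ q := by
      exact_mod_cast choose_succ_le (by omega) le_rfl hn2
    have e3 : ((n.choose r + 1 : ℕ) : ℝ) ^ K * ((n.choose q + 1 : ℕ) : ℝ) ^ L ≤
        ((n : ℝ) ^ q) ^ K * ((n : ℝ) ^ q) ^ L :=
      mul_le_mul (pow_le_pow_left₀ (by positivity) e1 _) (pow_le_pow_left₀ (by positivity) e2 _)
        (by positivity) (by positivity)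
    have e4 : ((n : ℝ) ^ q) ^ K * ((n : ℝ) ^ q) ^ L =
        Real.exp ((q * K + q * L : ℕ) * Real.log n) := by
      rw [← Real.log_pow, Real.exp_log (by positivity)]
      ring
    rw [e4] at e3
    refine (mul_le_mul_of_nonneg_right e3 (Real.exp_pos _).le).trans ?_
    rw [← Real.exp_add, ← exp_neg_mul_log (by omega) (q + 1), Real.exp_le_exp]
    have e5 : (q * K + q * L + q + 1) * Real.log n ≤ c * D / 16 := by
      have h6 := mul_le_mul_of_nonneg_left hDC hc.le
      rw [hC1] at h6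
      have h7 : c * (16 * (q * K + q * L + q + 1) / c * Real.log n) =
          16 * ((q * K + q * L + q + 1) * Real.log n) := by
        field_simp
      rw [h7] at h6
      linarith
    push_cast
    linarith
  have hρ1 : 1 / (n : ℝ) ^ (q + 1) ≤ 1 := by
    rw [div_le_one (by positivity)]
    exact one_le_pow₀ hn1
  have hA : ∀ m ∈ Icc 1 (n.choose r), PrE (Blk n q) p (FailM3 n q r K c p m) ≤
      1 / (n : ℝ) ^ (q + 1) := by
    intro m hm
    rw [mem_Icc] at hm
    have h3 := sum_S3 (n := n) (K := K) (m := m) (c := c) hqr.le hm.1 hp0.le h1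
    rw [← hx] at h3
    refine h3.trans ((pow_le_pow_left₀ hx0 hxρ m).trans ?_)
    exact pow_le_of_le_one (by positivity) hρ1 (by omega)
  have h6 := PrE_exists_le hp0.le h1 (Icc 1 (n.choose r)) (FailM3 n q r K c p) hA
  have hcc : (Icc 1 (n.choose r)).card = n.choose r := by simp
  rw [hcc] at h6
  refine ((PrE_mono hp0.le h1 fun G _ hG => good3_sub hG).trans h6).trans ?_
  have e6 : (n.choose r : ℝ) * (1 / (n : ℝ) ^ (q + 1)) ≤
      (n : ℝ) ^ r * (1 / (n : ℝ) ^ (q + 1)) :=
    mul_le_mul_of_nonneg_right hch (by positivity)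
  refine e6.trans ?_
  have e7 : (n : ℝ) ^ (r + 1) ≤ (n : ℝ) ^ (q + 1) := pow_le_pow_right₀ hn1 (by omega)
  rw [mul_one_div, div_le_div_iff₀ (by positivity) hn0, one_mul, ← pow_succ]
  exact e7

end Pool.Agent.MP4a7415
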