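import Pool.Agent.Lib.MP_4a7415_coI.FormalPoint
import Pool.Agent.Lib.MP_4a7415_coI.Decode
import Pool.Agent.Lib.MP_4a7415_coI.AvgW

/-! # Step 3: shortest vectors spread (row E) -/

namespace Pool.Agent.MP4a7415

open Finset Filter

private theorem spr_int_zero {Q x : ℝ} (hQ : 0 < Q) (hk : ∃ k : ℤ, Q * x = k)
    (h : |x| < 1 / Q) : x = 0 := by
  obtain ⟨k, hk⟩ := hk
  have h1 : |(k : ℝ)| < 1 := by
    rw [← hk, abs_mul, abs_of_pos hQ]
    rwa [lt_div_iff₀ hQ, mul_comm] at h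
  have h2 : k = 0 := by
    have h3 : |k| < 1 := by exact_mod_cast h1
    exact Int.abs_lt_one_iff.1 h3
  rw [h2, Int.cast_zero, mul_eq_zero] at hk
  exact hk.resolve_left hQ.ne'

/-- the change of one coordinate -/
private theorem spr_drop {Q x x0 a : ℝ} (hQ : 1 ≤ Q) (hk : ∃ k : ℤ, Q * x0 = k)
    (ha : a ≤ 1 / (8 * Q)) (h : |x - x0| ≤ a) (h0 : x0 ≠ 0) :
    (x - x0) ^ 2 ≤ x ^ 2 - 3 / (4 * Q ^ 2) := by
  have hQ0 : 0 < Q := by linarith
  have h1 : 1 / Q ≤ |x0| := by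
    by_contra hc
    exact h0 (spr_int_zero hQ0 hk (not_le.1 hc))
  have h2 : |x - x0| ≤ 1 / (8 * Q) := h.trans ha
  have h3 : 7 / (8 * Q) ≤ |x| := by
    have h4 : |x0| ≤ |x| + |x - x0| := by
      have h5 := abs_sub_abs_le_abs_sub x0 x
      rw [abs_sub_comm x0 x] at h5
      linarith
    have h6 : 7 / (8 * Q) = 1 / Q - 1 / (8 * Q) := by
      field_simp
      ring
    linarith
  have h7 : (x - x0) ^ 2 ≤ (1 / (8 * Q)) ^ 2 := by
    rw [← sq_abs (x - x0)]
    exact pow_le_pow_left₀ (abs_nonneg _) h2 2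
  have h8 : (7 / (8 * Q)) ^ 2 ≤ x ^ 2 := by
    rw [← sq_abs x]
    exact pow_le_pow_left₀ (by positivity) h3 2
  have h9 : (7 / (8 * Q)) ^ 2 - 3 / (4 * Q ^ 2) = (1 / (8 * Q)) ^ 2 := by
    field_simp
    ring
  linarith

private theorem spr_round (x : ℝ) : (x - round x) ^ 2 ≤ 1 / 4 := by
  have h := abs_sub_round x
  rw [← sq_abs (x - round x)]
  calc |x - round x| ^ 2 ≤ (1 / 2) ^ 2 := pow_le_pow_left₀ (abs_nonneg _) h 2
    _ = 1 / 4 := by norm_num

/-- the values of the cut off vector -/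
private theorem spr_cutb (n r : ℕ) (y : Finset (Fin n) → ℝ) (t : ℝ) (R : Finset (Fin n)) :
    (R ∈ lev n r y t → cutb n r y t R = y R) ∧ (R ∉ lev n r y t → cutb n r y t R = 0) := by
  classical
  unfold cutb
  constructor
  · intro h
    rw [if_pos h]
  · intro h
    rw [if_neg h]

/-- the counting part of the argument -/
private theorem spr_count {ι : Type*} [DecidableEq ι] (B S X Mt : Finset ι) (hS : S ⊆ B)
    (x y0 : ι → ℝ) {δ : ℝ} (hδ : 0 ≤ δ)
    (hX : ∀ R ∈ B, R ∈ X → (x R - y0 R) ^ 2 ≤ 1 / 4)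
    (h0 : ∀ R ∈ B, R ∉ X → (x R - y0 R) ^ 2 ≤ x R ^ 2)
    (hd : ∀ R ∈ S, R ∉ X → R ∉ Mt → (x R - y0 R) ^ 2 ≤ x R ^ 2 - δ)
    (hmin : ∑ R ∈ B, x R ^ 2 ≤ ∑ R ∈ B, (x R - y0 R) ^ 2) :
    δ * S.card ≤ (δ + 1 / 4) * X.card + δ * Mt.card := by
  have h1 : ∀ R ∈ B, (x R - y0 R) ^ 2 ≤ x R ^ 2 - δ * (if R ∈ S then 1 else 0) +
      (δ + 1 / 4) * (if R ∈ X then 1 else 0) + δ * (if R ∈ Mt then 1 else 0) := by
    intro R hR
    have hx2 : 0 ≤ x R ^ 2 := sq_nonneg _
    by_cases hRX : R ∈ X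
    · have := hX R hR hRX
      rw [if_pos hRX]
      split_ifs <;> linarith
    · have e1 := h0 R hR hRX
      rw [if_neg hRX]
      by_cases hRM : R ∈ Mt
      · rw [if_pos hRM]
        split_ifs <;> linarith
      · rw [if_neg hRM]
        by_cases hRS : R ∈ S
        · have := hd R hRS hRX hRM
          rw [if_pos hRS]
          linarith
        · rw [if_neg hRS]
          linarith
  have h2 := sum_le_sum h1
  simp only [sum_add_distrib, sum_sub_distrib, ← mul_sum] at h2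
  have h3 : ∀ T : Finset ι, ∑ R ∈ B, (if R ∈ T then (1 : ℝ) else 0) = ((B ∩ T).card : ℝ) := by
    intro T
    rw [← sum_filter, sum_const, nsmul_eq_mul, mul_one, filter_mem_eq_inter]
  rw [h3, h3, h3] at h2
  have h4 : ((B ∩ S).card : ℝ) = S.card := by
    rw [inter_eq_right.2 hS]
  have h5 : ((B ∩ X).card : ℝ) ≤ X.card := by
    exact_mod_cast card_le_card inter_subset_right
  have h6 : ((B ∩ Mt).card : ℝ) ≤ Mt.card := by
    exact_mod_cast card_le_card inter_subset_right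
  rw [h4] at h2
  have h7 : (δ + 1 / 4) * ((B ∩ X).card : ℝ) ≤ (δ + 1 / 4) * X.card :=
    mul_le_mul_of_nonneg_left h5 (by linarith)
  have h8 : δ * ((B ∩ Mt).card : ℝ) ≤ δ * Mt.card := mul_le_mul_of_nonneg_left h6 hδ
  linarith

/-- A shortest vector has many blocks with sum far from the integers, at every level `t` with
not too many coordinates above `t / L`. -/
theorem spread (q r : ℕ) (hr : 1 ≤ r) (hqr : r < q) : ∃ B1 c1 : ℝ, 1 ≤ B1 ∧ 0 < c1 ∧
    ∀ L K : ℝ, 1 ≤ L → 0 < K → ∀ᶠ n : ℕ in atTop, ∀ y : Finset (Fin n) → ℝ, Min n q r y →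
      ∀ t : ℝ, 0 < t → t ≤ 1 / 2 →
      ((lev n r y (t / L)).card : ℝ) ≤ K * (lev n r y t).card →
      c1 * ((lev n r y t).card * (n - r).choose (q - r)) ≤
        ((dheavy n q r (cutb n r y (t / L)) (t / B1)).card : ℝ) := by
  classical
  obtain ⟨w, A, hqw, hw, hfp⟩ := formal_point q
  obtain ⟨Bd, hBd, hdec⟩ := decode q r A w hqr.le
  obtain ⟨C1, hC1, hch⟩ := choose_W q r w hr hqr hw
  set Q : ℝ := (Qc q r : ℝ) with hQdef
  have hQ : 1 ≤ Q := by
    have h1 : 1 ≤ Qc q r := Qc_pos (q := q) (r := r) hqr.le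
    rw [hQdef]
    exact_mod_cast h1
  have hQ0 : 0 < Q := by linarith
  set δ : ℝ := 3 / (4 * Q ^ 2) with hδdef
  have hδ : 0 < δ := by positivity
  have hδ1 : δ ≤ 3 / 4 := by
    rw [hδdef]
    refine div_le_div_of_nonneg_left (by norm_num) (by norm_num) ?_
    nlinarith
  refine ⟨4 * Q * Bd, δ / (4 * C1), ?_, by positivity, ?_⟩
  · nlinarith
  intro L K hL hK
  filter_upwards [eventually_ge_atTop w, eventually_ge_atTop q, eventually_ge_atTop 1,
    eventually_ge_atTop ⌈4 * C1 * K / δ⌉₊, eventually_ge_atTop ⌈4 * C1⌉₊] with n hnw hnq hn1 hnK hnC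
  intro y hy t ht ht2 hK1
  have hn0 : (0 : ℝ) < n := by exact_mod_cast hn1
  have hnK' : C1 * K / n ≤ δ / 4 := by
    have h1 : 4 * C1 * K / δ ≤ n := (Nat.le_ceil _).trans (by exact_mod_cast hnK)
    rw [div_le_iff₀ hδ] at h1
    rw [div_le_iff₀ hn0]
    linarith
  have hnC' : C1 / n ≤ 1 / 4 := by
    have h1 : 4 * C1 ≤ n := (Nat.le_ceil _).trans (by exact_mod_cast hnC)
    rw [div_le_iff₀ hn0]
    linarith
  set S := lev n r y t with hS
  set Z := lev n r y (t / L) with hZ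
  set z := cutb n r y (t / L) with hz
  set E' := dheavy n q r z (t / (4 * Q * Bd)) with hE'
  by_contra hcon
  rw [not_le] at hcon
  have hs0 : (0 : ℝ) < S.card := by
    rcases Nat.eq_zero_or_pos S.card with h | h
    · rw [h] at hcon
      simp only [Nat.cast_zero, zero_mul, mul_zero] at hcon
      exact absurd hcon (not_lt.2 (Nat.cast_nonneg _))
    · exact_mod_cast h
  have hSB : S ⊆ Blk n r := filter_subset _ _
  have hZB : Z ⊆ Blk n r := filter_subset _ _
  have hEB : E' ⊆ Blk n q := filter_subset _ _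
  obtain ⟨W, hWc, hX1, hM, hX3⟩ := hch n hnw hnq E' S Z hEB hSB hZB
  obtain ⟨c, hc, hcA⟩ := hfp n W hWc
  obtain ⟨z0, hz0L, hz0Q, hz0d, hz0s⟩ := hdec n W c hWc hc hcA z
  set X1 := (Blk n r).filter fun R => Disjoint R W ∧ ∃ e ∈ E', e ⊆ R ∪ W with hX1d
  set X3 := (Blk n r).filter fun R => ¬ Disjoint R W ∧ ∃ R' ∈ Z, R' ⊆ R ∪ W with hX3d
  set Mt := S.filter fun R => ¬ Disjoint R W with hMd
  have hBB : 0 < 4 * Q * Bd := by positivity
  -- the size of the exceptional sets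
  have hE1 : (E'.card : ℝ) / (n : ℝ) ^ (q - r) ≤ δ / (4 * C1) * S.card := by
    rw [div_le_iff₀ (by positivity)]
    refine hcon.le.trans ?_
    rw [mul_assoc]
    refine mul_le_mul_of_nonneg_left (mul_le_mul_of_nonneg_left ?_ hs0.le) (by positivity)
    have h1 : (n - r).choose (q - r) ≤ n ^ (q - r) :=
      (Nat.choose_le_pow (n - r) (q - r)).trans (Nat.pow_le_pow_left (Nat.sub_le n r) _)
    exact_mod_cast h1
  have hX1' : (X1.card : ℝ) ≤ δ / 4 * S.card := by
    refine hX1.trans ((mul_le_mul_of_nonneg_left hE1 hC1.le).trans (le_of_eq ?_))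
    field_simp
  have hX3' : (X3.card : ℝ) ≤ δ / 4 * S.card := by
    refine hX3.trans ?_
    calc C1 * ((Z.card : ℝ) / n) ≤ C1 * (K * S.card / n) := by
          refine mul_le_mul_of_nonneg_left ?_ hC1.le
          exact div_le_div_of_nonneg_right hK1 hn0.le
      _ = C1 * K / n * S.card := by ring
      _ ≤ δ / 4 * S.card := mul_le_mul_of_nonneg_right hnK' hs0.le
  have hM' : (Mt.card : ℝ) ≤ 1 / 4 * S.card := by
    refine hM.trans ?_
    calc C1 * ((S.card : ℝ) / n) = C1 / n * S.card := by ring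
      _ ≤ 1 / 4 * S.card := mul_le_mul_of_nonneg_right hnC' hs0.le
  set X := X1 ∪ X3 with hX
  have hXc : (X.card : ℝ) ≤ δ / 2 * S.card := by
    have h1 : (X.card : ℝ) ≤ X1.card + X3.card := by exact_mod_cast card_union_le X1 X3
    linarith
  -- the competitor
  let y0 : Finset (Fin n) → ℝ := fun R => if R ∈ X then z0 R + round (y R - z0 R) else z0 R
  have hy0L : Lst n q r y0 := by
    intro e he
    obtain ⟨k, hk⟩ := hz0L e he
    refine ⟨k + ∑ R ∈ powersetCard r e, (if R ∈ X then round (y R - z0 R) else 0), ?_⟩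
    rw [Int.cast_add, ← hk, Int.cast_sum, ev, ev, ← sum_add_distrib]
    refine sum_congr rfl fun R _ => ?_
    change (if R ∈ X then z0 R + round (y R - z0 R) else z0 R) = _
    split_ifs
    · rfl
    · rw [Int.cast_zero, add_zero]
  have hta : t / (4 * Q * Bd) * Bd = t / (4 * Q) := by
    field_simp
  have ht8 : t / (4 * Q) ≤ 1 / (8 * Q) := by
    rw [div_le_div_iff₀ (by positivity) (by positivity)]
    nlinarith
  -- outside the exceptional sets
  have hgood : ∀ R ∈ Blk n r, R ∉ X → z0 R ≠ 0 → Disjoint R W := by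
    intro R hR hRX h0
    by_contra hd
    refine hRX (mem_union_right _ (mem_filter.2 ⟨hR, hd, ?_⟩))
    obtain ⟨R', hR', hR'W, hR'0⟩ := hz0s R hR h0
    refine ⟨R', ?_, hR'W⟩
    by_contra hR'Z
    exact hR'0 ((spr_cutb n r y (t / L) R').2 hR'Z)
  have hclose : ∀ R ∈ Blk n r, R ∉ X → Disjoint R W → |z R - z0 R| ≤ t / (4 * Q) := by
    intro R hR hRX hd
    rw [← hta, mul_comm]
    refine hz0d R hR hd _ fun e he heW => ?_
    by_contra hlt
    refine hRX (mem_union_left _ (mem_filter.2 ⟨hR, hd, e, mem_filter.2 ⟨he, (not_le.1 hlt).le⟩,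
      heW⟩))
  have hzZ : ∀ R, R ∈ Z → z R = y R := fun R h => (spr_cutb n r y (t / L) R).1 h
  have hzZ' : ∀ R, R ∉ Z → z R = 0 := fun R h => (spr_cutb n r y (t / L) R).2 h
  have hZ0 : ∀ R ∈ Blk n r, R ∉ X → z0 R ≠ 0 → R ∈ Z := by
    intro R hR hRX h0
    by_contra hRZ
    refine h0 (spr_int_zero hQ0 (hz0Q R hR) ?_)
    have h1 := hclose R hR hRX (hgood R hR hRX h0)
    rw [hzZ' R hRZ, zero_sub, abs_neg] at h1
    refine (h1.trans ht8).trans_lt ?_
    rw [div_lt_div_iff₀ (by positivity) hQ0]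
    nlinarith
  have hdrop : ∀ R ∈ Blk n r, R ∉ X → z0 R ≠ 0 → (y R - z0 R) ^ 2 ≤ y R ^ 2 - δ := by
    intro R hR hRX h0
    have h1 := hclose R hR hRX (hgood R hR hRX h0)
    rw [hzZ R (hZ0 R hR hRX h0)] at h1
    exact spr_drop hQ (hz0Q R hR) ht8 h1 h0
  have hcount := spr_count (Blk n r) S X Mt hSB y y0 hδ.le
    (fun R _ hRX => by
      change (y R - (if R ∈ X then z0 R + round (y R - z0 R) else z0 R)) ^ 2 ≤ 1 / 4
      rw [if_pos hRX, ← sub_sub]
      exact spr_round _)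
    (fun R hR hRX => by
      change (y R - (if R ∈ X then z0 R + round (y R - z0 R) else z0 R)) ^ 2 ≤ y R ^ 2
      rw [if_neg hRX]
      by_cases h0 : z0 R = 0
      · rw [h0, sub_zero]
      · linarith [hdrop R hR hRX h0])
    (fun R hRS hRX hRM => by
      change (y R - (if R ∈ X then z0 R + round (y R - z0 R) else z0 R)) ^ 2 ≤ y R ^ 2 - δ
      rw [if_neg hRX]
      refine hdrop R (hSB hRS) hRX fun h0 => ?_
      have hd : Disjoint R W := by
        by_contra hd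
        exact hRM (mem_filter.2 ⟨hRS, hd⟩)
      have h1 := hclose R (hSB hRS) hRX hd
      have hRt : t ≤ |y R| := (mem_filter.1 hRS).2
      have hRZ : R ∈ Z := by
        refine mem_filter.2 ⟨hSB hRS, le_trans ?_ hRt⟩
        exact div_le_self ht.le hL
      rw [hzZ R hRZ, h0, sub_zero] at h1
      have h2 : t / (4 * Q) < t := div_lt_self ht (by linarith)
      linarith)
    (hy.2 y0 hy0L)
  have h1 : (δ + 1 / 4) * (X.card : ℝ) ≤ δ / 2 * S.card := by
    calc (δ + 1 / 4) * (X.card : ℝ) ≤ 1 * X.card :=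
          mul_le_mul_of_nonneg_right (by linarith) (Nat.cast_nonneg _)
      _ ≤ δ / 2 * S.card := by rw [one_mul]; exact hXc
  have h2 : δ * (Mt.card : ℝ) ≤ δ * (1 / 4 * S.card) := mul_le_mul_of_nonneg_left hM' hδ.le
  have h3 : 0 < δ * S.card := mul_pos hδ hs0
  nlinarith

end Pool.Agent.MP4a7415
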