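import Pool.Agent.Lib.MP_4a7415_coI.Spread
import Pool.Agent.Lib.MP_4a7415_coI.Patterns

/-! # Step 4: coercivity on the torus (row H) -/

namespace Pool.Agent.MP4a7415

open Finset Filter

/-- The dyadic levels. -/
private noncomputable def tt (i : ℕ) : ℝ := (1 / 2) ^ (i + 1)

private theorem tt_pos (i : ℕ) : 0 < tt i := by
  unfold tt
  positivity

private theorem tt_le (i : ℕ) : tt i ≤ 1 / 2 := by
  unfold tt
  rw [pow_succ]
  have : ((1 : ℝ) / 2) ^ i ≤ 1 := pow_le_one₀ (by norm_num) (by norm_num)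
  linarith

private theorem tt_sq (i : ℕ) : 4 * tt i ^ 2 = (1 / 4) ^ i := by
  unfold tt
  rw [← pow_mul, mul_comm (i + 1) 2, pow_mul, pow_succ]
  norm_num
  ring

private theorem tt_anti {i j : ℕ} (h : i ≤ j) : tt j ≤ tt i := by
  unfold tt
  exact pow_le_pow_of_le_one (by norm_num) (by norm_num) (by omega)

private theorem tt_div (i l : ℕ) : tt i / 2 ^ l = tt (i + l) := by
  unfold tt
  have h : ((1 : ℝ) / 2) ^ (i + l + 1) = (1 / 2) ^ (i + 1) * (1 / 2) ^ l := by ring
  have h2 : ((1 : ℝ) / 2) ^ l = 1 / 2 ^ l := by rw [div_pow, one_pow]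
  rw [h, h2, mul_one_div]

/-- The weighted number of levels below `x`. -/
private noncomputable def ff (I : ℕ) (x : ℝ) : ℝ :=
  ∑ i ∈ range I, (1 / 4 : ℝ) ^ i * (if tt i ≤ x then 1 else 0)

private theorem ff_lower (I : ℕ) {x : ℝ} (h0 : 0 ≤ x) (hx : x ≤ 1 / 2) :
    x ^ 2 ≤ ff I x + (1 / 4) ^ I := by
  have hnn : 0 ≤ ff I x := sum_nonneg fun i _ => by positivity
  induction I with
  | zero =>
    simp only [ff, range_zero, sum_empty, pow_zero]
    nlinarith
  | succ I ih =>
    have hnn' : 0 ≤ ff I x := sum_nonneg fun i _ => by positivity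
    by_cases h : tt I ≤ x
    · have e : ff (I + 1) x = ff I x + (1 / 4) ^ I := by
        rw [ff, sum_range_succ, if_pos h, mul_one]
        rfl
      rw [e]
      have := ih hnn'
      have h2 : (0 : ℝ) ≤ (1 / 4) ^ (I + 1) := by positivity
      linarith
    · push Not at h
      have h1 : x ^ 2 ≤ tt I ^ 2 := pow_le_pow_left₀ h0 h.le 2
      have h2 := tt_sq I
      have h3 : (1 / 4 : ℝ) ^ (I + 1) = tt I ^ 2 := by
        rw [pow_succ, ← h2]
        ring
      linarith

private theorem ff_zero (I : ℕ) {x : ℝ} (h : x < tt I) : ff I x = 0 := by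
  unfold ff
  refine sum_eq_zero fun i hi => ?_
  have h1 : tt I ≤ tt i := tt_anti (mem_range.1 hi).le
  rw [if_neg (by linarith), mul_zero]

private theorem ff_upper' (I : ℕ) {x : ℝ} (hx : tt I ≤ x) :
    ff I x + 4 / 3 * (1 / 4) ^ I ≤ 16 / 3 * x ^ 2 := by
  induction I with
  | zero =>
    have h1 : tt 0 ^ 2 ≤ x ^ 2 := pow_le_pow_left₀ (tt_pos 0).le hx 2
    have h2 := tt_sq 0
    simp only [ff, range_zero, sum_empty, pow_zero] at h2 ⊢
    linarith
  | succ I ih =>
    by_cases h : tt I ≤ x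
    · have e : ff (I + 1) x = ff I x + (1 / 4) ^ I := by
        rw [ff, sum_range_succ, if_pos h, mul_one]
        rfl
      have := ih h
      rw [e, pow_succ]
      linarith
    · push Not at h
      have e : ff (I + 1) x = 0 := by
        rw [ff, sum_range_succ, if_neg (not_le.2 h), mul_zero, add_zero]
        exact ff_zero I h
      have h1 : tt (I + 1) ^ 2 ≤ x ^ 2 := pow_le_pow_left₀ (tt_pos _).le hx 2
      have h2 := tt_sq (I + 1)
      rw [e]
      linarith

private theorem ff_upper (I : ℕ) (x : ℝ) : ff I x ≤ 16 / 3 * x ^ 2 := by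
  by_cases h : tt I ≤ x
  · have := ff_upper' I h
    have h2 : (0 : ℝ) ≤ 4 / 3 * (1 / 4) ^ I := by positivity
    linarith
  · push Not at h
    rw [ff_zero I h]
    positivity

private theorem ff_sum {ι : Type*} (s : Finset ι) (x : ι → ℝ) (I : ℕ) :
    ∑ i ∈ range I, (1 / 4 : ℝ) ^ i * ((s.filter fun a => tt i ≤ x a).card : ℝ) =
      ∑ a ∈ s, ff I (x a) := by
  unfold ff
  rw [sum_comm]
  refine sum_congr rfl fun i _ => ?_
  rw [← mul_sum, card_filter]
  push_cast
  rfl

private theorem shift (s : ℕ → ℝ) (N : ℝ) (hs0 : ∀ i, 0 ≤ s i) (hs : ∀ i, s i ≤ N) (I l : ℕ) :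
    ∑ i ∈ range I, (1 / 4 : ℝ) ^ i * s (i + l) ≤
      4 ^ l * (∑ i ∈ range I, (1 / 4 : ℝ) ^ i * s i + l * N * (1 / 4) ^ I) := by
  have hN : 0 ≤ N := (hs0 0).trans (hs 0)
  have e1 : ∑ i ∈ range I, (1 / 4 : ℝ) ^ i * s (i + l) =
      4 ^ l * ∑ i ∈ range I, (1 / 4 : ℝ) ^ (i + l) * s (i + l) := by
    rw [mul_sum]
    refine sum_congr rfl fun i _ => ?_
    rw [pow_add]
    have : (4 : ℝ) ^ l * (1 / 4) ^ l = 1 := by
      rw [← mul_pow]
      norm_num
    calc (1 / 4 : ℝ) ^ i * s (i + l) = ((4 : ℝ) ^ l * (1 / 4) ^ l) * ((1 / 4) ^ i * s (i + l)) := by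
          rw [this, one_mul]
      _ = _ := by ring
  rw [e1]
  refine mul_le_mul_of_nonneg_left ?_ (by positivity)
  have e2 : ∑ i ∈ range l, (1 / 4 : ℝ) ^ i * s i +
      ∑ i ∈ range I, (1 / 4 : ℝ) ^ (i + l) * s (i + l) =
      ∑ i ∈ range (I + l), (1 / 4 : ℝ) ^ i * s i := by
    rw [add_comm I l, sum_range_add]
    congr 1
    exact sum_congr rfl fun i _ => by rw [add_comm i l]
  have e3 : ∑ i ∈ range (I + l), (1 / 4 : ℝ) ^ i * s i =
      ∑ i ∈ range I, (1 / 4 : ℝ) ^ i * s i +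
      ∑ j ∈ range l, (1 / 4 : ℝ) ^ (I + j) * s (I + j) := sum_range_add _ _ _
  have h1 : ∑ j ∈ range l, (1 / 4 : ℝ) ^ (I + j) * s (I + j) ≤ l * N * (1 / 4) ^ I := by
    have h2 : ∀ j ∈ range l, (1 / 4 : ℝ) ^ (I + j) * s (I + j) ≤ (1 / 4) ^ I * N := by
      intro j _
      exact mul_le_mul (pow_le_pow_of_le_one (by norm_num) (by norm_num) (by omega)) (hs _)
        (hs0 _) (by positivity)
    refine (sum_le_sum h2).trans ?_
    rw [sum_const, card_range, nsmul_eq_mul]
    exact le_of_eq (by ring)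
  have h3 : 0 ≤ ∑ i ∈ range l, (1 / 4 : ℝ) ^ i * s i :=
    sum_nonneg fun i _ => mul_nonneg (by positivity) (hs0 i)
  linarith

private theorem lim_le {X Y Z : ℝ} (h : ∀ I : ℕ, X ≤ Y + Z * (1 / 4) ^ I) : X ≤ Y := by
  have h1 : Tendsto (fun I : ℕ => Y + Z * (1 / 4 : ℝ) ^ I) atTop (nhds (Y + Z * 0)) :=
    (tendsto_const_nhds).add ((tendsto_pow_atTop_nhds_zero_of_lt_one (by norm_num)
      (by norm_num)).const_mul Z)
  have := ge_of_tendsto' h1 h
  linarith

/-- Cutting off changes the sum over a block by little. -/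
private theorem cut_err {n q r : ℕ} (y : Finset (Fin n) → ℝ) {t : ℝ} (ht : 0 < t)
    {e : Finset (Fin n)} (he : e ∈ Blk n q) :
    |ev r (cutb n r y t) e - ev r y e| ≤ q.choose r * t := by
  classical
  have hq : e.card = q := (mem_powersetCard.1 he).2
  rw [ev, ev, ← sum_sub_distrib]
  refine (abs_sum_le_sum_abs _ _).trans ?_
  have h5 : ∀ T ∈ powersetCard r e, |cutb n r y t T - y T| ≤ t := by
    intro T hT
    unfold cutb
    by_cases hTS : T ∈ lev n r y t
    · rw [if_pos hTS, sub_self, abs_zero]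
      exact ht.le
    · rw [if_neg hTS, zero_sub, abs_neg]
      by_contra hcon
      push Not at hcon
      refine hTS ?_
      rw [lev, mem_filter]
      exact ⟨mem_powersetCard.2 ⟨subset_univ _, (mem_powersetCard.1 hT).2⟩, hcon.le⟩
  refine (sum_le_sum h5).trans ?_
  rw [sum_const, card_powersetCard, hq, nsmul_eq_mul]

theorem torus_coer (q r : ℕ) (hr : 1 ≤ r) (hqr : r < q) : ∃ (K : ℕ) (c κ : ℝ), 0 < c ∧ 0 < κ ∧
    ∀ᶠ n : ℕ in atTop, ∀ p : ℝ, 0 ≤ p → ∀ G : Finset (Finset (Fin n)),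
      Good3 n q r K c p G → ∀ y : Finset (Fin n) → ℝ, Min n q r y →
      κ * (p * (n - r).choose (q - r)) * ∑ R ∈ Blk n r, y R ^ 2 ≤
        ∑ e ∈ G, dZ (ev r y e) ^ 2 := by
  classical
  obtain ⟨B1, c1, hB1, hc1, hsp⟩ := spread q r hr hqr
  have hB10 : 0 < B1 := by linarith
  obtain ⟨l, hl⟩ := pow_unbounded_of_one_lt (2 * B1 * q.choose r) (by norm_num : (1 : ℝ) < 2)
  obtain ⟨K, hK⟩ : ∃ K : ℕ, K = 2 * 4 ^ l := ⟨_, rfl⟩
  have hKr : (K : ℝ) = 2 * 4 ^ l := by
    rw [hK]
    push_cast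
    rfl
  have hK0 : (0 : ℝ) < K := by
    rw [hKr]
    positivity
  refine ⟨K, c1, 3 * c1 / (256 * B1 ^ 2), hc1, by positivity, ?_⟩
  filter_upwards [hsp (2 ^ l) K (one_le_pow₀ (by norm_num)) hK0] with n hn p hp G hG y hy
  obtain ⟨D, hD⟩ : ∃ D, D = p * ((n - r).choose (q - r) : ℝ) := ⟨_, rfl⟩
  have hD0 : 0 ≤ D := by
    rw [hD]
    positivity
  rw [← hD]
  obtain ⟨u, hu⟩ : ∃ u : Finset (Fin n) → ℝ, ∀ e, u e = 2 * B1 * dZ (ev r y e) := ⟨_, fun _ => rfl⟩
  obtain ⟨s, hs⟩ : ∃ s : ℕ → ℝ, ∀ i, s i = ((lev n r y (tt i)).card : ℝ) := ⟨_, fun _ => rfl⟩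
  have hs0 : ∀ i, 0 ≤ s i := fun i => by
    rw [hs]
    positivity
  have hsN : ∀ i, s i ≤ ((Blk n r).card : ℝ) := fun i => by
    rw [hs]
    exact_mod_cast card_le_card (filter_subset _ _)
  -- one level
  have hlev : ∀ i, c1 / 2 * D * s i ≤ ((G.filter fun e => tt i ≤ u e).card : ℝ) +
      c1 / 2 * D / K * s (i + l) := by
    intro i
    by_cases hgood : s (i + l) ≤ K * s i
    · have hnn : 0 ≤ c1 / 2 * D / K * s (i + l) := mul_nonneg (by positivity) (hs0 _)
      rcases Nat.eq_zero_or_pos (lev n r y (tt i)).card with hz | hpos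
      · have : s i = 0 := by rw [hs, hz, Nat.cast_zero]
        rw [this, mul_zero]
        positivity
      have h1 := hn y hy (tt i) (tt_pos i) (tt_le i) (by
        rw [tt_div, ← hs, ← hs]
        exact hgood)
      rw [tt_div] at h1
      have hm : (lev n r y (tt i)).card ∈ Icc 1 (n.choose r) := by
        rw [mem_Icc]
        refine ⟨hpos, ?_⟩
        have := card_le_card (filter_subset (fun R => tt i ≤ |y R|) (Blk n r))
        rw [card_powersetCard, card_univ, Fintype.card_fin] at this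
        exact this
      have hcardS : (lev n r y (tt (i + l))).card ≤ K * (lev n r y (tt i)).card := by
        rw [hs, hs] at hgood
        exact_mod_cast hgood
      have h2 := hG _ hm (lev n r y (tt (i + l))) (filter_subset _ _) hcardS
        (cutb n r y (tt (i + l))) (fun R hR => by
          unfold cutb
          exact if_neg hR) (fun R => by
          unfold cutb
          split_ifs with h
          · exact hy.1 R (mem_filter.1 h).1
          · simp) (tt i / B1) h1
      have hsub : G ∩ dheavy n q r (cutb n r y (tt (i + l))) (tt i / B1) ⊆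
          G.filter fun e => tt i ≤ u e := by
        intro e he
        rw [mem_inter, dheavy, mem_filter] at he
        obtain ⟨heG, heB, h3⟩ := he
        rw [mem_filter]
        refine ⟨heG, ?_⟩
        have h4 := dZ_le_add_abs (ev r (cutb n r y (tt (i + l))) e) (ev r y e)
        have h5 := cut_err (r := r) y (tt_pos (i + l)) heB
        have h6 : (q.choose r : ℝ) * tt (i + l) ≤ tt i / (2 * B1) := by
          rw [← tt_div, mul_div_assoc', div_le_div_iff₀ (by positivity) (by positivity)]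
          have := mul_le_mul_of_nonneg_left hl.le (tt_pos i).le
          linarith
        have h7 : tt i / B1 = tt i / (2 * B1) + tt i / (2 * B1) := by
          field_simp
          ring
        have h8 : tt i / (2 * B1) ≤ dZ (ev r y e) := by linarith
        rw [div_le_iff₀ (by positivity)] at h8
        rw [hu]
        linarith
      have h9 : ((G ∩ dheavy n q r (cutb n r y (tt (i + l))) (tt i / B1)).card : ℝ) ≤
          ((G.filter fun e => tt i ≤ u e).card : ℝ) := by
        exact_mod_cast card_le_card hsub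
      have h10 : c1 / 2 * D * s i =
          c1 / 2 * (p * ((lev n r y (tt i)).card * (n - r).choose (q - r))) := by
        rw [hs, hD]
        ring
      rw [h10]
      linarith
    · push Not at hgood
      have h1 : c1 / 2 * D / K * (K * s i) ≤ c1 / 2 * D / K * s (i + l) :=
        mul_le_mul_of_nonneg_left hgood.le (by positivity)
      have h2 : c1 / 2 * D / K * (K * s i) = c1 / 2 * D * s i := by
        field_simp
      have h3 : (0 : ℝ) ≤ ((G.filter fun e => tt i ≤ u e).card : ℝ) := Nat.cast_nonneg _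
      linarith
  -- sum over the levels
  have hfin : ∀ I : ℕ, c1 / 4 * D * ∑ R ∈ Blk n r, y R ^ 2 ≤
      16 / 3 * ∑ e ∈ G, u e ^ 2 + (c1 / 4 * D * ((l + 1) * (Blk n r).card)) * (1 / 4) ^ I := by
    intro I
    obtain ⟨A, hA⟩ : ∃ A, A = ∑ i ∈ range I, (1 / 4 : ℝ) ^ i * s i := ⟨_, rfl⟩
    obtain ⟨N, hN⟩ : ∃ N : ℝ, N = ((Blk n r).card : ℝ) := ⟨_, rfl⟩
    have hN0 : 0 ≤ N := by
      rw [hN]
      positivity
    have h1 : ∑ R ∈ Blk n r, y R ^ 2 ≤ A + N * (1 / 4) ^ I := by
      have e1 : A = ∑ R ∈ Blk n r, ff I |y R| := by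
        rw [← ff_sum, hA]
        exact sum_congr rfl fun i _ => by
          rw [hs]
          rfl
      have e2 : N * (1 / 4) ^ I = ∑ R ∈ Blk n r, ((1 : ℝ) / 4) ^ I := by
        rw [sum_const, nsmul_eq_mul, hN]
      rw [e1, e2, ← sum_add_distrib]
      refine sum_le_sum fun R hR => ?_
      rw [← sq_abs]
      exact ff_lower I (abs_nonneg _) (hy.1 R hR)
    have h2 : ∑ i ∈ range I, (1 / 4 : ℝ) ^ i * ((G.filter fun e => tt i ≤ u e).card : ℝ) ≤
        16 / 3 * ∑ e ∈ G, u e ^ 2 := by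
      rw [ff_sum, mul_sum]
      exact sum_le_sum fun e _ => ff_upper I _
    have h3 := shift s N hs0 (fun i => by
      rw [hN]
      exact hsN i) I l
    rw [← hA] at h3
    have h4 : c1 / 2 * D * A ≤
        ∑ i ∈ range I, (1 / 4 : ℝ) ^ i * ((G.filter fun e => tt i ≤ u e).card : ℝ) +
        c1 / 2 * D / K * ∑ i ∈ range I, (1 / 4 : ℝ) ^ i * s (i + l) := by
      rw [hA, mul_sum, mul_sum, ← sum_add_distrib]
      refine sum_le_sum fun i _ => ?_
      have h5 := mul_le_mul_of_nonneg_left (hlev i) (show (0 : ℝ) ≤ (1 / 4) ^ i by positivity)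
      linarith
    have h5 : c1 / 2 * D / K * ∑ i ∈ range I, (1 / 4 : ℝ) ^ i * s (i + l) ≤
        c1 / 4 * D * (A + l * N * (1 / 4) ^ I) := by
      refine (mul_le_mul_of_nonneg_left h3 (by positivity)).trans (le_of_eq ?_)
      rw [hKr]
      field_simp
      ring
    have h6 := mul_le_mul_of_nonneg_left h1 (show 0 ≤ c1 / 4 * D by positivity)
    rw [← hN]
    have e3 : c1 / 4 * D * ((l + 1) * N) * (1 / 4) ^ I =
        c1 / 4 * D * (l * N * (1 / 4) ^ I) + c1 / 4 * D * (N * (1 / 4) ^ I) := by ring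
    rw [e3]
    linarith
  have h1 := lim_le hfin
  have h2 : ∑ e ∈ G, u e ^ 2 = 4 * B1 ^ 2 * ∑ e ∈ G, dZ (ev r y e) ^ 2 := by
    rw [mul_sum]
    exact sum_congr rfl fun e _ => by
      rw [hu]
      ring
  rw [h2] at h1
  have h3 : 3 * c1 / (256 * B1 ^ 2) * D * ∑ R ∈ Blk n r, y R ^ 2 =
      3 / (64 * B1 ^ 2) * (c1 / 4 * D * ∑ R ∈ Blk n r, y R ^ 2) := by
    field_simp
    ring
  rw [h3]
  refine (mul_le_mul_of_nonneg_left h1 (by positivity)).trans (le_of_eq ?_)
  field_simp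
  ring

end Pool.Agent.MP4a7415
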